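import Mathlib

set_option autoImplicit false
set_option linter.unusedSectionVars false

/-!
# Decision trees over blocks with arbitrary alphabets, and disjunctions of local terms
-/

namespace Pool.Agent.H59.Er

open Finset Classical

variable {I X β γ : Type*}

/-- `DT n f`: the function `f` of the values `x i` of the blocks is computed by a decision tree of
depth at most `n` which queries whole blocks. -/
inductive DT {I X β : Type*} : ℕ → ((I → X) → β) → Prop
  | const (n : ℕ) (b : β) : DT n (fun _ => b)
  | node (n : ℕ) (i : I) (g : X → (I → X) → β) : (∀ a, DT n (g a)) → DT (n + 1) (fun x => g (x i) x)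

theorem DT.congr {n : ℕ} {f g : (I → X) → β} (hf : DT n f) (h : ∀ x, f x = g x) : DT n g := by
  have : f = g := funext h
  exact this ▸ hf

theorem DT.mono {n : ℕ} {f : (I → X) → β} (hf : DT n f) : ∀ {m : ℕ}, n ≤ m → DT m f := by
  induction hf with
  | const n b => intro m _; exact DT.const m b
  | node n i g _ ih =>
    intro m hm
    obtain ⟨m', rfl⟩ : ∃ m', m = m' + 1 := ⟨m - 1, by omega⟩
    exact DT.node m' i g fun a => ih a (by omega)

theorem DT.map {n : ℕ} {f : (I → X) → β} (hf : DT n f) (φ : β → γ) :
    DT n (fun x => φ (f x)) := by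
  induction hf with
  | const n b => exact DT.const n (φ b)
  | node n i g _ ih => exact DT.node n i (fun a x => φ (g a x)) fun a => ih a

/-- sequential composition -/
theorem DT.bind {n m : ℕ} {f : (I → X) → β} (hf : DT n f) {g : β → (I → X) → γ}
    (hg : ∀ b, DT m (g b)) : DT (n + m) (fun x => g (f x) x) := by
  induction hf with
  | const n b => exact (hg b).mono (by omega)
  | node n i f _ ih =>
    have h := DT.node (n + m) i (fun a x => g (f a x) x) fun a => ih a
    exact h.mono (by omega)

theorem DT.query (i : I) : DT 1 (fun x : I → X => x i) :=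
  DT.node 0 i (fun a _ => a) fun a => DT.const 0 a

/-- substitute for every block a function of one new block -/
theorem DT.subst {I' X' : Type*} {n : ℕ} {g : (I → X) → β} (hg : DT n g)
    (φ : (I' → X') → I → X) (a : I → I') (G : I → X' → X) (hφ : ∀ y i, φ y i = G i (y (a i))) :
    DT n (fun y => g (φ y)) := by
  induction hg with
  | const n b => exact DT.const n b
  | node n i g _ ih =>
    have h := DT.node n (a i) (fun c y => g (G i c) (φ y)) fun c => ih (G i c)
    refine h.congr ?_
    intro y
    show g (G i (y (a i))) (φ y) = g (φ y i) (φ y)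
    rw [hφ y i]

/-- substitute for every block a function with a decision tree -/
theorem DT.comp {I' X' : Type*} {n m : ℕ} {g : (I → X) → β} (hg : DT n g)
    (φ : (I' → X') → I → X) (hφ : ∀ i, DT m (fun y => φ y i)) :
    DT (n * m) (fun y => g (φ y)) := by
  induction hg with
  | const n b => exact DT.const _ b
  | node n i g _ ih =>
    have h := DT.bind (hφ i) (g := fun c y => g c (φ y)) fun c => ih c
    exact h.mono (by ring_nf; omega)

/-- query all blocks of a finite set first -/
theorem DT.ofFinset (Y : Finset I) (x0 : I → X) {n : ℕ} (g : (I → X) → (I → X) → β) 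
    (hg : ∀ π, DT n (g π)) : DT (Y.card + n) (fun x => g (fun i => if i ∈ Y then x i else x0 i) x) := by
  induction Y using Finset.induction_on generalizing g with
  | empty =>
    refine (hg x0).mono (by simp) |>.congr ?_
    intro x
    simp
  | insert a Y ha ih =>
    have h := DT.node (Y.card + n) a
      (fun c x => g (Function.update (fun i => if i ∈ Y then x i else x0 i) a c) x)
      (fun c => ih (fun π => g (Function.update π a c)) (fun π => hg _))
    rw [Finset.card_insert_of_notMem ha]
    refine (h.mono (by omega)).congr ?_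
    intro x
    show g _ x = g _ x
    congr 1
    funext i
    by_cases hi : i = a
    · subst hi
      simp
    · rw [Function.update_of_ne hi]
      simp [hi]

/-- A function with a decision tree depends on few coordinates at every point. -/
theorem DT.cert {n : ℕ} {f : (I → X) → β} (hf : DT n f) (x : I → X) :
    ∃ S : Finset I, S.card ≤ n ∧ ∀ y : I → X, (∀ i ∈ S, y i = x i) → f y = f x := by
  induction hf with
  | const n b => exact ⟨∅, by simp, fun _ _ => rfl⟩
  | node n i g _ ih =>
    obtain ⟨S, hS, h⟩ := ih (x i)
    refine ⟨insert i S, (Finset.card_insert_le _ _).trans (by omega), ?_⟩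
    intro y hy
    have h1 : y i = x i := hy i (Finset.mem_insert_self _ _)
    show g (y i) y = g (x i) x
    rw [h1]
    exact h y fun j hj => hy j (Finset.mem_insert_of_mem hj)

/-- a term: a finite set of blocks and a set of local values for every block -/
structure Term (I X : Type*) where
  /-- the blocks of the term -/
  S : Finset I
  /-- the admissible values -/
  P : I → Set X

/-- the term is satisfied -/
def Term.Sat (T : Term I X) (x : I → X) : Prop := ∀ i ∈ T.S, x i ∈ T.P i

/-- the disjunction of the terms of the list -/
def Dnf (F : List (Term I X)) (x : I → X) : Prop := ∃ T ∈ F, T.Sat x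

theorem dnf_cons (T : Term I X) (F : List (Term I X)) (x : I → X) :
    Dnf (T :: F) x ↔ T.Sat x ∨ Dnf F x := by
  unfold Dnf
  simp

/-- restrict the list of terms: the blocks in `Y` have the values `π` -/
noncomputable def restr (Y : Finset I) (π : I → X) (F : List (Term I X)) : List (Term I X) :=
  (F.filter (fun T => decide (∀ i ∈ T.S, i ∈ Y → π i ∈ T.P i))).map (fun T => ⟨T.S \ Y, T.P⟩)

theorem mem_restr {Y : Finset I} {π : I → X} {F : List (Term I X)} {T' : Term I X}
    (h : T' ∈ restr Y π F) : ∃ T ∈ F, T'.S = T.S \ Y ∧ T'.P = T.P := by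
  unfold restr at h
  rw [List.mem_map] at h
  obtain ⟨T, h1, rfl⟩ := h
  rw [List.mem_filter] at h1
  exact ⟨T, h1.1, rfl, rfl⟩

theorem restr_length (Y : Finset I) (π : I → X) (F : List (Term I X)) :
    (restr Y π F).length ≤ F.length := by
  unfold restr
  rw [List.length_map]
  exact List.length_filter_le _ _

theorem dnf_restr (Y : Finset I) (π : I → X) (F : List (Term I X)) (x : I → X)
    (h : ∀ i ∈ Y, x i = π i) : Dnf (restr Y π F) x ↔ Dnf F x := by
  unfold Dnf restr
  constructor
  · rintro ⟨T', h1, h2⟩
    rw [List.mem_map] at h1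
    obtain ⟨T, h3, rfl⟩ := h1
    rw [List.mem_filter] at h3
    refine ⟨T, h3.1, ?_⟩
    intro i hi
    by_cases hY : i ∈ Y
    · rw [h i hY]
      have := h3.2
      rw [decide_eq_true_eq] at this
      exact this i hi hY
    · exact h2 i (Finset.mem_sdiff.2 ⟨hi, hY⟩)
  · rintro ⟨T, h1, h2⟩
    refine ⟨⟨T.S \ Y, T.P⟩, List.mem_map.2 ⟨T, List.mem_filter.2 ⟨h1, ?_⟩, rfl⟩, ?_⟩
    · rw [decide_eq_true_eq]
      intro i hi hY
      rw [← h i hY]
      exact h2 i hi
    · intro i hi
      exact h2 i (Finset.mem_sdiff.1 hi).1

/-- A predicate with a decision tree is a disjunction of small terms with singleton values. -/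
theorem DT.terms [Fintype X] {n : ℕ} {f : (I → X) → Prop} (hf : DT n f) :
    ∃ F : List (Term I X), (∀ T ∈ F, T.S.card ≤ n ∧ ∀ i ∈ T.S, ∃ a, T.P i = {a}) ∧
      ∀ x, f x ↔ Dnf F x := by
  induction hf with
  | const n b =>
    by_cases hb : b
    · refine ⟨[⟨∅, fun _ => ∅⟩], ?_, ?_⟩
      · intro T hT
        rw [List.mem_singleton] at hT
        subst hT
        simp
      · intro x
        simp [hb, Dnf, Term.Sat]
    · exact ⟨[], by simp, fun x => by simp [hb, Dnf]⟩
  | node n i g _ ih =>
    choose F hF1 hF2 using ih
    -- terms of the branch `a`, with the block `i` added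
    let add : X → Term I X → Term I X := fun a T =>
      ⟨insert i T.S, fun j => if j = i then {a} else T.P j⟩
    let ok : X → Term I X → Prop := fun a T => i ∈ T.S → a ∈ T.P i
    let L : List (Term I X) := (Finset.univ : Finset X).toList.flatMap fun a =>
      ((restr {i} (fun _ => a) (F a)).map (add a))
    refine ⟨L, ?_, ?_⟩
    · intro T hT
      rw [List.mem_flatMap] at hT
      obtain ⟨a, _, hT⟩ := hT
      rw [List.mem_map] at hT
      obtain ⟨T1, hT1, rfl⟩ := hT
      obtain ⟨T2, h1, h2, h3⟩ := mem_restr hT1
      obtain ⟨h4, h5⟩ := hF1 a T2 h1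
      constructor
      · show (insert i T1.S).card ≤ n + 1
        refine (Finset.card_insert_le _ _).trans ?_
        rw [h2]
        have := Finset.card_le_card (Finset.sdiff_subset (s := T2.S) (t := {i}))
        omega
      · intro j hj
        show ∃ b, (if j = i then {a} else T1.P j) = {b}
        by_cases hji : j = i
        · exact ⟨a, by rw [if_pos hji]⟩
        · rw [if_neg hji, h3]
          have h6 : j ∈ insert i T1.S := hj
          rw [Finset.mem_insert, h2, Finset.mem_sdiff] at h6
          rcases h6 with h6 | h6
          · exact absurd h6 hji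
          · exact h5 j h6.1
    · intro x
      show g (x i) x ↔ _
      rw [hF2 (x i) x, ← dnf_restr {i} (fun _ => x i) (F (x i)) x (by simp)]
      constructor
      · rintro ⟨T, hT, hs⟩
        refine ⟨add (x i) T, ?_, ?_⟩
        · rw [List.mem_flatMap]
          exact ⟨x i, by simp, List.mem_map.2 ⟨T, hT, rfl⟩⟩
        · intro j hj
          show x j ∈ (if j = i then ({x i} : Set X) else T.P j)
          by_cases hji : j = i
          · rw [if_pos hji, hji]; exact rfl
          · rw [if_neg hji]
            have h6 : j ∈ insert i T.S := hj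
            rw [Finset.mem_insert] at h6
            rcases h6 with h6 | h6
            · exact absurd h6 hji
            · exact hs j h6
      · rintro ⟨T, hT, hs⟩
        rw [List.mem_flatMap] at hT
        obtain ⟨a, _, hT⟩ := hT
        rw [List.mem_map] at hT
        obtain ⟨T1, hT1, rfl⟩ := hT
        have h7 : x i ∈ (if i = i then ({a} : Set X) else T1.P i) :=
          hs i (Finset.mem_insert_self _ _)
        rw [if_pos rfl] at h7
        have h8 : x i = a := h7
        subst h8
        refine ⟨T1, hT1, ?_⟩
        intro j hj
        obtain ⟨T2, h1, h2, h3⟩ := mem_restr hT1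
        have hji : j ≠ i := by
          rintro rfl
          rw [h2, Finset.mem_sdiff] at hj
          exact hj.2 (Finset.mem_singleton_self _)
        have h9 : x j ∈ (if j = i then ({x i} : Set X) else T1.P j) :=
          hs j (Finset.mem_insert_of_mem hj)
        rw [if_neg hji] at h9
        exact h9

/-- Disjunctions over a finite family. -/
theorem dnf_flatMap {ι : Type*} (l : List ι) (F : ι → List (Term I X)) (x : I → X) :
    Dnf (l.flatMap F) x ↔ ∃ u ∈ l, Dnf (F u) x := by
  unfold Dnf
  simp only [List.mem_flatMap]
  constructor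
  · rintro ⟨T, ⟨u, hu, hT⟩, hs⟩
    exact ⟨u, hu, T, hT, hs⟩
  · rintro ⟨u, hu, T, hT, hs⟩
    exact ⟨T, ⟨u, hu, hT⟩, hs⟩

end Pool.Agent.H59.Er
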