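import Mathlib
import Pool.Agent.H9.Machine
import Pool.Agent.H59.Er.DT

set_option autoImplicit false
set_option linter.unusedSectionVars false

/-!
# Runs of oracle machines are decision trees
-/

namespace Pool.Agent.H59.Er

open Pool.Agent.H9 Classical

variable {I X : Type*} {d : ℕ} {O : (I → X) → Oracle}

/-- The configuration after `t` steps has a decision tree of depth `d * t`. -/
theorem dt_iterate (hO : ∀ w, DT d (fun x => O x w)) : ∀ (t : ℕ) (c : Cfg),
    DT (d * t) (fun x => (step (O x))^[t] c) := by
  intro t
  induction t with
  | zero => intro c; exact DT.const _ c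
  | succ t ih =>
    intro c
    have hdet : ∀ c' : Cfg, (∀ A, step A c = c') →
        DT (d * (t + 1)) (fun x => (step (O x))^[t + 1] c) := by
      intro c' h1
      refine ((ih c').mono (Nat.mul_le_mul_left d (Nat.le_succ t))).congr ?_
      intro x
      rw [Function.iterate_succ_apply, h1]
    obtain ⟨k, s⟩ := c
    match k with
    | [] => exact hdet ([], s) (fun A => rfl)
    | Prog.skip :: k => exact hdet (k, s) (fun A => rfl)
    | Prog.push i b :: k => exact hdet (k, Function.update s i (b :: s i)) (fun A => rfl)
    | Prog.pop i :: k => exact hdet (k, Function.update s i (s i).tail) (fun A => rfl)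
    | Prog.seq p q :: k => exact hdet (p :: q :: k, s) (fun A => rfl)
    | Prog.cond i p q r :: k =>
      match hsi : s i with
      | [] => exact hdet (p :: k, s) (fun A => by simp [step, hsi])
      | false :: _ => exact hdet (q :: k, s) (fun A => by simp [step, hsi])
      | true :: _ => exact hdet (r :: k, s) (fun A => by simp [step, hsi])
    | Prog.loop i p :: k =>
      match hsi : s i with
      | [] => exact hdet (k, s) (fun A => by simp [step, hsi])
      | _ :: _ => exact hdet (p :: Prog.loop i p :: k, s) (fun A => by simp [step, hsi])
    | Prog.ask i p q :: k =>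
      have h1 := DT.bind (hO (s i))
        (g := fun (b : Bool) x => (step (O x))^[t] ((if b = true then p else q) :: k, s))
        fun b => ih _
      refine (h1.mono (by ring_nf; omega)).congr ?_
      intro x
      rw [Function.iterate_succ_apply]
      cases hA : O x (s i)
      · simp [step, hA]
      · simp [step, hA]

theorem dt_run (hO : ∀ w, DT d (fun x => O x w)) (p : Prog) (xs : List (List Bool)) (t : ℕ) :
    DT (d * t) (fun x => run (O x) p xs t) := dt_iterate hO t _

theorem dt_acceptsIn (hO : ∀ w, DT d (fun x => O x w)) (p : Prog) (xs : List (List Bool))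
    (t : ℕ) : DT (d * t) (fun x => AcceptsIn (O x) p xs t) :=
  (dt_run hO p xs t).map fun c => c.1 = [] ∧ (c.2 0).head? = some true

end Pool.Agent.H59.Er
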