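import Pool.Agent.H59.Er.Ker
import Pool.Agent.H9.Machine

set_option autoImplicit false
set_option linter.unusedSectionVars false

/-!
# The collapse lemma

Alternating functions of small decision trees become constant under a random refinement in which
every block stays free only with a probability much smaller than the inverse square of the size of
its alphabet.
-/

namespace Pool.Agent.H59.Er

open Finset Classical
open Pool.Agent.H9 (Alt)

noncomputable section

variable {I X : Type} [Fintype I] [Fintype X]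

/-- on the worlds of `ρ` the function `f` has a decision tree of depth `n` -/
def HasF {β : Type} (V : I → Finset X) (n : ℕ) (ρ : I → Option X) (f : (I → X) → β) : Prop :=
  ∃ g : (I → X) → β, DT n g ∧ ∀ x ∈ Wd V ρ, f x = g x

/-- `f` is constant on the worlds of `ρ` -/
def Cst {β : Type} (V : I → Finset X) (ρ : I → Option X) (f : (I → X) → β) : Prop :=
  ∃ b, ∀ x ∈ Wd V ρ, f x = b

variable {V : I → Finset X} {β : Type}

theorem HasF.mono {n m : ℕ} {ρ : I → Option X} {f : (I → X) → β} (h : HasF V n ρ f)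
    (hnm : n ≤ m) : HasF V m ρ f := by
  obtain ⟨g, hg, hfg⟩ := h
  exact ⟨g, hg.mono hnm, hfg⟩

theorem HasF.ref {n : ℕ} {ρ ρ' : I → Option X} {f : (I → X) → β} (h : HasF V n ρ f)
    (hρ : Ref V ρ ρ') : HasF V n ρ' f := by
  obtain ⟨g, hg, hfg⟩ := h
  exact ⟨g, hg, fun x hx => hfg x (hρ.wd hx)⟩

theorem HasF.not {n : ℕ} {ρ : I → Option X} {f : (I → X) → Prop} (h : HasF V n ρ f) :
    HasF V n ρ (fun x => ¬ f x) := by
  obtain ⟨g, hg, hfg⟩ := h
  exact ⟨fun x => ¬ g x, hg.map Not, fun x hx => congrArg Not (hfg x hx)⟩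

theorem HasF.congr {n : ℕ} {ρ : I → Option X} {f f' : (I → X) → β} (h : HasF V n ρ f)
    (hff : ∀ x, f x = f' x) : HasF V n ρ f' := by
  have : f = f' := funext hff
  exact this ▸ h

theorem Cst.ref {ρ ρ' : I → Option X} {f : (I → X) → β} (h : Cst V ρ f)
    (hρ : Ref V ρ ρ') : Cst V ρ' f := by
  obtain ⟨b, hb⟩ := h
  exact ⟨b, fun x hx => hb x (hρ.wd hx)⟩

theorem one_add_pow_le_two {s : ℕ} (hs : 1 ≤ s) : (1 + 1 / (2 * (s : ℝ))) ^ s ≤ 2 := by
  have hs0 : (0 : ℝ) < s := by exact_mod_cast hs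
  have h1 : (1 + 1 / (2 * (s : ℝ))) ≤ Real.exp (1 / (2 * (s : ℝ))) := by
    rw [add_comm]
    exact Real.add_one_le_exp _
  have h2 : (1 + 1 / (2 * (s : ℝ))) ^ s ≤ Real.exp (1 / (2 * (s : ℝ))) ^ s :=
    pow_le_pow_left₀ (by positivity) h1 s
  rw [← Real.exp_nat_mul] at h2
  have h3 : (s : ℝ) * (1 / (2 * (s : ℝ))) = 1 / 2 := by field_simp
  rw [h3] at h2
  have h4 : Real.exp (1 / 2) ≤ 2 := by
    have h5 : Real.exp (1 / 2) ^ 2 = Real.exp 1 := by
      rw [← Real.exp_nat_mul]
      norm_num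
    have h6 := Real.exp_one_lt_d9
    nlinarith [Real.exp_pos (1 / 2 : ℝ)]
  exact h2.trans h4

/-- The local condition for random refinements. -/
theorem localCond_ker (hV : ∀ i, (V i).Nonempty) {p : I → ℝ} (h0 : ∀ i, 0 ≤ p i) {γ : ℝ}
    (hγ1 : γ ≤ 1) (hp : ∀ i, p i * ((V i).card : ℝ) ^ 2 ≤ γ / 2) (ρ : I → Option X) (i : I)
    (P : Set X) :
    LocalCond (ker V p ρ) (fun i r => (Vs V i r : Set X)) (fun i => ((V i).card : ℝ)) γ i P := by
  intro Γ hΓ
  have hM : (1 : ℝ) ≤ (V i).card := by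
    exact_mod_cast Finset.card_pos.2 (hV i)
  have hγ0 : 0 ≤ γ := by
    have h1 := hp i
    have h2 := h0 i
    nlinarith [mul_nonneg h2 (sq_nonneg ((V i).card : ℝ))]
  have hpi : p i ≤ 1 / 2 := by
    have h1 := hp i
    have h2 := h0 i
    nlinarith [mul_le_mul_of_nonneg_left (one_le_pow₀ hM (n := 2)) h2]
  have hrhs : 0 ≤ γ * ∑ r, ker V p ρ i r * ind (r ∈ Γ ∧ ((Vs V i r : Finset X) : Set X) ⊆ P) := by
    apply mul_nonneg hγ0
    apply Finset.sum_nonneg
    intro r _
    exact mul_nonneg ((ker_isPr hV h0 (fun i => by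
      have h1 := hp i
      have h2 := h0 i
      have hM : (1 : ℝ) ≤ (V i).card := by exact_mod_cast Finset.card_pos.2 (hV i)
      nlinarith [mul_le_mul_of_nonneg_left (one_le_pow₀ hM (n := 2)) h2]) ρ).nonneg i r)
      (ind_nonneg _)
  -- a fixed value is forced or impossible
  have hsome : ∀ a : X, ind (some a ∈ Γ ∧ ¬ ((Vs V i (some a) : Finset X) : Set X) ⊆ P ∧
      (((Vs V i (some a) : Finset X) : Set X) ∩ P).Nonempty) = 0 := by
    intro a
    apply ind_false
    rintro ⟨_, h1, b, hb, hbP⟩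
    have h2 : b = a := by
      have : b ∈ ({a} : Finset X) := hb
      simpa using this
    subst h2
    apply h1
    intro c hc
    have : c ∈ ({b} : Finset X) := hc
    have h3 : c = b := by simpa using this
    rw [h3]
    exact hbP
  show ((V i).card : ℝ) * ∑ r, ker V p ρ i r * ind (r ∈ Γ ∧
    ¬ ((Vs V i r : Finset X) : Set X) ⊆ P ∧ (((Vs V i r : Finset X) : Set X) ∩ P).Nonempty) ≤ _
  rw [sum_option]
  simp only [hsome, mul_zero, Finset.sum_const_zero, add_zero]
  cases hρ : ρ i with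
  | some b =>
    rw [ker_fix_none hρ, zero_mul, mul_zero]
    exact hrhs
  | none =>
    rw [ker_star hρ]
    by_cases hE : (none ∈ Γ ∧ ¬ ((Vs V i none : Finset X) : Set X) ⊆ P ∧
      (((Vs V i none : Finset X) : Set X) ∩ P).Nonempty)
    swap
    · rw [ind_false hE, mul_zero, mul_zero]
      exact hrhs
    rw [ind_true hE, mul_one]
    obtain ⟨h1, _, a, ha, haP⟩ := hE
    have haV : a ∈ V i := ha
    have hsub : ((Vs V i (some a) : Finset X) : Set X) ⊆ P := by
      intro c hc
      have : c ∈ ({a} : Finset X) := hc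
      have h3 : c = a := by simpa using this
      rw [h3]
      exact haP
    have hmem : some a ∈ Γ := by
      apply hΓ none h1
      intro c hc
      have : c ∈ ({a} : Finset X) := hc
      have h3 : c = a := by simpa using this
      rw [h3]
      exact ha
    have h4 : (1 - p i) / ((V i).card : ℝ) ≤ ∑ r, ker V p ρ i r *
        ind (r ∈ Γ ∧ ((Vs V i r : Finset X) : Set X) ⊆ P) := by
      have h5 : (1 - p i) / ((V i).card : ℝ) = ker V p ρ i (some a) *
          ind (some a ∈ Γ ∧ ((Vs V i (some a) : Finset X) : Set X) ⊆ P) := by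
        rw [ind_true ⟨hmem, hsub⟩, mul_one, ker_star_some hρ, if_pos haV]
      rw [h5]
      apply Finset.single_le_sum (f := fun r => ker V p ρ i r *
        ind (r ∈ Γ ∧ ((Vs V i r : Finset X) : Set X) ⊆ P)) _ (Finset.mem_univ _)
      intro r _
      exact mul_nonneg ((ker_isPr hV h0 (fun i => by
        have h1 := hp i
        have h2 := h0 i
        have hM : (1 : ℝ) ≤ (V i).card := by exact_mod_cast Finset.card_pos.2 (hV i)
        nlinarith [mul_le_mul_of_nonneg_left (one_le_pow₀ hM (n := 2)) h2]) ρ).nonneg i r)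
        (ind_nonneg _)
    refine le_trans ?_ (mul_le_mul_of_nonneg_left h4 hγ0)
    rw [mul_div_assoc', le_div_iff₀ (by linarith)]
    have h6 := hp i
    nlinarith

/-- One step: a disjunction of small decision trees has again a small decision tree. -/
theorem switch_step [Nonempty X] (hV : ∀ i, (V i).Nonempty) {s : ℕ} (hs : 1 ≤ s) {p : I → ℝ}
    (h0 : ∀ i, 0 ≤ p i) (hp : ∀ i, p i * ((V i).card : ℝ) ^ 2 ≤ 1 / (16 * s))
    (ρ : I → Option X) {ι : Type} [Fintype ι] (f : ι → (I → X) → Prop)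
    (hf : ∀ u, HasF V s ρ (f u)) :
    Pr (ker V p ρ) (fun ρ' => ¬ HasF V s ρ' (fun x => ∃ u, f u x)) ≤ (1 / 4 : ℝ) ^ (s + 1) := by
  have hs0 : (0 : ℝ) < s := by exact_mod_cast hs
  have hs1 : (1 : ℝ) ≤ s := by exact_mod_cast hs
  have h1 : ∀ i, p i ≤ 1 := by
    intro i
    have hM : (1 : ℝ) ≤ (V i).card := by exact_mod_cast Finset.card_pos.2 (hV i)
    have h2 := mul_le_mul_of_nonneg_left (one_le_pow₀ hM (n := 2)) (h0 i)
    have h3 : 1 / (16 * (s : ℝ)) ≤ 1 := by
      rw [div_le_one (by positivity)]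
      linarith
    linarith [hp i]
  choose g hg hfg using hf
  choose F hF1 hF2 using fun u => DT.terms (hg u)
  let L : List (Term I X) := (Finset.univ : Finset ι).toList.flatMap F
  have hL : ∀ x, Dnf L x ↔ ∃ u, g u x := by
    intro x
    rw [dnf_flatMap]
    simp only [Finset.mem_toList, Finset.mem_univ, true_and, ← hF2]
  have hsw := switching (μ := ker V p ρ) (A := fun i r => (Vs V i r : Set X)) (As := Vs V)
    (K := fun i => ((V i).card : ℝ)) (γ := 1 / (8 * s)) (ker_isPr hV h0 h1 ρ)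
    (fun i r => subset_rfl)
    (by
      intro i r
      cases r with
      | none => exact hV i
      | some a => exact ⟨a, Finset.mem_coe.2 (Finset.mem_singleton_self a)⟩)
    (fun i => by positivity)
    (by
      intro i r
      cases r with
      | none => exact le_rfl
      | some a =>
        show (((({a} : Finset X)).card : ℕ) : ℝ) ≤ (V i).card
        rw [Finset.card_singleton]
        exact_mod_cast Finset.card_pos.2 (hV i))
    (by positivity) (α := 1 / 4) (by norm_num) (by norm_num) (w := s)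
    (by
      have h2 : 1 / (8 * (s : ℝ)) / (1 / 4) = 1 / (2 * (s : ℝ)) := by
        field_simp
        ring
      rw [h2]
      exact one_add_pow_le_two hs)
    L.length L le_rfl
    (by
      intro T hT
      rw [List.mem_flatMap] at hT
      obtain ⟨u, _, hT⟩ := hT
      refine ⟨(hF1 u T hT).1, fun i _ => ?_⟩
      apply localCond_ker hV h0
      · rw [div_le_one (by positivity)]
        linarith
      · intro j
        have h3 := hp j
        have h4 : 1 / (8 * (s : ℝ)) / 2 = 1 / (16 * s) := by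
          field_simp
          ring
        rw [h4]
        exact h3)
    (s + 1) (fun _ => True) (fun T _ i _ ρ _ r _ => trivial)
  rw [pr_true (ker_isPr hV h0 h1 ρ), mul_one] at hsw
  refine le_trans (pr_ref hV h0 h1 ?_) hsw
  intro ρ' hρ' hbad
  refine ⟨?_, trivial⟩
  rintro ⟨n, hn, g', hg', hfg'⟩
  apply hbad
  refine ⟨g', hg'.mono (by omega), ?_⟩
  intro x hx
  rw [← propext (hfg' x hx)]
  apply propext
  rw [hL]
  apply exists_congr
  intro u
  rw [hfg u x (hρ'.wd hx)]

/-- The collapse of an alternating function to small decision trees. -/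
theorem collapse_alt [Nonempty X] (hV : ∀ i, (V i).Nonempty) {s : ℕ} (hs : 1 ≤ s) {p : I → ℝ}
    (h0 : ∀ i, 0 ≤ p i) (hp : ∀ i, p i * ((V i).card : ℝ) ^ 2 ≤ 1 / (16 * s))
    (ρ : I → Option X) (m : ℕ) : ∀ (k : ℕ) (e : Bool) (φ : List (List Bool) → (I → X) → Prop),
    (∀ us : List (List Bool), us.map List.length = List.replicate k m → HasF V s ρ (φ us)) →
    Pr (ker V (fun i => p i ^ k) ρ)
      (fun ρ' => ¬ HasF V s ρ' (fun x => Alt e k m (fun us => φ us x))) ≤
      (2 ^ m + 1 : ℝ) ^ k * (1 / 4 : ℝ) ^ (s + 1) := by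
  have hs0 : (0 : ℝ) < s := by exact_mod_cast hs
  have hs1 : (1 : ℝ) ≤ s := by exact_mod_cast hs
  have h1 : ∀ i, p i ≤ 1 := by
    intro i
    have hM : (1 : ℝ) ≤ (V i).card := by exact_mod_cast Finset.card_pos.2 (hV i)
    have h2 := mul_le_mul_of_nonneg_left (one_le_pow₀ hM (n := 2)) (h0 i)
    have h3 : 1 / (16 * (s : ℝ)) ≤ 1 := by
      rw [div_le_one (by positivity)]
      linarith
    linarith [hp i]
  intro k
  induction k with
  | zero =>
    intro e φ hφ
    have h2 : Pr (ker V (fun i => p i ^ 0) ρ)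
        (fun ρ' => ¬ HasF V s ρ' (fun x => Alt e 0 m (fun us => φ us x))) ≤
        Pr (ker V (fun i => p i ^ 0) ρ) (fun _ => False) := by
      apply pr_ref hV (fun i => by positivity) (fun i => by simp)
      intro ρ' hρ' hbad
      exact hbad ((hφ [] (by simp)).ref hρ')
    rw [pr_false] at h2
    exact h2.trans (by positivity)
  | succ k ih =>
    intro e φ hφ
    have hk0 : ∀ i, 0 ≤ p i ^ k := fun i => pow_nonneg (h0 i) k
    have hk1 : ∀ i, p i ^ k ≤ 1 := fun i => pow_le_one₀ (h0 i) (h1 i)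
    -- the inner functions
    let ψ : List.Vector Bool m → (I → X) → Prop := fun u x =>
      Alt (!e) k m (fun us => φ (u.1 :: us) x)
    have hinner : ∀ u : List.Vector Bool m, Pr (ker V (fun i => p i ^ k) ρ)
        (fun ρ' => ¬ HasF V s ρ' (ψ u)) ≤ (2 ^ m + 1 : ℝ) ^ k * (1 / 4 : ℝ) ^ (s + 1) := by
      intro u
      apply ih (!e) (fun us => φ (u.1 :: us))
      intro us hus
      apply hφ
      rw [List.map_cons, u.2, hus, List.replicate_succ]
    have hcomp : Pr (ker V (fun i => p i ^ (k + 1)) ρ)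
        (fun ρ' => ¬ HasF V s ρ' (fun x => Alt e (k + 1) m (fun us => φ us x))) =
        Ex (ker V (fun i => p i ^ k) ρ) (fun ρ1 => Pr (ker V p ρ1)
          (fun ρ' => ¬ HasF V s ρ' (fun x => Alt e (k + 1) m (fun us => φ us x)))) := by
      rw [pr_comp hV]
      rfl
    rw [hcomp]
    -- the outermost quantifier
    have hstep : ∀ ρ1, (∀ u, HasF V s ρ1 (ψ u)) → Pr (ker V p ρ1)
        (fun ρ' => ¬ HasF V s ρ' (fun x => Alt e (k + 1) m (fun us => φ us x))) ≤
        (1 / 4 : ℝ) ^ (s + 1) := by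
      intro ρ1 h2
      cases e with
      | true =>
        refine le_trans (pr_mono (ker_isPr hV h0 h1 ρ1) ?_)
          (switch_step hV hs h0 hp ρ1 ψ h2)
        intro ρ' hbad hgood
        apply hbad
        refine hgood.congr ?_
        intro x
        apply propext
        show (∃ u, ψ u x) ↔ ∃ u : List Bool, u.length = m ∧ Alt false k m (fun us => φ (u :: us) x)
        constructor
        · rintro ⟨u, hu⟩
          exact ⟨u.1, u.2, hu⟩
        · rintro ⟨u, hu, h3⟩
          exact ⟨⟨u, hu⟩, h3⟩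
      | false =>
        refine le_trans (pr_mono (ker_isPr hV h0 h1 ρ1) ?_)
          (switch_step hV hs h0 hp ρ1 (fun u x => ¬ ψ u x) (fun u => (h2 u).not))
        intro ρ' hbad hgood
        apply hbad
        refine hgood.not.congr ?_
        intro x
        apply propext
        show ¬ (∃ u, ¬ ψ u x) ↔
          ∀ u : List Bool, u.length = m → Alt true k m (fun us => φ (u :: us) x)
        rw [not_exists_not]
        constructor
        · intro h3 u hu
          exact h3 ⟨u, hu⟩
        · intro h3 u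
          exact h3 u.1 u.2
    have hμ := ker_isPr hV hk0 hk1 ρ
    calc Ex (ker V (fun i => p i ^ k) ρ) (fun ρ1 => Pr (ker V p ρ1)
          (fun ρ' => ¬ HasF V s ρ' (fun x => Alt e (k + 1) m (fun us => φ us x))))
        ≤ Ex (ker V (fun i => p i ^ k) ρ) (fun ρ1 => (1 / 4 : ℝ) ^ (s + 1) +
            ind (∃ u ∈ (Finset.univ : Finset (List.Vector Bool m)), ¬ HasF V s ρ1 (ψ u))) := by
          apply ex_mono hμ
          intro ρ1
          by_cases h2 : ∀ u, HasF V s ρ1 (ψ u)
          · have h3 := hstep ρ1 h2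
            have h4 := ind_nonneg
              (∃ u ∈ (Finset.univ : Finset (List.Vector Bool m)), ¬ HasF V s ρ1 (ψ u))
            linarith
          · push Not at h2
            obtain ⟨u, hu⟩ := h2
            rw [ind_true ⟨u, Finset.mem_univ u, hu⟩]
            have h3 := pr_le_one (ker_isPr hV h0 h1 ρ1)
              (fun ρ' => ¬ HasF V s ρ' (fun x => Alt e (k + 1) m (fun us => φ us x)))
            have h4 : (0 : ℝ) ≤ (1 / 4 : ℝ) ^ (s + 1) := by positivity
            linarith
      _ = (1 / 4 : ℝ) ^ (s + 1) + Pr (ker V (fun i => p i ^ k) ρ) (fun ρ1 =>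
            ∃ u ∈ (Finset.univ : Finset (List.Vector Bool m)), ¬ HasF V s ρ1 (ψ u)) := by
          rw [ex_add, ex_const hμ]
          rfl
      _ ≤ (1 / 4 : ℝ) ^ (s + 1) + (Finset.univ : Finset (List.Vector Bool m)).card *
            ((2 ^ m + 1 : ℝ) ^ k * (1 / 4 : ℝ) ^ (s + 1)) := by
          apply add_le_add le_rfl
          exact pr_exists_le hμ _ _ _ fun u _ => hinner u
      _ ≤ (2 ^ m + 1 : ℝ) ^ (k + 1) * (1 / 4 : ℝ) ^ (s + 1) := by
          rw [Finset.card_univ, card_vector, Fintype.card_bool]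
          push_cast
          have h2 : (1 : ℝ) ≤ (2 ^ m + 1 : ℝ) ^ k := by
            apply one_le_pow₀
            have : (0 : ℝ) ≤ 2 ^ m := by positivity
            linarith
          have h3 : (0 : ℝ) ≤ (1 / 4 : ℝ) ^ (s + 1) := by positivity
          have h4 : (2 ^ m + 1 : ℝ) ^ (k + 1) = 2 ^ m * (2 ^ m + 1 : ℝ) ^ k +
              (2 ^ m + 1 : ℝ) ^ k := by ring
          rw [h4]
          nlinarith

/-- the distribution of one block -/
theorem pr_block {R : Type} [Fintype R] {μ : I → R → ℝ} (hμ : IsPr μ) (i : I) (r : R) :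
    Pr μ (fun ρ => ρ i = r) = μ i r := by
  unfold Pr
  rw [ex_resample hμ i]
  have h1 : ∀ ρ : I → R, ∑ r', μ i r' * ind (Function.update ρ i r' i = r) = μ i r := by
    intro ρ
    rw [Finset.sum_eq_single r]
    · rw [Function.update_self, ind_true rfl, mul_one]
    · intro r' _ hr'
      rw [Function.update_self, ind_false hr', mul_zero]
    · intro h; exact absurd (Finset.mem_univ _) h
  simp only [h1]
  exact ex_const hμ _

/-- A function with a small decision tree becomes constant. -/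
theorem const_step (hV : ∀ i, (V i).Nonempty) {p : I → ℝ} (h0 : ∀ i, 0 ≤ p i)
    (h1 : ∀ i, p i ≤ 1) {pm : ℝ} (hpm0 : 0 ≤ pm) (hpm : ∀ i, p i ≤ pm) {n : ℕ}
    {g : (I → X) → β} (hg : DT n g) :
    ∀ ρ : I → Option X, Pr (ker V p ρ) (fun ρ' => ¬ Cst V ρ' g) ≤ n * pm := by
  induction hg with
  | const n b =>
    intro ρ
    have h2 : Pr (ker V p ρ) (fun ρ' => ¬ Cst V ρ' (fun _ : I → X => b)) ≤ 0 := by
      rw [← pr_false (ker V p ρ)]
      apply pr_mono (ker_isPr hV h0 h1 ρ)
      intro ρ' h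
      exact h ⟨b, fun _ _ => rfl⟩
    exact h2.trans (by positivity)
  | node n i g _ ih =>
    intro ρ
    have hμ := ker_isPr hV h0 h1 ρ
    have h2 : Pr (ker V p ρ) (fun ρ' => ¬ Cst V ρ' (fun x => g (x i) x)) ≤
        Pr (ker V p ρ) (fun ρ' => ρ' i = none ∨ ∃ a ∈ (Finset.univ : Finset X),
          ρ' i = some a ∧ ¬ Cst V ρ' (g a)) := by
      apply pr_mono hμ
      intro ρ' hbad
      cases hρ' : ρ' i with
      | none => exact Or.inl rfl
      | some a =>
        right
        refine ⟨a, Finset.mem_univ a, rfl, ?_⟩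
        rintro ⟨b, hb⟩
        apply hbad
        refine ⟨b, fun x hx => ?_⟩
        have h3 : x i ∈ Vs V i (ρ' i) := hx i
        rw [hρ'] at h3
        have h4 : x i = a := Finset.mem_singleton.1 h3
        show g (x i) x = b
        rw [h4]
        exact hb x hx
    have hnone : ker V p ρ i none ≤ pm := by
      cases hρ : ρ i with
      | none => rw [ker_star hρ]; exact hpm i
      | some b => rw [ker_fix_none hρ]; exact hpm0
    have hsum : ∑ a : X, ker V p ρ i (some a) ≤ 1 := by
      have h3 := hμ.sum i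
      rw [sum_option] at h3
      have h4 := hμ.nonneg i none
      linarith
    calc _ ≤ _ := h2
      _ ≤ Pr (ker V p ρ) (fun ρ' => ρ' i = none) + Pr (ker V p ρ) (fun ρ' =>
          ∃ a ∈ (Finset.univ : Finset X), ρ' i = some a ∧ ¬ Cst V ρ' (g a)) := pr_or hμ _ _
      _ ≤ ker V p ρ i none + ∑ a : X, ker V p ρ i (some a) * (n * pm) := by
          apply add_le_add (pr_block hμ i none).le
          refine (pr_exists hμ _ _).trans ?_
          apply Finset.sum_le_sum
          intro a _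
          rw [pr_fix hV h0 h1]
          exact mul_le_mul_of_nonneg_left (ih a _) (hμ.nonneg i _)
      _ = ker V p ρ i none + (∑ a : X, ker V p ρ i (some a)) * (n * pm) := by
          rw [Finset.sum_mul]
      _ ≤ pm + 1 * (n * pm) := by
          apply add_le_add hnone
          exact mul_le_mul_of_nonneg_right hsum (by positivity)
      _ = ((n + 1 : ℕ) : ℝ) * pm := by push_cast; ring

/-- Further refinement keeps small decision trees. -/
theorem has_further (hV : ∀ i, (V i).Nonempty) {p q : I → ℝ} (hp0 : ∀ i, 0 ≤ p i)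
    (hp1 : ∀ i, p i ≤ 1) (hq0 : ∀ i, 0 ≤ q i) (hq1 : ∀ i, q i ≤ 1) (ρ : I → Option X) {s : ℕ}
    (f : (I → X) → β) :
    Pr (ker V (fun i => p i * q i) ρ) (fun ρ' => ¬ HasF V s ρ' f) ≤
      Pr (ker V p ρ) (fun ρ' => ¬ HasF V s ρ' f) := by
  rw [← pr_comp hV]
  unfold Pr
  apply ex_mono (ker_isPr hV hp0 hp1 ρ)
  intro ρ1
  by_cases h : HasF V s ρ1 f
  · have h2 : Pr (ker V q ρ1) (fun ρ' => ¬ HasF V s ρ' f) ≤
        Pr (ker V q ρ1) (fun _ => False) := by
      apply pr_ref hV hq0 hq1
      intro ρ' hρ' hbad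
      exact hbad (h.ref hρ')
    rw [pr_false] at h2
    exact h2.trans (ind_nonneg _)
  · rw [ind_true h]
    exact pr_le_one (ker_isPr hV hq0 hq1 ρ1) _

/-- The collapse lemma: `G r` are small decision trees with values in `O`, and `Q x` are
alternating functions of small decision trees. With high probability, for almost all `r`, both
`G r` and the answer to the question `G r` are constant. -/
theorem collapse [Nonempty X] (hV : ∀ i, (V i).Nonempty) {s t m K : ℕ} (hs : 1 ≤ s) {p : I → ℝ}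
    (h0 : ∀ i, 0 ≤ p i) (hp : ∀ i, p i * ((V i).card : ℝ) ^ 2 ≤ 1 / (16 * s)) {pm : ℝ}
    (hpm0 : 0 ≤ pm) (hpm : ∀ i, p i ≤ pm) (ρ : I → Option X) {Ω O : Type} [Fintype Ω]
    (OF : Finset O) (G : Ω → (I → X) → O) (hG : ∀ r, HasF V t ρ (G r))
    (hGO : ∀ r, ∀ x ∈ Wd V ρ, G r x ∈ OF) (Q : O → (I → X) → Prop)
    (hQ : ∀ o ∈ OF, ∃ k ≤ K, ∃ m' ≤ m, ∃ φ : List (List Bool) → (I → X) → Prop,
      (∀ us : List (List Bool), us.map List.length = List.replicate k m' → HasF V s ρ (φ us)) ∧
      ∀ x, Q o x ↔ Alt true k m' (fun us => φ us x))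
    {c : ℝ} (hc : 0 ≤ c) :
    Pr (ker V (fun i => p i ^ (K + 1)) ρ) (fun ρ' =>
      (Fintype.card Ω : ℝ) < c * ((Finset.univ : Finset Ω).filter
        (fun r => ¬ (Cst V ρ' (G r) ∧ Cst V ρ' (fun x => Q (G r x) x)))).card) ≤
      OF.card * ((2 ^ m + 1 : ℝ) ^ K * (1 / 4 : ℝ) ^ (s + 1)) + c * ((t + s : ℕ) * pm) := by
  have hs0 : (0 : ℝ) < s := by exact_mod_cast hs
  have hs1 : (1 : ℝ) ≤ s := by exact_mod_cast hs
  have h1 : ∀ i, p i ≤ 1 := by
    intro i
    have hM : (1 : ℝ) ≤ (V i).card := by exact_mod_cast Finset.card_pos.2 (hV i)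
    have h2 := mul_le_mul_of_nonneg_left (one_le_pow₀ hM (n := 2)) (h0 i)
    have h3 : 1 / (16 * (s : ℝ)) ≤ 1 := by
      rw [div_le_one (by positivity)]
      linarith
    linarith [hp i]
  have hk0 : ∀ (k : ℕ) (i : I), 0 ≤ p i ^ k := fun k i => pow_nonneg (h0 i) k
  have hk1 : ∀ (k : ℕ) (i : I), p i ^ k ≤ 1 := fun k i => pow_le_one₀ (h0 i) (h1 i)
  have hμ := ker_isPr hV (hk0 K) (hk1 K) ρ
  -- the first `K` steps
  have hfirst : Pr (ker V (fun i => p i ^ K) ρ)
      (fun ρ1 => ∃ o ∈ OF, ¬ HasF V s ρ1 (Q o)) ≤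
      OF.card * ((2 ^ m + 1 : ℝ) ^ K * (1 / 4 : ℝ) ^ (s + 1)) := by
    apply pr_exists_le hμ
    intro o ho
    obtain ⟨k, hk, m', hm', φ, hφ, hQφ⟩ := hQ o ho
    have h2 := collapse_alt hV hs h0 hp ρ m' k true φ hφ
    have h3 : Pr (ker V (fun i => p i ^ K) ρ) (fun ρ1 => ¬ HasF V s ρ1 (Q o)) ≤
        Pr (ker V (fun i => p i ^ k) ρ) (fun ρ1 => ¬ HasF V s ρ1 (Q o)) := by
      have h4 : (fun i => p i ^ K) = fun i => p i ^ k * p i ^ (K - k) := by
        funext i
        rw [← pow_add]
        congr 1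
        omega
      rw [h4]
      exact has_further hV (hk0 k) (hk1 k) (hk0 _) (hk1 _) ρ (Q o)
    have h5 : Pr (ker V (fun i => p i ^ k) ρ) (fun ρ1 => ¬ HasF V s ρ1 (Q o)) =
        Pr (ker V (fun i => p i ^ k) ρ)
          (fun ρ' => ¬ HasF V s ρ' (fun x => Alt true k m' (fun us => φ us x))) := by
      have h6 : Q o = fun x => Alt true k m' (fun us => φ us x) :=
        funext fun x => propext (hQφ x)
      rw [h6]
    rw [h5] at h3
    refine h3.trans (h2.trans ?_)
    apply mul_le_mul_of_nonneg_right _ (by positivity)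
    have h7 : (2 ^ m' + 1 : ℝ) ≤ 2 ^ m + 1 := by
      have : (2 : ℝ) ^ m' ≤ 2 ^ m := pow_le_pow_right₀ (by norm_num) hm'
      linarith
    have h8 : (1 : ℝ) ≤ 2 ^ m + 1 := by
      have : (0 : ℝ) ≤ 2 ^ m := by positivity
      linarith
    calc (2 ^ m' + 1 : ℝ) ^ k ≤ (2 ^ m + 1 : ℝ) ^ k := pow_le_pow_left₀ (by positivity) h7 k
      _ ≤ (2 ^ m + 1 : ℝ) ^ K := pow_le_pow_right₀ h8 hk
  -- the last step
  let Bad : (I → Option X) → Ω → Prop := fun ρ' r =>
    ¬ (Cst V ρ' (G r) ∧ Cst V ρ' (fun x => Q (G r x) x))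
  have hlast : ∀ ρ1, Ref V ρ ρ1 → (∀ o ∈ OF, HasF V s ρ1 (Q o)) →
      Pr (ker V p ρ1) (fun ρ' => (Fintype.card Ω : ℝ) < c * ((Finset.univ : Finset Ω).filter
        (fun r => Bad ρ' r)).card) ≤ c * ((t + s : ℕ) * pm) := by
    intro ρ1 hρ1 h2
    have hμ1 := ker_isPr hV h0 h1 ρ1
    have hone : ∀ r : Ω, Pr (ker V p ρ1) (fun ρ' => Bad ρ' r) ≤ ((t + s : ℕ) : ℝ) * pm := by
      intro r
      obtain ⟨g, hg, hfg⟩ := hG r
      have hch : ∀ o : O, ∃ q : (I → X) → Prop, DT s q ∧ (o ∈ OF → ∀ x ∈ Wd V ρ1, Q o x = q x) := by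
        intro o
        by_cases ho : o ∈ OF
        · obtain ⟨q, hq, hq2⟩ := h2 o ho
          exact ⟨q, hq, fun _ => hq2⟩
        · exact ⟨fun _ => True, DT.const s True, fun h => absurd h ho⟩
      choose q hq1 hq2 using hch
      have htree : DT (t + s) (fun x => (g x, q (g x) x)) :=
        DT.bind hg (g := fun o x => (o, q o x)) fun o => (hq1 o).map (fun b => (o, b))
      refine le_trans (pr_ref hV h0 h1 ?_) (const_step hV h0 h1 hpm0 hpm htree ρ1)
      intro ρ' hρ' hbad hcst
      apply hbad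
      obtain ⟨⟨o, b⟩, hob⟩ := hcst
      have hx : ∀ x ∈ Wd V ρ', G r x = o ∧ Q (G r x) x = b := by
        intro x hx
        have hx1 := hρ'.wd hx
        have hx0 := hρ1.wd hx1
        have h3 := hob x hx
        rw [Prod.mk.injEq] at h3
        have h4 : G r x = g x := hfg x hx0
        refine ⟨h4.trans h3.1, ?_⟩
        rw [hq2 (G r x) (hGO r x hx0) x hx1, h4]
        exact h3.2
      exact ⟨⟨o, fun x hx' => (hx x hx').1⟩, ⟨b, fun x hx' => (hx x hx').2⟩⟩
    rcases Nat.eq_zero_or_pos (Fintype.card Ω) with hΩ | hΩ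
    · have h3 : Pr (ker V p ρ1) (fun ρ' => (Fintype.card Ω : ℝ) <
          c * ((Finset.univ : Finset Ω).filter (fun r => Bad ρ' r)).card) ≤ 0 := by
        rw [← pr_false (ker V p ρ1)]
        apply pr_mono hμ1
        intro ρ' h
        have h4 : ((Finset.univ : Finset Ω).filter (fun r => Bad ρ' r)).card = 0 := by
          have := Finset.card_filter_le (Finset.univ : Finset Ω) (fun r => Bad ρ' r)
          rw [Finset.card_univ, hΩ] at this
          omega
        rw [h4, hΩ] at h
        simp at h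
      exact h3.trans (by positivity)
    · have hΩ' : (0 : ℝ) < Fintype.card Ω := by exact_mod_cast hΩ
      have h3 : Pr (ker V p ρ1) (fun ρ' => (Fintype.card Ω : ℝ) <
          c * ((Finset.univ : Finset Ω).filter (fun r => Bad ρ' r)).card) ≤
          Ex (ker V p ρ1) (fun ρ' => (c / Fintype.card Ω) * ∑ r ∈ (Finset.univ : Finset Ω),
            ind (Bad ρ' r)) := by
        unfold Pr
        apply ex_mono hμ1
        intro ρ'
        have h4 : ∑ r ∈ (Finset.univ : Finset Ω), ind (Bad ρ' r) =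
            (((Finset.univ : Finset Ω).filter (fun r => Bad ρ' r)).card : ℝ) := by
          rw [Finset.card_filter]
          push_cast
          apply Finset.sum_congr rfl
          intro r _
          unfold ind
          congr
        rw [h4]
        by_cases h5 : (Fintype.card Ω : ℝ) <
          c * ((Finset.univ : Finset Ω).filter (fun r => Bad ρ' r)).card
        · rw [ind_true h5, div_mul_eq_mul_div, le_div_iff₀ hΩ', one_mul]
          exact h5.le
        · rw [ind_false h5]
          positivity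
      refine h3.trans ?_
      rw [ex_mul, ex_sum]
      have h6 : ∑ r ∈ (Finset.univ : Finset Ω), Ex (ker V p ρ1) (fun ρ' => ind (Bad ρ' r)) ≤
          ∑ r ∈ (Finset.univ : Finset Ω), (((t + s : ℕ) : ℝ) * pm) :=
        Finset.sum_le_sum fun r _ => hone r
      rw [Finset.sum_const, nsmul_eq_mul, Finset.card_univ] at h6
      calc c / Fintype.card Ω * _ ≤ c / Fintype.card Ω * (Fintype.card Ω *
            (((t + s : ℕ) : ℝ) * pm)) := mul_le_mul_of_nonneg_left h6 (by positivity)
        _ = _ := by field_simp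
  -- combine
  have hcomp : Pr (ker V (fun i => p i ^ (K + 1)) ρ) (fun ρ' =>
      (Fintype.card Ω : ℝ) < c * ((Finset.univ : Finset Ω).filter
        (fun r => Bad ρ' r)).card) =
      Ex (ker V (fun i => p i ^ K) ρ) (fun ρ1 => Pr (ker V p ρ1) (fun ρ' =>
      (Fintype.card Ω : ℝ) < c * ((Finset.univ : Finset Ω).filter
        (fun r => Bad ρ' r)).card)) := by
    rw [pr_comp hV]
    rfl
  show Pr (ker V (fun i => p i ^ (K + 1)) ρ) (fun ρ' =>
      (Fintype.card Ω : ℝ) < c * ((Finset.univ : Finset Ω).filter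
        (fun r => Bad ρ' r)).card) ≤ _
  rw [hcomp]
  calc Ex (ker V (fun i => p i ^ K) ρ) (fun ρ1 => Pr (ker V p ρ1) (fun ρ' =>
      (Fintype.card Ω : ℝ) < c * ((Finset.univ : Finset Ω).filter
        (fun r => Bad ρ' r)).card))
      ≤ Ex (ker V (fun i => p i ^ K) ρ) (fun ρ1 =>
          ind (∃ o ∈ OF, ¬ HasF V s ρ1 (Q o)) + c * ((t + s : ℕ) * pm)) := by
        apply ex_ref hV (hk0 K) (hk1 K)
        intro ρ1 hρ1
        by_cases h2 : ∃ o ∈ OF, ¬ HasF V s ρ1 (Q o)
        · rw [ind_true h2]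
          have h3 := pr_le_one (ker_isPr hV h0 h1 ρ1) (fun ρ' =>
            (Fintype.card Ω : ℝ) < c * ((Finset.univ : Finset Ω).filter
            (fun r => Bad ρ' r)).card)
          have h4 : 0 ≤ c * (((t + s : ℕ) : ℝ) * pm) := by positivity
          linarith
        · rw [ind_false h2, zero_add]
          push Not at h2
          exact hlast ρ1 hρ1 h2
    _ = Pr (ker V (fun i => p i ^ K) ρ) (fun ρ1 => ∃ o ∈ OF, ¬ HasF V s ρ1 (Q o)) +
          c * ((t + s : ℕ) * pm) := by
        rw [ex_add, ex_const hμ]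
        rfl
    _ ≤ _ := add_le_add hfirst le_rfl

end

end Pool.Agent.H59.Er
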