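import Pool.Agent.H59.Er.LBdef
import Pool.Agent.H59.Er.Col

set_option autoImplicit false
set_option linter.unusedSectionVars false

/-!
# The lower bound for trees with unique killers
-/

namespace Pool.Agent.H59.Er

open Finset Classical

noncomputable section

/-! ### Switching for the blocks of leaves -/

section switch

variable {B J : Type} [Fintype B] [Fintype J] [Nonempty J]

/-- the values of the leaves in a local world -/
def leaf (ω : B → Option J) (v : B × J) : Bool := decide (ω v.1 = some v.2)

/-- a small decision tree on the reduced worlds -/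
def GoodS (s : ℕ) (ρ : B → J ⊕ Finset J) (F : (B → Option J) → Prop) : Prop :=
  ∃ g : (B → Option J) → Prop, DT s g ∧ ∀ ω ∈ Wld (fun _ => lAs) ρ, F ω ↔ g ω

theorem lAs_subset (r : J ⊕ Finset J) : (lAs r : Set (Option J)) ⊆ lA r := by
  intro ω hω
  cases r with
  | inl κ =>
    have h1 : ω ∈ ({some κ} : Finset (Option J)) := hω
    rw [Finset.mem_singleton] at h1
    exact h1
  | inr S =>
    have h1 : ω ∈ (if h : S.Nonempty then ({none, some (pick S h)} : Finset (Option J))
      else {none}) := hω
    intro j hj
    by_cases h : S.Nonempty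
    · rw [dif_pos h, Finset.mem_insert, Finset.mem_singleton] at h1
      rcases h1 with h1 | h1
      · rw [h1] at hj; simp at hj
      · rw [h1, Option.some.injEq] at hj
        rw [← hj]
        exact h.choose_spec
    · rw [dif_neg h, Finset.mem_singleton] at h1
      rw [h1] at hj
      simp at hj

theorem lA_nonempty (r : J ⊕ Finset J) : (lA r).Nonempty := by
  cases r with
  | inl κ => exact ⟨some κ, rfl⟩
  | inr S =>
    refine ⟨none, ?_⟩
    intro j hj
    simp at hj

theorem lAs_card (r : J ⊕ Finset J) : ((lAs r).card : ℝ) ≤ 2 := by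
  have h : (lAs r).card ≤ 2 := by
    cases r with
    | inl κ =>
      show (({some κ} : Finset (Option J))).card ≤ 2
      rw [Finset.card_singleton]
      norm_num
    | inr S =>
      show (if h : S.Nonempty then ({none, some (pick S h)} : Finset (Option J))
        else {none}).card ≤ 2
      split_ifs with h
      · exact Finset.card_le_two
      · rw [Finset.card_singleton]; norm_num
  exact_mod_cast h

/-- the block term of a term in the leaf variables -/
def blockTerm (T : Term (B × J) Bool) : Term B (Option J) where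
  S := T.S.image Prod.fst
  P := fun v => {ω | ∀ j, (v, j) ∈ T.S → decide (ω = some j) ∈ T.P (v, j)}

theorem blockTerm_sat (T : Term (B × J) Bool) (ω : B → Option J) :
    (blockTerm T).Sat ω ↔ T.Sat (leaf ω) := by
  constructor
  · rintro h ⟨v, j⟩ hvj
    exact h v (Finset.mem_image.2 ⟨(v, j), hvj, rfl⟩) j hvj
  · intro h v _ j hvj
    exact h (v, j) hvj

theorem blockTerm_lit {s : ℕ} (T : Term (B × J) Bool) (h1 : T.S.card ≤ s)
    (h2 : ∀ i ∈ T.S, ∃ a, T.P i = {a}) (v : B) : LitProp s ((blockTerm T).P v) := by
  by_cases hpos : ∃ j, (v, j) ∈ T.S ∧ T.P (v, j) = {true}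
  · obtain ⟨c, hc, hcT⟩ := hpos
    right
    have hsub : (blockTerm T).P v ⊆ {some c} := by
      intro ω hω
      have h3 := hω c hc
      rw [hcT] at h3
      have h4 : decide (ω = some c) = true := h3
      rw [decide_eq_true_eq] at h4
      exact h4
    rcases Set.subset_singleton_iff_eq.1 hsub with h3 | h3
    · right; exact h3
    · left; exact ⟨c, h3⟩
  · left
    refine ⟨(T.S.filter (fun i => i.1 = v)).image Prod.snd, ?_, ?_⟩
    · exact Finset.card_image_le.trans ((Finset.card_filter_le _ _).trans h1)
    · ext ω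
      constructor
      · intro hω c hc
        rw [Finset.mem_image] at hc
        obtain ⟨⟨v', c'⟩, h3, h4⟩ := hc
        rw [Finset.mem_filter] at h3
        obtain ⟨h3, h5⟩ := h3
        have h5' : v' = v := h5
        have h4' : c' = c := h4
        subst h5'
        subst h4'
        have h6 := hω c' h3
        obtain ⟨a, ha⟩ := h2 _ h3
        cases a with
        | true => exact absurd ⟨c', h3, ha⟩ hpos
        | false =>
          rw [ha] at h6
          have h7 : decide (ω = some c') = false := h6
          rw [decide_eq_false_iff_not] at h7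
          exact h7
      · intro hω j hj
        have h3 : ω ≠ some j := by
          apply hω j
          rw [Finset.mem_image]
          exact ⟨(v, j), Finset.mem_filter.2 ⟨hj, rfl⟩, rfl⟩
        obtain ⟨a, ha⟩ := h2 _ hj
        cases a with
        | true => exact absurd ⟨j, hj, ha⟩ hpos
        | false =>
          rw [ha]
          show decide (ω = some j) = false
          rw [decide_eq_false_iff_not]
          exact h3

/-- numeric conditions for the restriction of the leaves -/
structure Num (J : Type) [Fintype J] (s : ℕ) (q β : ℝ) : Prop where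
  hs : 1 ≤ s
  hq0 : 0 ≤ q
  hq1 : q ≤ 1 / 2
  hβ0 : 0 ≤ β
  hβ : 128 * (s : ℝ) ^ 2 * β ≤ 1
  hqβ : 64 * s * q * β * Fintype.card J ≤ 1

theorem switch_leaf {s : ℕ} {q β : ℝ} (hn : Num J s q β) {ι : Type} [Fintype ι]
    (f : ι → (B × J → Bool) → Prop) (hf : ∀ u, DT s (f u)) :
    Pr (fun (_ : B) (r : J ⊕ Finset J) => lw q β r)
      (fun ρ => ¬ GoodS s ρ (fun ω => ∃ u, f u (leaf ω))) ≤ (1 / 4 : ℝ) ^ (s + 1) := by
  obtain ⟨hs, hq0, hq1, hβ0, hβ, hqβ⟩ := hn
  have hs0 : (0 : ℝ) < s := by exact_mod_cast hs
  have hs1 : (1 : ℝ) ≤ s := by exact_mod_cast hs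
  have hβ1 : β ≤ 1 / 2 := by nlinarith [mul_nonneg hβ0 (sub_nonneg.2 hs1)]
  choose F hF1 hF2 using fun u => DT.terms (hf u)
  let L : List (Term B (Option J)) :=
    (Finset.univ : Finset ι).toList.flatMap fun u => (F u).map blockTerm
  have hL : ∀ ω, Dnf L ω ↔ ∃ u, f u (leaf ω) := by
    intro ω
    rw [dnf_flatMap]
    simp only [Finset.mem_toList, Finset.mem_univ, true_and]
    apply exists_congr
    intro u
    rw [hF2 u (leaf ω)]
    unfold Dnf
    constructor
    · rintro ⟨T, hT, h⟩
      rw [List.mem_map] at hT
      obtain ⟨T', hT', rfl⟩ := hT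
      exact ⟨T', hT', (blockTerm_sat T' ω).1 h⟩
    · rintro ⟨T, hT, h⟩
      exact ⟨blockTerm T, List.mem_map.2 ⟨T, hT, rfl⟩, (blockTerm_sat T ω).2 h⟩
  have hμ : IsPr (fun (_ : B) (r : J ⊕ Finset J) => lw q β r) :=
    lw_isPr hq0 (by linarith) hβ0 (by linarith)
  have hsw := switching (μ := fun (_ : B) (r : J ⊕ Finset J) => lw q β r) (A := fun _ r => lA r)
    (As := fun _ => lAs) (K := fun _ => 2) (γ := 1 / (8 * s)) hμ
    (fun _ r => lAs_subset r) (fun _ r => lA_nonempty r) (fun _ => by norm_num)
    (fun _ r => lAs_card r) (by positivity) (α := 1 / 4) (by norm_num) (by norm_num) (w := s)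
    (by
      have h2 : 1 / (8 * (s : ℝ)) / (1 / 4) = 1 / (2 * (s : ℝ)) := by
        field_simp
        ring
      rw [h2]
      exact one_add_pow_le_two hs)
    L.length L le_rfl
    (by
      intro T hT
      rw [List.mem_flatMap] at hT
      obtain ⟨u, _, hT⟩ := hT
      rw [List.mem_map] at hT
      obtain ⟨T', hT', rfl⟩ := hT
      refine ⟨?_, fun i _ => ?_⟩
      · exact Finset.card_image_le.trans (hF1 u T' hT').1
      · apply localCond_lw hq0 hq1 hβ0 hβ1 (w := s) _ _ _ i
          (blockTerm_lit T' (hF1 u T' hT').1 (hF1 u T' hT').2 i)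
        · rw [le_div_iff₀ (by positivity)]
          nlinarith
        · rw [div_le_one (by positivity)]
          linarith
        · rw [le_div_iff₀ (by positivity)]
          nlinarith)
    (s + 1) (fun _ => True) (fun T _ i _ ρ _ r _ => trivial)
  rw [pr_true hμ, mul_one] at hsw
  refine le_trans (pr_mono hμ ?_) hsw
  intro ρ hbad
  refine ⟨?_, trivial⟩
  rintro ⟨n, hn, g', hg', hfg'⟩
  apply hbad
  refine ⟨g', hg'.mono (by omega), ?_⟩
  intro ω hω
  rw [← hfg' ω hω, hL]

/-- All innermost quantifiers are removed by one restriction. -/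
theorem switch_lv {s m : ℕ} {q β : ℝ} (hn : Num J s q β) : ∀ (k : ℕ) (e : Bool)
    (f : (B × J → Bool) → Prop), Lv m (fun F => DT s F) e (k + 1) f →
    Pr (fun (_ : B) (r : J ⊕ Finset J) => lw q β r)
      (fun ρ => ¬ Lv m (GoodS s ρ) e k (fun ω => f (leaf ω))) ≤
      (2 ^ m + 1 : ℝ) ^ k * (1 / 4 : ℝ) ^ (s + 1) := by
  have hμ : IsPr (fun (_ : B) (r : J ⊕ Finset J) => lw q β r) := by
    obtain ⟨hs, hq0, hq1, hβ0, hβ, hqβ⟩ := hn
    have hs1 : (1 : ℝ) ≤ s := by exact_mod_cast hs
    have hβ1 : β ≤ 1 / 2 := by nlinarith [mul_nonneg hβ0 (sub_nonneg.2 hs1)]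
    exact lw_isPr hq0 (by linarith) hβ0 (by linarith)
  intro k
  induction k with
  | zero =>
    intro e f hf
    rw [pow_zero, one_mul]
    cases e with
    | true =>
      obtain ⟨g, hg, hfg⟩ := hf
      refine le_trans (pr_mono hμ ?_) (switch_leaf hn g hg)
      intro ρ hbad hgood
      apply hbad
      obtain ⟨h, h1, h2⟩ := hgood
      exact ⟨h, h1, fun ω hω => (hfg _).trans (h2 ω hω)⟩
    | false =>
      obtain ⟨g, hg, hfg⟩ := hf
      refine le_trans (pr_mono hμ ?_) (switch_leaf hn (fun u x => ¬ g u x)
        (fun u => (show DT s (g u) from hg u).map Not))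
      intro ρ hbad hgood
      apply hbad
      obtain ⟨h, h1, h2⟩ := hgood
      refine ⟨fun ω => ¬ h ω, h1.map Not, fun ω hω => ?_⟩
      have h3 := h2 ω hω
      show f (leaf ω) ↔ ¬ h ω
      rw [hfg, ← h3, not_exists_not]
  | succ k ih =>
    intro e f hf
    have hcombine : ∀ (e' : Bool) (g : List.Vector Bool m → (B × J → Bool) → Prop),
        (∀ u, Lv m (fun F => DT s F) e' (k + 1) (g u)) →
        Pr (fun (_ : B) (r : J ⊕ Finset J) => lw q β r)
          (fun ρ => ∃ u ∈ (Finset.univ : Finset (List.Vector Bool m)),
            ¬ Lv m (GoodS s ρ) e' k (fun ω => g u (leaf ω))) ≤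
          (2 ^ m + 1 : ℝ) ^ (k + 1) * (1 / 4 : ℝ) ^ (s + 1) := by
      intro e' g hg
      refine (pr_exists_le hμ _ _ _ fun u _ => ih e' (g u) (hg u)).trans ?_
      rw [Finset.card_univ, card_vector, Fintype.card_bool]
      push_cast
      have h3 : (0 : ℝ) ≤ (1 / 4 : ℝ) ^ (s + 1) := by positivity
      have h4 : (0 : ℝ) ≤ (2 ^ m + 1 : ℝ) ^ k := by positivity
      have h5 : (2 ^ m + 1 : ℝ) ^ (k + 1) = 2 ^ m * (2 ^ m + 1 : ℝ) ^ k +
          (2 ^ m + 1 : ℝ) ^ k := by ring
      rw [h5]
      nlinarith [mul_nonneg h4 h3]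
    cases e with
    | true =>
      obtain ⟨g, hg, hfg⟩ := hf
      refine le_trans (pr_mono hμ ?_) (hcombine false g hg)
      intro ρ hbad
      by_contra hcon
      apply hbad
      push Not at hcon
      exact ⟨fun u ω => g u (leaf ω), fun u => hcon u (Finset.mem_univ u), fun ω => hfg _⟩
    | false =>
      obtain ⟨g, hg, hfg⟩ := hf
      refine le_trans (pr_mono hμ ?_) (hcombine true g hg)
      intro ρ hbad
      by_contra hcon
      apply hbad
      push Not at hcon
      exact ⟨fun u ω => g u (leaf ω), fun u => hcon u (Finset.mem_univ u), fun ω => hfg _⟩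

end switch

/-! ### The lower bound -/

/-- The lower bound: no function with `k` blocks of quantifiers in front of decision trees of depth
`s` computes the label of the alive child of the root of a tree of depth `k + 1`. -/
theorem hard {J H : Type} [Fintype J] [Fintype H] [Nonempty J] [Nonempty H] (lab : J → Bool)
    {s m : ℕ} {q β : ℝ} (hn : Num J s q β)
    (hlab : ∀ b, s < ((Finset.univ : Finset J).filter (fun j => lab j = b)).card) (K : ℕ)
    (hfail : (2 ^ m + 1 : ℝ) ^ K * (1 / 4 : ℝ) ^ (s + 1) +
      (Fintype.card (J × H) : ℝ) ^ K * ((1 - β) ^ Fintype.card J + (1 - q) ^ Fintype.card H) < 1) :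
    ∀ k ≤ K, ∀ (e : Bool) (f : (Path (J × H) k × J → Bool) → Prop),
      Lv m (fun F => DT s F) e k f → ∃ (x : Path (J × H) k × J → Bool) (b : Bool),
        TG (fun w : J × H => lab w.1) k lab x b ∧ ¬ (f x ↔ b = true) := by
  have hn' := hn
  obtain ⟨hs, hq0, hq1, hβ0, hβ, hqβ⟩ := hn'
  have hs1 : (1 : ℝ) ≤ s := by exact_mod_cast hs
  have hβ1 : β ≤ 1 / 2 := by nlinarith [mul_nonneg hβ0 (sub_nonneg.2 hs1)]
  intro k
  induction k with
  | zero =>
    intro _ e f hf
    have hdt : DT s f := by cases e <;> exact hf
    obtain ⟨S, hS, hc⟩ := hdt.cert (fun _ => false)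
    -- choose the label for which the answer is wrong
    obtain ⟨b, hb⟩ : ∃ b : Bool, ¬ (f (fun _ => false) ↔ b = true) := by
      by_cases h : f (fun _ => false)
      · exact ⟨false, by simp [h]⟩
      · exact ⟨true, by simp [h]⟩
    -- an unqueried leaf with this label
    obtain ⟨j0, hj0, hj0b⟩ : ∃ j0 : J, (∀ i ∈ S, i.2 ≠ j0) ∧ lab j0 = b := by
      by_contra hcon
      push Not at hcon
      have h1 : (Finset.univ : Finset J).filter (fun j => lab j = b) ⊆ S.image Prod.snd := by
        intro j hj
        rw [Finset.mem_filter] at hj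
        by_contra hj2
        apply hcon j _ hj.2
        intro i hi hij
        exact hj2 (Finset.mem_image.2 ⟨i, hi, hij⟩)
      have h2 := Finset.card_le_card h1
      have h3 : (S.image Prod.snd).card ≤ S.card := Finset.card_image_le
      have h4 := hlab b
      omega
    refine ⟨fun i => decide (i.2 = j0), b, ⟨j0, fun l j => by simp, hj0b⟩, ?_⟩
    have h5 : f (fun i => decide (i.2 = j0)) = f (fun _ => false) := by
      apply hc
      intro i hi
      simp [hj0 i hi]
    rw [h5]
    exact hb
  | succ k ih =>
    intro hk e f hf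
    -- the blocks
    let B := Path (J × H) k × (J × H)
    have hcardB : (Fintype.card B : ℝ) ≤ (Fintype.card (J × H) : ℝ) ^ K := by
      have h1 : Fintype.card B = Fintype.card (J × H) ^ (k + 1) := Path.card (J × H) (k + 1)
      rw [h1]
      push_cast
      apply pow_le_pow_right₀ _ hk
      have : 1 ≤ Fintype.card (J × H) := Fintype.card_pos
      exact_mod_cast this
    have hμ : IsPr (fun (_ : B) (r : J ⊕ Finset J) => lw q β r) :=
      lw_isPr hq0 (by linarith) hβ0 (by linarith)
    -- three bad events
    have hbad1 := switch_lv (B := B) (m := m) hn k e f hf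
    have hbad2 : Pr (fun (_ : B) (r : J ⊕ Finset J) => lw q β r)
        (fun ρ => ∃ v ∈ (Finset.univ : Finset B), ρ v = Sum.inr ∅) ≤
        Fintype.card B * (1 - β) ^ Fintype.card J := by
      have h1 := pr_exists_le hμ (Finset.univ : Finset B) (fun v ρ => ρ v = Sum.inr ∅)
        ((1 - β) ^ Fintype.card J) (by
          intro v _
          have h1 := pr_block hμ v (Sum.inr ∅)
          rw [h1]
          show q * bw β (∅ : Finset J) ≤ _
          unfold bw
          rw [Finset.card_empty, pow_zero, one_mul, Nat.sub_zero]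
          have h2 : (0 : ℝ) ≤ (1 - β) ^ Fintype.card J := pow_nonneg (by linarith) _
          nlinarith)
      rw [Finset.card_univ] at h1
      exact h1
    have hbad3 : Pr (fun (_ : B) (r : J ⊕ Finset J) => lw q β r)
        (fun ρ => ∃ a ∈ (Finset.univ : Finset (Path (J × H) k × J)),
          ∀ v ∈ (Finset.univ : Finset H).image (fun h => ((a.1, (a.2, h)) : B)),
            ¬ ∃ C, ρ v = Sum.inr C) ≤
        Fintype.card (Path (J × H) k × J) * (1 - q) ^ Fintype.card H := by
      have h1 := pr_exists_le hμ (Finset.univ : Finset (Path (J × H) k × J))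
        (fun a ρ => ∀ v ∈ (Finset.univ : Finset H).image (fun h => ((a.1, (a.2, h)) : B)),
            ¬ ∃ C, ρ v = Sum.inr C) ((1 - q) ^ Fintype.card H) (by
          intro a _
          rw [pr_forall hμ _ (fun _ r => ¬ ∃ C, r = Sum.inr C)]
          have h2 : ∑ r : J ⊕ Finset J, lw q β r * ind (¬ ∃ C, r = Sum.inr C) = 1 - q := by
            rw [Fintype.sum_sum_type]
            have h3 : ∀ κ : J, ind (¬ ∃ C : Finset J, (Sum.inl κ : J ⊕ Finset J) = Sum.inr C) = 1 :=
              fun κ => ind_true (by simp)
            have h4 : ∀ C' : Finset J,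
                ind (¬ ∃ C : Finset J, (Sum.inr C' : J ⊕ Finset J) = Sum.inr C) = 0 :=
              fun C' => ind_false (by simp)
            simp only [h3, h4, mul_one, mul_zero, Finset.sum_const_zero, add_zero]
            show ∑ _κ : J, (1 - q) / (Fintype.card J : ℝ) = 1 - q
            rw [Finset.sum_const, Finset.card_univ, nsmul_eq_mul]
            have : (Fintype.card J : ℝ) ≠ 0 := by exact_mod_cast Fintype.card_ne_zero
            field_simp
          rw [Finset.prod_const, h2, Finset.card_image_of_injective]
          · rw [Finset.card_univ]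
          · intro h h' hh
            have h5 := congrArg (fun z : B => z.2.2) hh
            exact h5)
      rw [Finset.card_univ] at h1
      exact h1
    -- choose a good restriction
    have hgood : ∃ ρ : B → J ⊕ Finset J, Lv m (GoodS s ρ) e k (fun ω => f (leaf ω)) ∧
        (∀ v, ρ v ≠ Sum.inr ∅) ∧
        ∀ (l : Path (J × H) k) (g : J), ∃ (h : H) (C : Finset J), ρ (l, (g, h)) = Sum.inr C := by
      by_contra hcon
      have h1 : (1 : ℝ) ≤ Pr (fun (_ : B) (r : J ⊕ Finset J) => lw q β r) (fun ρ =>
          ¬ Lv m (GoodS s ρ) e k (fun ω => f (leaf ω)) ∨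
          ((∃ v ∈ (Finset.univ : Finset B), ρ v = Sum.inr ∅) ∨
          ∃ a ∈ (Finset.univ : Finset (Path (J × H) k × J)),
          ∀ v ∈ (Finset.univ : Finset H).image (fun h => ((a.1, (a.2, h)) : B)),
            ¬ ∃ C, ρ v = Sum.inr C)) := by
        rw [← pr_true hμ]
        apply pr_mono hμ
        intro ρ _
        by_contra hcon2
        push Not at hcon2
        obtain ⟨h2, h3, h4⟩ := hcon2
        apply hcon
        refine ⟨ρ, h2, fun v => h3 v (Finset.mem_univ v), ?_⟩
        intro l g
        obtain ⟨v, hv, C, hC⟩ := h4 (l, g) (Finset.mem_univ _)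
        rw [Finset.mem_image] at hv
        obtain ⟨h, _, rfl⟩ := hv
        exact ⟨h, C, hC⟩
      have h2 := (pr_or hμ _ _).trans (add_le_add hbad1 ((pr_or hμ _ _).trans
        (add_le_add hbad2 hbad3)))
      have h3 : (2 ^ m + 1 : ℝ) ^ k * (1 / 4 : ℝ) ^ (s + 1) ≤
          (2 ^ m + 1 : ℝ) ^ K * (1 / 4 : ℝ) ^ (s + 1) := by
        apply mul_le_mul_of_nonneg_right _ (by positivity)
        apply pow_le_pow_right₀ _ (by omega)
        have : (0 : ℝ) ≤ 2 ^ m := by positivity
        linarith
      have h4 : (Fintype.card (Path (J × H) k × J) : ℝ) ≤ (Fintype.card (J × H) : ℝ) ^ K := by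
        refine le_trans ?_ hcardB
        have h5 : Fintype.card (Path (J × H) k × J) ≤ Fintype.card B := by
          rw [Fintype.card_prod]
          show Fintype.card (Path (J × H) k) * Fintype.card J ≤
            Fintype.card (Path (J × H) k × (J × H))
          rw [Fintype.card_prod, Fintype.card_prod]
          apply Nat.mul_le_mul_left
          exact Nat.le_mul_of_pos_right _ Fintype.card_pos
        exact_mod_cast h5
      have h5 : (0 : ℝ) ≤ (1 - β) ^ Fintype.card J := pow_nonneg (by linarith) _
      have h6 : (0 : ℝ) ≤ (1 - q) ^ Fintype.card H := pow_nonneg (by linarith) _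
      have h7 := mul_le_mul_of_nonneg_right hcardB h5
      have h8 := mul_le_mul_of_nonneg_right h4 h6
      have h9 := h1.trans h2
      linarith
    obtain ⟨ρ, hρ1, hρ2, hρ3⟩ := hgood
    choose h C hC using hρ3
    -- the killers
    let κ : B → J := fun v => match ρ v with
      | Sum.inl j => j
      | Sum.inr D => if hD : D.Nonempty then pick D hD else Classical.arbitrary J
    -- the statuses of the blocks given the values of the new leaves
    let z : (Path (J × H) k × J → Bool) → B → Bool := fun y v =>
      y (v.1, v.2.1) && decide (v.2.2 = h v.1 v.2.1)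
    let ωy : (Path (J × H) k × J → Bool) → B → Option J := fun y v =>
      if z y v = true then none else some (κ v)
    have hωy : ∀ y, ωy y ∈ Wld (fun _ => lAs) ρ := by
      intro y v
      show (if z y v = true then none else some (κ v)) ∈ lAs (ρ v)
      cases hρv : ρ v with
      | inl j =>
        have h1 : z y v ≠ true := by
          intro h2
          have h3 : (y (v.1, v.2.1) && decide (v.2.2 = h v.1 v.2.1)) = true := h2
          rw [Bool.and_eq_true, decide_eq_true_eq] at h3
          have h4 := hC v.1 v.2.1
          rw [← h3.2] at h4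
          have h5 : ρ v = Sum.inr (C v.1 v.2.1) := h4
          rw [hρv] at h5
          simp at h5
        rw [if_neg h1]
        have h2 : κ v = j := by
          show (match ρ v with
            | Sum.inl j => j
            | Sum.inr D => if hD : D.Nonempty then pick D hD else Classical.arbitrary J) = j
          rw [hρv]
        rw [h2]
        exact Finset.mem_singleton_self _
      | inr D =>
        have hD : D.Nonempty := by
          rw [Finset.nonempty_iff_ne_empty]
          rintro rfl
          exact hρ2 v hρv
        have h2 : κ v = pick D hD := by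
          show (match ρ v with
            | Sum.inl j => j
            | Sum.inr D => if hD : D.Nonempty then pick D hD else Classical.arbitrary J) = _
          rw [hρv]
          show (if hD : D.Nonempty then pick D hD else Classical.arbitrary J) = _
          rw [dif_pos hD]
        show _ ∈ (if h : D.Nonempty then ({none, some (pick D h)} : Finset (Option J)) else {none})
        rw [dif_pos hD]
        split_ifs with h1
        · exact Finset.mem_insert_self _ _
        · rw [h2]
          exact Finset.mem_insert_of_mem (Finset.mem_singleton_self _)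
    -- the new function
    have hnew : Lv m (fun F => DT s F) e k (fun y => f (leaf (ωy y))) := by
      apply Lv.comp (B := GoodS s ρ) ωy _ k e (fun ω => f (leaf ω)) hρ1
      rintro F ⟨g, hg, hFg⟩
      have h1 : (fun y => F (ωy y)) = fun y => g (ωy y) :=
        funext fun y => propext (hFg (ωy y) (hωy y))
      rw [h1]
      exact hg.subst ωy (fun v => ((v.1, v.2.1) : Path (J × H) k × J))
        (fun v c => if (c && decide (v.2.2 = h v.1 v.2.1)) = true then none else some (κ v))
        (fun y v => rfl)
    obtain ⟨y, b, hTG, hne⟩ := ih (by omega) e _ hnew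
    refine ⟨leaf (ωy y), b, ⟨z y, hTG.widen k h, κ, ?_⟩, hne⟩
    intro v j
    show decide ((if z y v = true then none else some (κ v)) = some j) = true ↔ _
    rw [decide_eq_true_eq]
    by_cases hz : z y v = true
    · rw [if_pos hz, hz]
      simp
    · rw [if_neg hz]
      rw [Bool.not_eq_true] at hz
      rw [hz]
      simp

end

end Pool.Agent.H59.Er
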