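import Mathlib
import Pool.Agent.H9.World
import Pool.Agent.H8.AUClass

set_option autoImplicit false
set_option linter.unusedSectionVars false

/-!
# Worlds of pointer trees and the oracles they define
-/

namespace Pool.Agent.H59.Er

open Pool.Agent.H9 Classical

/-- Nodes of the pointer trees: depth of the tree, name of the tree, reversed path. -/
abbrev Nd := ℕ × List Bool × List (List Bool)

/-- A world: the pointer of every node. -/
abbrev World := Nd → List Bool

/-- The path is alive if its last node is the one the parent points to and the parent is not
alive; the empty path is not alive. -/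
def alive (pt : List (List Bool) → List Bool) : List (List Bool) → Bool
  | [] => false
  | u :: ps => !alive pt ps && decide (pt ps = u)

/-- The word of the leaf with the blocks `us`, label `b`, of the tree with name `x`. -/
def lword (D : ℕ) (b : Bool) (x : List Bool) (us : List (List Bool)) : List Bool :=
  List.replicate D true ++ false :: b :: (x :: us).flatten.reverse

/-- The reversed path of the blocks `us` with label `b`. -/
def rpath (b : Bool) : List (List Bool) → List (List Bool)
  | [] => []
  | u :: us => us.reverse ++ [b :: u]

/-- The bit of the oracle at a leaf word. -/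
noncomputable def leafb (W : World) (w : List Bool) : Bool :=
  decide (∃ (D : ℕ) (b : Bool) (x : List Bool) (us : List (List Bool)),
    us.map List.length = List.replicate D x.length ∧ w = lword D b x us ∧
    alive (fun ps => W (D, x, ps)) (rpath b us) = true)

/-- The oracle with the leaf bits of `W` and the further oracle `κ`. -/
noncomputable def comb (W : World) (κ : Oracle) : Oracle
  | [] => false
  | false :: w => leafb W w
  | true :: w => κ w

/-- Proper reversed paths: the first block has `n + 1` bits, the others `n`. -/
def okp (n : ℕ) : List (List Bool) → Prop
  | [] => True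
  | u :: ps => u.length = (if ps = [] then n + 1 else n) ∧ okp n ps

/-- All pointers have the proper length. -/
def LenOk (W : World) : Prop :=
  ∀ v : Nd, (W v).length = if v.2.2 = [] then v.2.1.length + 1 else v.2.1.length

/-- The language of level `D`: the label of the pointer of the root is `b`. -/
def Lg (W : World) (D : ℕ) (b : Bool) : Set (List Bool) := {x | (W (D, x, [])).head? = some b}

theorem lword_length {D : ℕ} {b : Bool} {x : List Bool} {us : List (List Bool)}
    (h : us.map List.length = List.replicate D x.length) :
    (lword D b x us).length = D + 2 + (D + 1) * x.length := by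
  unfold lword
  rw [List.length_append, List.length_replicate, List.length_cons, List.length_cons,
    List.length_reverse, List.length_flatten, List.map_cons, List.sum_cons, h,
    List.sum_replicate, smul_eq_mul]
  ring

theorem lword_inj {D D' : ℕ} {b b' : Bool} {x x' : List Bool} {us us' : List (List Bool)}
    (h : us.map List.length = List.replicate D x.length)
    (h' : us'.map List.length = List.replicate D' x'.length)
    (hw : lword D b x us = lword D' b' x' us') : D = D' ∧ b = b' ∧ x = x' ∧ us = us' := by
  have hl := congrArg List.length hw
  rw [lword_length h, lword_length h'] at hl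
  unfold lword at hw
  obtain ⟨h1, h2⟩ := replicate_append_false_inj hw
  subst h1
  rw [List.cons.injEq] at h2
  obtain ⟨h2, h3⟩ := h2
  have hn : x.length = x'.length := by
    have : (D + 1) * x.length = (D + 1) * x'.length := by omega
    exact Nat.eq_of_mul_eq_mul_left (Nat.succ_pos D) this
  have h4 : (x :: us).flatten = (x' :: us').flatten := List.reverse_injective h3
  have h5 : (x :: us) = (x' :: us') := by
    rw [List.eq_iff_flatten_eq]
    refine ⟨h4, ?_⟩
    rw [List.map_cons, List.map_cons, h, h', hn]
  rw [List.cons.injEq] at h5
  exact ⟨rfl, h2, h5.1, h5.2⟩

theorem leafb_lword (W : World) {D : ℕ} {b : Bool} {x : List Bool} {us : List (List Bool)}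
    (h : us.map List.length = List.replicate D x.length) :
    leafb W (lword D b x us) = alive (fun ps => W (D, x, ps)) (rpath b us) := by
  unfold leafb
  rw [Bool.eq_iff_iff, decide_eq_true_eq]
  constructor
  · rintro ⟨D', b', x', us', h1, h2, h3⟩
    obtain ⟨rfl, rfl, rfl, rfl⟩ := lword_inj h h1 h2
    exact h3
  · intro h3
    exact ⟨D, b, x, us, h, rfl, h3⟩

theorem okp_rpath {n D : ℕ} {b : Bool} {us : List (List Bool)}
    (h : us.map List.length = List.replicate D n) :
    okp n (rpath b us) ∧ (rpath b us).length = D := by
  cases us with
  | nil =>
    have := congrArg List.length h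
    simp only [List.map_nil, List.length_nil, List.length_replicate] at this
    exact ⟨trivial, this⟩
  | cons u us =>
    have hD := congrArg List.length h
    simp only [List.map_cons, List.length_cons, List.length_map, List.length_replicate] at hD
    have hall : ∀ v ∈ u :: us, v.length = n := by
      intro v hv
      have h1 : v.length ∈ (u :: us).map List.length := List.mem_map.2 ⟨v, hv, rfl⟩
      rw [h] at h1
      exact List.eq_of_mem_replicate h1
    constructor
    · show okp n (us.reverse ++ [b :: u])
      have hrev : ∀ v ∈ us.reverse, v.length = n := by
        intro v hv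
        exact hall v (List.mem_cons_of_mem _ (List.mem_reverse.1 hv))
      have key : ∀ l : List (List Bool), (∀ v ∈ l, v.length = n) → okp n (l ++ [b :: u]) := by
        intro l
        induction l with
        | nil =>
          intro _
          refine ⟨?_, trivial⟩
          simp [hall u List.mem_cons_self]
        | cons v l ih =>
          intro hl
          refine ⟨?_, ih fun w hw => hl w (List.mem_cons_of_mem _ hw)⟩
          rw [if_neg (by simp)]
          exact hl v List.mem_cons_self
      exact key _ hrev
    · show (us.reverse ++ [b :: u]).length = D
      rw [List.length_append, List.length_reverse, List.length_singleton, hD]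

/-- A leaf bit is constant or the value of `alive` at a fixed path. -/
theorem leafb_cases (w : List Bool) : (∀ W, leafb W w = false) ∨
    ∃ (D : ℕ) (x : List Bool) (ps : List (List Bool)), x.length + 2 ≤ w.length ∧ ps.length = D ∧
      okp x.length ps ∧ ∀ W, leafb W w = alive (fun ps => W (D, x, ps)) ps := by
  by_cases h : ∃ (D : ℕ) (b : Bool) (x : List Bool) (us : List (List Bool)),
      us.map List.length = List.replicate D x.length ∧ w = lword D b x us
  · right
    obtain ⟨D, b, x, us, h1, rfl⟩ := h
    obtain ⟨h2, h3⟩ := okp_rpath (b := b) h1
    refine ⟨D, x, rpath b us, ?_, h3, h2, fun W => leafb_lword W h1⟩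
    rw [lword_length h1]
    nlinarith [Nat.zero_le (D * x.length)]
  · left
    intro W
    unfold leafb
    rw [decide_eq_false_iff_not]
    rintro ⟨D, b, x, us, h1, h2, _⟩
    exact h ⟨D, b, x, us, h1, h2⟩

theorem alive_congr {pt pt' : List (List Bool) → List Bool} : ∀ ps : List (List Bool),
    (∀ qs : List (List Bool), qs.length < ps.length → pt qs = pt' qs) →
    alive pt ps = alive pt' ps := by
  intro ps
  induction ps with
  | nil => intro _; rfl
  | cons u ps ih =>
    intro h
    show (!alive pt ps && decide (pt ps = u)) = (!alive pt' ps && decide (pt' ps = u))
    rw [ih fun qs hqs => h qs (by rw [List.length_cons]; omega), h ps (by simp)]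

theorem comb_congr {W W' : World} {κ κ' : Oracle} {L : ℕ}
    (hW : ∀ v : Nd, v.2.1.length < L → W v = W' v) (hκ : ∀ w : List Bool, w.length < L → κ w = κ' w)
    (w : List Bool) (hw : w.length ≤ L) : comb W κ w = comb W' κ' w := by
  match w with
  | [] => rfl
  | true :: w => exact hκ w (by simpa using hw)
  | false :: w =>
    show leafb W w = leafb W' w
    rcases leafb_cases w with h | ⟨D, x, ps, h1, _, _, h4⟩
    · rw [h, h]
    · rw [h4, h4]
      have hx : x.length < L := by
        rw [List.length_cons] at hw
        omega
      apply alive_congr
      intro qs _
      exact hW (D, x, qs) hx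

end Pool.Agent.H59.Er
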