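import Mathlib
import Pool.Agent.H59.Er.World

set_option autoImplicit false
set_option linter.unusedSectionVars false

/-!
# The errorless solver

At the number `N` the solver knows for every node a set of possible pointers. It answers a
question if the answer is the same in all worlds that it considers possible.
-/

namespace Pool.Agent.H59.Er

open Pool.Agent.H9 Classical

/-- The sets of possible pointers of all nodes at all numbers. -/
abbrev Tb := Nd → ℕ → Set (List Bool)

/-- The worlds that are possible at the number `N`. -/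
def wd (T : Tb) (N : ℕ) : Set World := {W | ∀ v, W v ∈ T v N}

/-- The solver predicate. -/
def KS (g : ℕ → Qn) (T : Tb) (κ : Oracle) (w : List Bool) : Prop :=
  ∃ (b : Bool) (e : ℕ) (x : List Bool) (N : ℕ), w = b :: code e x N ∧
    ((g e).bnd x.length + 2) ^ 2 ≤ N ∧ ∀ W ∈ wd T N, ((g e).ans (comb W κ) x ↔ b = true)

/-- The operator whose fixpoint is the solver. -/
noncomputable def kop (g : ℕ → Qn) (T : Tb) (κ : Oracle) : Oracle := fun w => decide (KS g T κ w)

/-- The solver. -/
noncomputable def kap (g : ℕ → Qn) (T : Tb) : Oracle := fixO (kop g T)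

/-- The worlds possible at `N` for `T` are possible for `T'`, up to irrelevant nodes. -/
def EqAt (N : ℕ) (T T' : Tb) : Prop :=
  ∀ W ∈ wd T N, ∃ W' ∈ wd T' N, ∀ v : Nd, (v.2.1.length + 2) ^ 2 ≤ N → W v = W' v

theorem ans_comb_congr {q : Qn} {W W' : World} {κ κ' : Oracle} {x : List Bool} {N : ℕ}
    (hN : (q.bnd x.length + 2) ^ 2 ≤ N)
    (hW : ∀ v : Nd, (v.2.1.length + 2) ^ 2 ≤ N → W v = W' v)
    (hκ : ∀ w : List Bool, (w.length + 2) ^ 2 ≤ N → κ w = κ' w) :
    q.ans (comb W κ) x ↔ q.ans (comb W' κ') x := by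
  apply Qn.ans_congr
  intro v hv
  refine comb_congr (L := q.bnd x.length) ?_ ?_ v hv
  · intro v hv
    exact hW v ((Nat.pow_le_pow_left (by omega) 2).trans hN)
  · intro w hw
    exact hκ w ((Nat.pow_le_pow_left (by omega) 2).trans hN)

theorem kop_contr (g : ℕ → Qn) (T : Tb) : Contr (kop g T) := by
  intro κ κ' w h
  unfold kop
  apply decide_eq_decide.2
  unfold KS
  apply exists_congr; intro b
  apply exists_congr; intro e
  apply exists_congr; intro x
  apply exists_congr; intro N
  apply and_congr_right; intro hw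
  apply and_congr_right; intro hN
  apply forall_congr'; intro W
  apply imp_congr_right; intro _
  rw [ans_comb_congr (W' := W) (κ' := κ') hN (fun _ _ => rfl)]
  intro v hv
  apply h
  rw [hw, List.length_cons, code_length]
  nlinarith

theorem kap_iff (g : ℕ → Qn) (T : Tb) (w : List Bool) :
    kap g T w = true ↔ KS g T (kap g T) w := by
  unfold kap
  conv_lhs => rw [← fixO_eq (kop_contr g T)]
  exact decide_eq_true_iff

theorem kap_code (g : ℕ → Qn) (T : Tb) (b : Bool) (e : ℕ) (x : List Bool) (N : ℕ) :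
    kap g T (b :: code e x N) = true ↔ ((g e).bnd x.length + 2) ^ 2 ≤ N ∧
      ∀ W ∈ wd T N, ((g e).ans (comb W (kap g T)) x ↔ b = true) := by
  rw [kap_iff]
  constructor
  · rintro ⟨b', e', x', N', h, h1, h2⟩
    rw [List.cons.injEq] at h
    obtain ⟨rfl, h⟩ := h
    obtain ⟨rfl, rfl, rfl⟩ := code_inj h
    exact ⟨h1, h2⟩
  · rintro ⟨h1, h2⟩
    exact ⟨b, e, x, N, rfl, h1, h2⟩

theorem kap_congr {g : ℕ → Qn} {T T' : Tb} {M : ℕ} (h : ∀ N < M, EqAt N T T' ∧ EqAt N T' T) :
    ∀ (l : ℕ) (w : List Bool), w.length ≤ l → w.length ≤ M → kap g T w = kap g T' w := by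
  have key : ∀ (T T' : Tb), (∀ N < M, EqAt N T T' ∧ EqAt N T' T) → ∀ (l : ℕ),
      (∀ v : List Bool, v.length < l → v.length ≤ M → kap g T v = kap g T' v) →
      ∀ w : List Bool, w.length ≤ l → w.length ≤ M → kap g T w = true → kap g T' w = true := by
    intro T T' h l ih w hl hM hw
    rw [kap_iff] at hw ⊢
    obtain ⟨b, e, x, N, rfl, h1, h2⟩ := hw
    rw [List.length_cons, code_length] at hl hM
    refine ⟨b, e, x, N, rfl, h1, ?_⟩
    intro W' hW'
    obtain ⟨W, hW, hWW⟩ := (h N (by omega)).2 W' hW'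
    rw [← h2 W hW]
    apply ans_comb_congr h1 hWW
    intro v hv
    have hvN : v.length < N := by nlinarith
    exact (ih v (by omega) (by omega)).symm
  intro l
  induction l with
  | zero =>
    intro w hl hM
    rw [Bool.eq_iff_iff]
    exact ⟨key T T' h 0 (fun v hv => by omega) w hl hM,
      key T' T (fun N hN => (h N hN).symm) 0 (fun v hv => by omega) w hl hM⟩
  | succ l ih =>
    intro w hl hM
    rw [Bool.eq_iff_iff]
    exact ⟨key T T' h (l + 1) (fun v hv hv' => ih v (by omega) hv') w hl hM,
      key T' T (fun N hN => (h N hN).symm) (l + 1)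
        (fun v hv hv' => (ih v (by omega) hv').symm) w hl hM⟩

/-- A table of possible pointers with a real world. -/
structure Tbl where
  /-- the possible pointers -/
  A : Tb
  /-- the real pointers -/
  W : World
  mem : ∀ v N, W v ∈ A v N
  len : LenOk W

/-- The oracle of a table. -/
noncomputable def orc (g : ℕ → Qn) (T : Tbl) : Oracle := comb T.W (kap g T.A)

theorem eqAt_of {N : ℕ} {T T' : Tb} (h : ∀ v : Nd, (v.2.1.length + 2) ^ 2 ≤ N → T v N = T' v N)
    (hne : ∀ v, (T' v N).Nonempty) : EqAt N T T' := by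
  intro W hW
  refine ⟨fun v => if (v.2.1.length + 2) ^ 2 ≤ N then W v else (hne v).some, ?_, ?_⟩
  · intro v
    show (if (v.2.1.length + 2) ^ 2 ≤ N then W v else (hne v).some) ∈ T' v N
    split_ifs with hv
    · rw [← h v hv]
      exact hW v
    · exact (hne v).some_mem
  · intro v hv
    show W v = if (v.2.1.length + 2) ^ 2 ≤ N then W v else (hne v).some
    rw [if_pos hv]

/-- The solver never errs. -/
theorem orc_sound (g : ℕ → Qn) (T : Tbl) {b : Bool} {e : ℕ} {x : List Bool} {N : ℕ}
    (h : orc g T (true :: b :: code e x N) = true) : (g e).ans (orc g T) x ↔ b = true := by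
  have h1 : kap g T.A (b :: code e x N) = true := h
  rw [kap_code] at h1
  exact h1.2 T.W fun v => T.mem v N

/-- Words of length at most `M` depend only on the table below `M`. -/
theorem orc_congr {g : ℕ → Qn} {T T' : Tbl} {M : ℕ}
    (h : ∀ v : Nd, v.2.1.length < M → T.W v = T'.W v ∧ T.A v = T'.A v) (w : List Bool)
    (hw : w.length ≤ M) : orc g T w = orc g T' w := by
  refine comb_congr (L := M) (fun v hv => (h v hv).1) ?_ w hw
  intro v hv
  refine kap_congr (M := M) ?_ v.length v le_rfl hv.le
  intro N hN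
  have key : ∀ v : Nd, (v.2.1.length + 2) ^ 2 ≤ N → v.2.1.length < M := by
    intro v hv
    nlinarith
  exact ⟨eqAt_of (fun v hv => by rw [(h v (key v hv)).2]) fun v => ⟨_, T'.mem v N⟩,
    eqAt_of (fun v hv => by rw [(h v (key v hv)).2]) fun v => ⟨_, T.mem v N⟩⟩

end Pool.Agent.H59.Er
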