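import Mathlib
import Pool.Agent.H59.Er.Solver
import Pool.Agent.H59.Er.Col
import Pool.Agent.H59.Er.LB
import Pool.Agent.H9.AvgDiag

set_option autoImplicit false
set_option linter.unusedSectionVars false

/-!
# One stage: definitions
-/

namespace Pool.Agent.H59.Er

open Pool.Agent.H9 Classical

/-- The sizes of the alphabets: `alph c J lm 0` for the leaves, `alph c J lm (k + 1)` for the
roots; `c = (K, E)`. -/
def alph (K E J lm : ℕ) : ℕ → ℕ
  | 0 => 7 + 3 * (lm * 2 ^ (J + 1))
  | r + 1 => 2 * (7 + 3 * (lm * 2 ^ (J + 1))) +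
      (K + 1) * (2 * J * alph K E J lm r + E * (lm * 2 ^ (J + 1))) + 3 * lm

/-- Parameters of a stage: level `k`, bound `K` for the number of blocks, number `s` of
heuristics, logarithm `lm` of the length, number `J` of scales, old table. -/
structure Sg where
  /-- level -/
  k : ℕ
  /-- bound for the number of blocks -/
  K : ℕ
  /-- number of heuristics -/
  s : ℕ
  /-- logarithm of the length -/
  lm : ℕ
  /-- number of scales -/
  J : ℕ
  /-- old table -/
  T0 : Tbl

namespace Sg

/-- The length of the inputs of the stage. -/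
def n (S : Sg) : ℕ := 2 ^ S.lm

/-- The thresholds of the scales. -/
def thr (S : Sg) (i : ℕ) : ℕ := 2 ^ (S.lm * 2 ^ i)

/-- The scale of a number. -/
def sc (S : Sg) (N : ℕ) : ℕ := Nat.findGreatest (fun i => S.thr i ≤ N) N

/-- Logarithm of the last threshold. -/
def sg (S : Sg) : ℕ := S.lm * 2 ^ (S.J + 1)

/-- The number of bits of half a name. -/
def jj (S : Sg) : ℕ := 7 + 3 * S.sg

/-- The exponent of the rates. -/
def E (S : Sg) : ℕ := 12 + 2 * S.s

/-- The sizes of the alphabets. -/
def al (S : Sg) (r : ℕ) : ℕ := alph S.K S.E S.J S.lm r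

/-- The length of the pointer of a node. -/
def len (S : Sg) (ps : List (List Bool)) : ℕ := if ps = [] then S.n + 1 else S.n

/-- The proper reversed paths of length `i`. -/
noncomputable def Ps (S : Sg) : ℕ → Finset (List (List Bool))
  | 0 => {[]}
  | i + 1 => (S.Ps i).biUnion fun ps => (strings (S.len ps)).image fun u => u :: ps

/-- The active nodes. -/
noncomputable def U (S : Sg) : Finset Nd :=
  (strings S.n ×ˢ (Finset.range (S.k + 1)).biUnion S.Ps).image fun z => (S.k + 1, z.1, z.2)

/-- The type of the active nodes. -/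
abbrev I (S : Sg) : Type := {v : Nd // v ∈ S.U}

/-- The type of the pointers. -/
abbrev X (S : Sg) : Type := {u : List Bool // u ∈ strings S.n ∪ strings (S.n + 1)}

/-- The number of free bits of the pointer of a node. -/
def aV (S : Sg) (v : Nd) : ℕ := S.al (S.k - v.2.2.length)

/-- The alphabet of a node. -/
noncomputable def V (S : Sg) (v : S.I) : Finset S.X :=
  Finset.univ.filter fun a => ∃ pre : List Bool, pre.length = S.aV v.1 ∧
    a.1 = pre ++ List.replicate (S.len v.1.2.2 - S.aV v.1) false

/-- The default pointer. -/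
def dfl (v : Nd) : List Bool :=
  List.replicate (if v.2.2 = [] then v.2.1.length + 1 else v.2.1.length) false

/-- The world given by the pointers of the active nodes. -/
noncomputable def emb (S : Sg) (x : S.I → S.X) : World := fun v =>
  if h : v ∈ S.U then (x ⟨v, h⟩).1 else if v.2.1.length < S.n then S.T0.W v else dfl v

/-- Chains of partial assignments. -/
abbrev Ch (S : Sg) : Type := ℕ → S.I → Option S.X

/-- The table given by a chain. -/
noncomputable def tab (S : Sg) (ch : S.Ch) : Tb := fun v N =>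
  if h : v ∈ S.U then {u | ∃ a ∈ Vs S.V ⟨v, h⟩ (ch (S.sc N) ⟨v, h⟩), a.1 = u}
  else if v.2.1.length < S.n then S.T0.A v N else {dfl v}

/-- Standing numerical assumptions. -/
structure Ok (S : Sg) : Prop where
  big : S.k + S.K + S.s + 20 ≤ S.lm
  alp : S.al (S.k + 1) ≤ S.n

/-- The rate of a node at scale `i`. -/
noncomputable def p (S : Sg) (i : ℕ) (v : S.I) : ℝ :=
  (1 / 2 : ℝ) ^ (2 * S.aV v.1 + S.E * (S.lm * 2 ^ i))

/-- The rate of all later scales. -/
noncomputable def Q (S : Sg) (i : ℕ) (v : S.I) : ℝ :=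
  ∏ j ∈ Finset.Ico (i + 1) (S.J + 1), S.p j v ^ (S.K + 1)

/-- The result of a sampled question is determined. -/
def Det (S : Sg) (g : ℕ → Qn) (h : Hr) (κ : Oracle) (ρ : S.I → Option S.X) (n : ℕ)
    (r : List Bool) : Prop :=
  Cst S.V ρ (fun x => h.str (comb (S.emb x) κ) n r) ∧
    Cst S.V ρ (fun x => (g h.1).ans (comb (S.emb x) κ) (h.str (comb (S.emb x) κ) n r))

/-- Almost all questions of scale `i` are determined. -/
def Lv (S : Sg) (g : ℕ → Qn) (hs : ℕ → Hr) (κ : Oracle) (ρ : S.I → Option S.X) (i : ℕ) : Prop :=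
  ∀ j < S.s, (hs j).ok g → ∀ n l : ℕ, S.sc ((hs j).N (n + l)) = i →
    (hs j).N (n + l) ^ S.s * ((strings ((hs j).m n)).filter
      (fun r => ¬ S.Det g (hs j) κ ρ n r)).card ≤ 2 ^ ((hs j).m n)

/-- Enough stars: some root is a star, and below every node of depth less than `k` there is for
every name `w` of `2 jj` bits a star whose last block is an admissible pointer starting with
`w`. -/
def Star (S : Sg) (ρ : S.I → Option S.X) : Prop :=
  (∃ (y : List Bool) (h : (S.k + 1, y, []) ∈ S.U), ρ ⟨(S.k + 1, y, []), h⟩ = none) ∧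
  ∀ v : S.I, v.1.2.2.length < S.k → ∀ w : List Bool, w.length = 2 * S.jj →
    ∃ τ : List Bool, w.length + τ.length = S.aV v.1 ∧
      ∃ h : (S.k + 1, v.1.2.1, (w ++ τ ++ List.replicate (S.len v.1.2.2 - S.aV v.1) false) ::
        v.1.2.2) ∈ S.U, ρ ⟨_, h⟩ = none

end Sg

/-- A partial table: all sets of allowed pointers are trivial from `m` on. -/
structure Stt where
  /-- the table -/
  T : Tbl
  /-- the length below which the table is fixed -/
  n : ℕ
  /-- the first number at which everything is known -/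
  m : ℕ
  coh : ∀ v N, m ≤ N → T.A v N = {T.W v}

/-- The heuristic gets no answer from the oracle. -/
def Unk (h : Hr) (A : Oracle) (n l : ℕ) (r : List Bool) : Prop :=
  ∀ b : Bool, A (true :: b :: code h.1 (h.str A n r) (h.N (n + l))) ≠ true

/-- The first `s` heuristics rarely get no answer, for numbers between `a` and `b`. -/
def GoodE (g : ℕ → Qn) (hs : ℕ → Hr) (s a b : ℕ) (A : Oracle) : Prop :=
  ∀ i < s, (hs i).ok g → ∀ n l : ℕ, a ≤ (hs i).N (n + l) → (hs i).N (n + l) < b →
    (hs i).N (n + l) ^ s * ((strings ((hs i).m n)).filter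
      (fun r => Unk (hs i) A n l r)).card ≤ 2 ^ ((hs i).m n)

/-- The machine `r` does not decide the diagonal language. -/
def FailsE (FT : ℕ → ℕ → ℕ) (g : ℕ → Qn) (r : Mr) (T : Tbl) : Prop :=
  ∃ y : List Bool, ¬ (Alt r.2.2.2.2 r.2.1 (FT r.2.2.1 y.length)
    (fun us => AcceptsIn (orc g T) r.1 (y :: us) (FT r.2.2.2.1 y.length)) ↔
      y ∈ Lg T.W (r.2.1 + 1) true)

end Pool.Agent.H59.Er
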