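import Mathlib
import Pool.Agent.H59.Er.Stage
import Pool.Agent.H59.Er.RunDT

set_option autoImplicit false
set_option linter.unusedSectionVars false

/-!
# The oracle of a stage as decision trees
-/

namespace Pool.Agent.H59.Er

open Pool.Agent.H9 Classical

namespace Sg

variable (S : Sg)

theorem dt_emb (v : Nd) : DT 1 (fun x : S.I → S.X => S.emb x v) := by
  by_cases h : v ∈ S.U
  · refine ((DT.query (X := S.X) (⟨v, h⟩ : S.I)).map fun a => a.1).congr ?_
    intro x
    unfold emb
    rw [dif_pos h]
  · refine (DT.const 1 (if v.2.1.length < S.n then S.T0.W v else dfl v)).congr ?_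
    intro x
    unfold emb
    rw [dif_neg h]

theorem dt_alive (D : ℕ) (y : List Bool) (ps : List (List Bool)) :
    DT ps.length (fun x : S.I → S.X => alive (fun qs => S.emb x (D, y, qs)) ps) := by
  induction ps with
  | nil => exact DT.const _ false
  | cons u ps ih =>
    have h := DT.bind ih
      (g := fun (b : Bool) (x : S.I → S.X) => (!b && decide (S.emb x (D, y, ps) = u)))
      fun b => (S.dt_emb (D, y, ps)).map fun a => (!b && decide (a = u))
    rw [List.length_cons]
    exact h

theorem mem_U_fst {v : Nd} (h : v ∈ S.U) : v.1 = S.k + 1 := by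
  unfold U at h
  rw [Finset.mem_image] at h
  obtain ⟨z, _, rfl⟩ := h
  rfl

theorem emb_ne {v : Nd} (h : v.1 ≠ S.k + 1) (x x' : S.I → S.X) : S.emb x v = S.emb x' v := by
  have h1 : v ∉ S.U := fun hv => h (S.mem_U_fst hv)
  unfold emb
  rw [dif_neg h1, dif_neg h1]

/-- The bits of the oracle are decision trees of depth `k + 1`. -/
theorem dt_comb (κ : Oracle) (w : List Bool) :
    DT (S.k + 1) (fun x : S.I → S.X => comb (S.emb x) κ w) := by
  match w with
  | [] => exact DT.const _ false
  | true :: w => exact DT.const _ (κ w)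
  | false :: w =>
    rcases leafb_cases w with h | ⟨D, y, ps, _, h2, _, h4⟩
    · refine (DT.const (S.k + 1) false).congr ?_
      intro x
      exact (h _).symm
    · by_cases hD : D = S.k + 1
      · refine ((S.dt_alive D y ps).mono (by omega)).congr ?_
        intro x
        exact (h4 _).symm
      · by_cases hx : Nonempty (S.I → S.X)
        · obtain ⟨x0⟩ := hx
          refine (DT.const (S.k + 1) (alive (fun qs => S.emb x0 (D, y, qs)) ps)).congr ?_
          intro x
          show _ = leafb _ _
          rw [h4]
          exact alive_congr ps fun qs _ => S.emb_ne hD x0 x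
        · refine (DT.const (S.k + 1) false).congr ?_
          intro x
          exact absurd ⟨x⟩ hx

theorem dt_str (κ : Oracle) (h : Hr) (n : ℕ) (r : List Bool) :
    DT ((S.k + 1) * h.a n) (fun x : S.I → S.X => h.str (comb (S.emb x) κ) n r) :=
  (dt_run (S.dt_comb κ) h.2.1 (inp n r) (h.a n)).map fun c => c.2 0

theorem dt_acc (κ : Oracle) (p : Prog) (xs : List (List Bool)) (t : ℕ) :
    DT ((S.k + 1) * t) (fun x : S.I → S.X => AcceptsIn (comb (S.emb x) κ) p xs t) :=
  dt_acceptsIn (S.dt_comb κ) p xs t

end Sg

end Pool.Agent.H59.Er
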