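import Mathlib
import Pool.Agent.H59.Er.Stage

set_option autoImplicit false
set_option linter.unusedSectionVars false

/-!
# Basic facts on a stage
-/

namespace Pool.Agent.H59.Er

open Pool.Agent.H9 Classical

/-! ### Sizes of the alphabets -/

theorem alph_le_succ (K E J lm r : ℕ) (hlm : 1 ≤ lm) : alph K E J lm r ≤ alph K E J lm (r + 1) := by
  have hbase : ∀ r, 7 + 3 * (lm * 2 ^ (J + 1)) ≤ alph K E J lm r := by
    intro r
    cases r with
    | zero => exact le_rfl
    | succ r =>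
      show _ ≤ 2 * (7 + 3 * (lm * 2 ^ (J + 1))) + _ + 3 * lm
      omega
  rcases Nat.eq_zero_or_pos J with hJ | hJ
  · -- without scales all alphabets but the first have the same size
    cases r with
    | zero =>
      show 7 + 3 * (lm * 2 ^ (J + 1)) ≤ 2 * (7 + 3 * (lm * 2 ^ (J + 1))) + _ + 3 * lm
      omega
    | succ r =>
      show 2 * (7 + 3 * (lm * 2 ^ (J + 1))) + (K + 1) * (2 * J * alph K E J lm r +
          E * (lm * 2 ^ (J + 1))) + 3 * lm ≤ 2 * (7 + 3 * (lm * 2 ^ (J + 1))) +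
          (K + 1) * (2 * J * alph K E J lm (r + 1) + E * (lm * 2 ^ (J + 1))) + 3 * lm
      rw [hJ]
      simp
  · show alph K E J lm r ≤ 2 * (7 + 3 * (lm * 2 ^ (J + 1))) + (K + 1) * (2 * J * alph K E J lm r +
          E * (lm * 2 ^ (J + 1))) + 3 * lm
    have h1 : alph K E J lm r ≤ 2 * J * alph K E J lm r := by nlinarith
    have h2 : 2 * J * alph K E J lm r + E * (lm * 2 ^ (J + 1)) ≤
        (K + 1) * (2 * J * alph K E J lm r + E * (lm * 2 ^ (J + 1))) :=
      Nat.le_mul_of_pos_left _ (Nat.succ_pos K)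
    omega

theorem alph_mono (K E J lm : ℕ) (hlm : 1 ≤ lm) {r r' : ℕ} (h : r ≤ r') :
    alph K E J lm r ≤ alph K E J lm r' := by
  induction r', h using Nat.le_induction with
  | base => exact le_rfl
  | succ r' _ ih => exact ih.trans (alph_le_succ K E J lm r' hlm)

namespace Sg

variable (S : Sg)

/-! ### Thresholds and scales -/

theorem thr_zero : S.thr 0 = S.n := by
  unfold thr n
  rw [pow_zero, mul_one]

theorem thr_succ (i : ℕ) : S.thr (i + 1) = S.thr i ^ 2 := by
  unfold thr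
  rw [← pow_mul, pow_succ]
  congr 1
  ring

theorem thr_mono {i j : ℕ} (h : i ≤ j) : S.thr i ≤ S.thr j := by
  unfold thr
  apply Nat.pow_le_pow_right (by norm_num)
  exact Nat.mul_le_mul_left _ (Nat.pow_le_pow_right (by norm_num) h)

theorem thr_last : S.thr (S.J + 1) = 2 ^ S.sg := rfl

theorem one_le_thr (i : ℕ) : 1 ≤ S.thr i := Nat.one_le_two_pow

theorem lt_thr (hlm : 1 ≤ S.lm) (i : ℕ) : i < S.thr i := by
  unfold thr
  have h1 : 2 ^ i ≤ S.lm * 2 ^ i := Nat.le_mul_of_pos_left _ hlm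
  have h2 : i < 2 ^ i := Nat.lt_two_pow_self
  have h3 : S.lm * 2 ^ i < 2 ^ (S.lm * 2 ^ i) := Nat.lt_two_pow_self
  omega

theorem le_sc (hlm : 1 ≤ S.lm) {N j : ℕ} (h : S.thr j ≤ N) : j ≤ S.sc N := by
  have h1 := S.lt_thr hlm j
  exact Nat.le_findGreatest (by omega) h

theorem thr_sc_le {N : ℕ} (h : 1 ≤ S.sc N) : S.thr (S.sc N) ≤ N :=
  Nat.findGreatest_of_ne_zero (P := fun i => S.thr i ≤ N) (n := N) rfl
    (by
      have : S.sc N ≠ 0 := by omega
      exact this)

theorem sc_lt {N j : ℕ} (hj : 1 ≤ j) (h : N < S.thr j) : S.sc N < j := by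
  by_contra hcon
  push Not at hcon
  have h1 := S.thr_sc_le (N := N) (by omega)
  have h2 := S.thr_mono hcon
  omega

theorem lt_thr_succ (hlm : 1 ≤ S.lm) {N : ℕ} : N < S.thr (S.sc N + 1) := by
  by_contra hcon
  push Not at hcon
  have := S.le_sc hlm hcon
  omega

/-! ### Active nodes -/

theorem mem_Ps {i : ℕ} {ps : List (List Bool)} : ps ∈ S.Ps i ↔ ps.length = i ∧ okp S.n ps := by
  induction i generalizing ps with
  | zero =>
    show ps ∈ ({[]} : Finset (List (List Bool))) ↔ _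
    rw [Finset.mem_singleton, List.length_eq_zero_iff]
    constructor
    · rintro rfl; exact ⟨rfl, trivial⟩
    · exact fun h => h.1
  | succ i ih =>
    show ps ∈ (S.Ps i).biUnion (fun ps => (strings (S.len ps)).image fun u => u :: ps) ↔ _
    rw [Finset.mem_biUnion]
    constructor
    · rintro ⟨qs, hqs, h⟩
      rw [Finset.mem_image] at h
      obtain ⟨u, hu, rfl⟩ := h
      obtain ⟨h1, h2⟩ := ih.1 hqs
      rw [mem_strings] at hu
      exact ⟨by rw [List.length_cons, h1], hu, h2⟩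
    · rintro ⟨h1, h2⟩
      cases ps with
      | nil => simp at h1
      | cons u qs =>
        rw [List.length_cons] at h1
        refine ⟨qs, ih.2 ⟨by omega, h2.2⟩, Finset.mem_image.2 ⟨u, mem_strings.2 h2.1, rfl⟩⟩

theorem mem_U {v : Nd} : v ∈ S.U ↔
    v.1 = S.k + 1 ∧ v.2.1.length = S.n ∧ v.2.2.length ≤ S.k ∧ okp S.n v.2.2 := by
  unfold U
  rw [Finset.mem_image]
  constructor
  · rintro ⟨z, hz, rfl⟩
    rw [Finset.mem_product, mem_strings, Finset.mem_biUnion] at hz
    obtain ⟨h1, i, hi, h2⟩ := hz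
    obtain ⟨h3, h4⟩ := S.mem_Ps.1 h2
    rw [Finset.mem_range] at hi
    exact ⟨rfl, h1, by show z.2.length ≤ S.k; omega, h4⟩
  · rintro ⟨h1, h2, h3, h4⟩
    obtain ⟨D, y, ps⟩ := v
    simp only at h1 h2 h3 h4
    subst h1
    refine ⟨(y, ps), ?_, rfl⟩
    rw [Finset.mem_product, mem_strings, Finset.mem_biUnion]
    exact ⟨h2, ps.length, Finset.mem_range.2 (by omega), S.mem_Ps.2 ⟨rfl, h4⟩⟩

variable {S}

theorem Ok.one_le (hS : S.Ok) : 1 ≤ S.lm := by
  have := hS.big
  omega

theorem Ok.al_le (hS : S.Ok) {r : ℕ} (h : r ≤ S.k + 1) : S.al r ≤ S.n :=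
  (alph_mono _ _ _ _ hS.one_le h).trans hS.alp

theorem Ok.aV_le (hS : S.Ok) (v : Nd) : S.aV v ≤ S.n := hS.al_le (by omega)

theorem n_le_len (S : Sg) (ps : List (List Bool)) : S.n ≤ S.len ps := by
  unfold len
  split_ifs <;> omega

theorem mem_V {v : S.I} {a : S.X} : a ∈ S.V v ↔ ∃ pre : List Bool, pre.length = S.aV v.1 ∧
    a.1 = pre ++ List.replicate (S.len v.1.2.2 - S.aV v.1) false := by
  unfold V
  rw [Finset.mem_filter]
  exact and_iff_right (Finset.mem_univ _)

theorem Ok.mem_X (hS : S.Ok) (v : Nd) {pre : List Bool} (hpre : pre.length = S.aV v) :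
    pre ++ List.replicate (S.len v.2.2 - S.aV v) false ∈ strings S.n ∪ strings (S.n + 1) := by
  have h1 := hS.aV_le v
  have h2 := S.n_le_len v.2.2
  rw [Finset.mem_union, mem_strings, mem_strings, List.length_append, List.length_replicate, hpre]
  have h3 : S.len v.2.2 = S.n + 1 ∨ S.len v.2.2 = S.n := by
    unfold len
    split_ifs
    · exact Or.inl rfl
    · exact Or.inr rfl
  omega

theorem Ok.V_len (hS : S.Ok) {v : S.I} {a : S.X} (h : a ∈ S.V v) :
    a.1.length = S.len v.1.2.2 := by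
  obtain ⟨pre, h1, h2⟩ := mem_V.1 h
  have h3 := hS.aV_le v.1
  have h4 := S.n_le_len v.1.2.2
  rw [h2, List.length_append, List.length_replicate, h1]
  omega

theorem Ok.V_nonempty (hS : S.Ok) (v : S.I) : (S.V v).Nonempty := by
  refine ⟨⟨List.replicate (S.aV v.1) false ++ List.replicate (S.len v.1.2.2 - S.aV v.1) false,
    hS.mem_X v.1 List.length_replicate⟩, mem_V.2 ⟨_, List.length_replicate, rfl⟩⟩

theorem Ok.V_card (hS : S.Ok) (v : S.I) : (S.V v).card = 2 ^ S.aV v.1 := by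
  rw [← card_strings]
  symm
  apply Finset.card_bij (fun pre hpre =>
    (⟨pre ++ List.replicate (S.len v.1.2.2 - S.aV v.1) false,
      hS.mem_X v.1 (mem_strings.1 hpre)⟩ : S.X))
  · intro pre hpre
    exact mem_V.2 ⟨pre, mem_strings.1 hpre, rfl⟩
  · intro p1 _ p2 _ h
    exact List.append_cancel_right (congrArg Subtype.val h)
  · intro a ha
    obtain ⟨pre, h1, h2⟩ := mem_V.1 ha
    exact ⟨pre, mem_strings.2 h1, Subtype.ext h2.symm⟩

/-! ### Worlds -/

theorem emb_of_mem {x : S.I → S.X} {v : Nd} (h : v ∈ S.U) : S.emb x v = (x ⟨v, h⟩).1 := by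
  unfold emb
  rw [dif_pos h]

theorem emb_of_lt {x : S.I → S.X} {v : Nd} (h : v.2.1.length < S.n) :
    S.emb x v = S.T0.W v := by
  have h1 : v ∉ S.U := by
    intro hv
    have := (S.mem_U.1 hv).2.1
    omega
  unfold emb
  rw [dif_neg h1, if_pos h]

theorem emb_of_not {x : S.I → S.X} {v : Nd} (h : v ∉ S.U) (h2 : ¬ v.2.1.length < S.n) :
    S.emb x v = dfl v := by
  unfold emb
  rw [dif_neg h, if_neg h2]

theorem Ok.emb_len (hS : S.Ok) {x : S.I → S.X} (hx : ∀ v, x v ∈ S.V v) : LenOk (S.emb x) := by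
  intro v
  by_cases h : v ∈ S.U
  · rw [emb_of_mem h, hS.V_len (hx ⟨v, h⟩)]
    unfold len
    rw [(S.mem_U.1 h).2.1]
  · by_cases h2 : v.2.1.length < S.n
    · rw [emb_of_lt h2]
      exact S.T0.len v
    · rw [emb_of_not h h2]
      unfold dfl
      rw [List.length_replicate]

theorem Ok.tab_nonempty (hS : S.Ok) (ch : S.Ch) (v : Nd) (N : ℕ) : (S.tab ch v N).Nonempty := by
  unfold tab
  split_ifs with h1 h2
  · cases hc : ch (S.sc N) ⟨v, h1⟩ with
    | none =>
      obtain ⟨a, ha⟩ := hS.V_nonempty ⟨v, h1⟩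
      exact ⟨a.1, a, ha, rfl⟩
    | some a => exact ⟨a.1, a, Finset.mem_singleton_self a, rfl⟩
  · exact ⟨_, S.T0.mem v N⟩
  · exact Set.singleton_nonempty _

/-- The solver bits of length at most `thr j` depend only on the first `j` assignments. -/
theorem Ok.kap_congr (hS : S.Ok) (g : ℕ → Qn) {ch ch' : S.Ch} {j : ℕ} (hj : 1 ≤ j)
    (h : ∀ i < j, ch i = ch' i) (w : List Bool) (hw : w.length ≤ S.thr j) :
    kap g (S.tab ch) w = kap g (S.tab ch') w := by
  refine Er.kap_congr (M := S.thr j) ?_ w.length w le_rfl hw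
  intro N hN
  have key : ∀ v, S.tab ch v N = S.tab ch' v N := by
    intro v
    unfold tab
    rw [h (S.sc N) (S.sc_lt hj hN)]
  exact ⟨eqAt_of (fun v _ => key v) fun v => hS.tab_nonempty ch' v N,
    eqAt_of (fun v _ => (key v).symm) fun v => hS.tab_nonempty ch v N⟩

/-- The possible worlds at a number at which the old table is known. -/
theorem mem_wd_tab {m0 N : ℕ} (hcoh : ∀ v N, m0 ≤ N → S.T0.A v N = {S.T0.W v}) (hN : m0 ≤ N)
    (ch : S.Ch) (W : World) :
    W ∈ wd (S.tab ch) N ↔ ∃ x ∈ Wd S.V (ch (S.sc N)), W = S.emb x := by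
  constructor
  · intro hW
    have h1 : ∀ v : S.I, ∃ a ∈ Vs S.V v (ch (S.sc N) v), a.1 = W v.1 := by
      intro v
      have := hW v.1
      unfold tab at this
      rw [dif_pos v.2] at this
      exact this
    choose x hx1 hx2 using h1
    refine ⟨x, hx1, ?_⟩
    funext v
    by_cases h : v ∈ S.U
    · rw [emb_of_mem h]
      exact (hx2 ⟨v, h⟩).symm
    · have h3 := hW v
      unfold tab at h3
      rw [dif_neg h] at h3
      by_cases h2 : v.2.1.length < S.n
      · rw [if_pos h2, hcoh v N hN] at h3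
        rw [emb_of_lt h2]
        exact h3
      · rw [if_neg h2] at h3
        rw [emb_of_not h h2]
        exact h3
  · rintro ⟨x, hx, rfl⟩
    intro v
    unfold tab
    by_cases h : v ∈ S.U
    · rw [dif_pos h, emb_of_mem h]
      exact ⟨x ⟨v, h⟩, hx ⟨v, h⟩, rfl⟩
    · rw [dif_neg h]
      by_cases h2 : v.2.1.length < S.n
      · rw [if_pos h2, emb_of_lt h2]
        exact S.T0.mem v N
      · rw [if_neg h2, emb_of_not h h2]
        exact Set.mem_singleton _

end Sg

end Pool.Agent.H59.Er
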