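import Mathlib
import Pool.Agent.H59.Er.Tab
import Pool.Agent.H59.Er.OrcDT

set_option autoImplicit false
set_option linter.unusedSectionVars false

/-!
# One scale of the solver, one heuristic and one length

Module SCA. Let `B = thr i = 2 ^ (lm * 2 ^ i)` and `N = h.N (n + l)`. From `sc N = i ≥ 1`:
`B ≤ N < B ^ 2` (`thr_sc_le`, `lt_thr_succ`, `thr_succ` of Tab.lean). `hok n` and
`h.N n ≤ h.N (n + l)` give `(bnd (ax n) + 2) ^ 2 < B ^ 2`, so `bnd (ax n) + 2 < B`; as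
`bnd l = t l + l + k * q l` (H9/World.lean) also `ax n, m n, a n < B`, `t (ax n) < B`, and if
`k ≥ 1` then `q (ax n) < B`. Apply `collapse` (Col.lean) with `V := S.V`, `s := B ^ 2`,
`t := B ^ 2`, `m := B`, `K := S.K`, `p := S.p i`, `pm := (1/2) ^ (E * (lm * 2 ^ i))` (`= B ^ (-E)`,
`E = 12 + 2 s`), `Ω := {r // r ∈ strings (h.m n)}`, `OF := (Finset.range B).biUnion strings`
(cardinality at most `2 ^ B`), `G r x := h.str (comb (S.emb x) κ) n r`,
`Q o x := (g h.1).ans (comb (S.emb x) κ) o`, `c := (N : ℝ) ^ S.s`. Conditions: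
`p v * |V v| ^ 2 = (1/2) ^ (E * (lm * 2 ^ i)) ≤ 1 / (16 B ^ 2)` (`V_card`; `B ≥ 2 ^ 40`);
`HasF` from `dt_str`, `dt_acc` (OrcDT.lean) since `(k + 1) * B ≤ B ^ 2`; lengths of outputs:
`length_run` (H9/AvgErr2.lean), `totalLength_inp`. If `(g h.1).k = 0` use `m' := 0` (`Alt true 0 _ φ`
does not depend on the length), else `m' := q |o| ≤ q (ax n) < B` (monotone: as in `bnd_mono`,
H9/AvgErr.lean); for all `o` in `OF` one has only `|o| < B`, so it is better to take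
`OF := (Finset.range (h.ax n + 1)).biUnion strings`, whose cardinality is also `≤ 2 ^ B`.
The bound of `collapse` is `2^B ((2^B+1)^K (1/4)^(B^2+1)) + N^s (2 B^2 pm) ≤ 3 B^(-8)`, as
`N^s ≤ B^(2s)`, `pm = B^(-12-2s)`.
-/

namespace Pool.Agent.H59.Er

open Pool.Agent.H9 Classical

namespace Sg

variable {S : Sg}

/-- elementary facts on the threshold -/
theorem SCA_L (hS : S.Ok) {i : ℕ} (hi : 1 ≤ i) :
    2 * S.lm ≤ S.lm * 2 ^ i ∧ S.lm * 2 ^ i ≤ S.thr i ∧ 40 ≤ S.lm * 2 ^ i := by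
  have h1 : 2 ≤ 2 ^ i := by
    calc 2 = 2 ^ 1 := by norm_num
      _ ≤ 2 ^ i := Nat.pow_le_pow_right (by norm_num) hi
  have h2 : S.lm * 2 ≤ S.lm * 2 ^ i := Nat.mul_le_mul_left _ h1
  have h3 : S.lm * 2 ^ i < S.thr i := Nat.lt_two_pow_self
  have := hS.big
  exact ⟨by omega, h3.le, by omega⟩

theorem SCA_card_OF (a B : ℕ) (h : a + 1 ≤ B) :
    (((Finset.range (a + 1)).biUnion strings).card : ℝ) ≤ 2 ^ B := by
  have h1 : ((Finset.range (a + 1)).biUnion strings).card ≤ ∑ j ∈ Finset.range (a + 1), 2 ^ j := by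
    refine Finset.card_biUnion_le.trans (le_of_eq ?_)
    exact Finset.sum_congr rfl fun j _ => card_strings j
  have h2 : ∑ j ∈ Finset.range (a + 1), 2 ^ j ≤ 2 ^ (a + 1) := by
    rw [Nat.geomSum_eq (le_refl 2)]
    norm_num
  have h3 : 2 ^ (a + 1) ≤ 2 ^ B := Nat.pow_le_pow_right (by norm_num) h
  exact_mod_cast h1.trans (h2.trans h3)

/-- the first summand -/
theorem SCA_first (K L B : ℕ) (hB : B = 2 ^ L) (hK : K + 20 ≤ L) (hLB : L ≤ B) :
    (2 : ℝ) ^ B * ((2 ^ B + 1 : ℝ) ^ K * (1 / 4 : ℝ) ^ (B ^ 2 + 1)) ≤ (1 / (B : ℝ)) ^ 8 := by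
  have h1 : (2 ^ B + 1 : ℝ) ≤ 2 ^ (B + 1) := by
    have : (1 : ℝ) ≤ 2 ^ B := one_le_pow₀ (by norm_num)
    rw [pow_succ]
    linarith
  have h2 : (2 ^ B + 1 : ℝ) ^ K ≤ 2 ^ ((B + 1) * K) := by
    rw [pow_mul]
    exact pow_le_pow_left₀ (by positivity) h1 K
  have h3 : (1 / 4 : ℝ) ^ (B ^ 2 + 1) = 1 / 2 ^ (2 * (B ^ 2 + 1)) := by
    rw [pow_mul, one_div_pow]
    norm_num
  have h4 : (1 / (B : ℝ)) ^ 8 = 1 / 2 ^ (L * 8) := by
    rw [hB]
    push_cast
    rw [one_div_pow, ← pow_mul]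
  have h5 : B + (B + 1) * K + L * 8 ≤ 2 * (B ^ 2 + 1) := by
    obtain ⟨M, rfl⟩ : ∃ M, L = K + 20 + M := ⟨L - (K + 20), by omega⟩
    nlinarith
  rw [h3, h4]
  calc (2 : ℝ) ^ B * ((2 ^ B + 1 : ℝ) ^ K * (1 / 2 ^ (2 * (B ^ 2 + 1))))
      ≤ (2 : ℝ) ^ B * (2 ^ ((B + 1) * K) * (1 / 2 ^ (2 * (B ^ 2 + 1)))) := by gcongr
    _ = 2 ^ (B + (B + 1) * K) / 2 ^ (2 * (B ^ 2 + 1)) := by rw [pow_add]; ring
    _ ≤ 1 / 2 ^ (L * 8) := by
        rw [div_le_div_iff₀ (by positivity) (by positivity), one_mul, ← pow_add]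
        exact pow_le_pow_right₀ (by norm_num) h5

/-- the second summand -/
theorem SCA_second (s L B N : ℕ) (hB : B = 2 ^ L) (hN : N ≤ B ^ 2) :
    (N : ℝ) ^ s * (((B ^ 2 + B ^ 2 : ℕ) : ℝ) * (1 / 2 : ℝ) ^ ((12 + 2 * s) * L)) ≤
      2 * (1 / (B : ℝ)) ^ 8 := by
  have hB0 : (1 : ℝ) ≤ (B : ℝ) := by
    rw [hB]
    push_cast
    exact one_le_pow₀ (by norm_num)
  have hB1 : (0 : ℝ) < (B : ℝ) := by linarith
  have h1 : (N : ℝ) ^ s ≤ (B : ℝ) ^ (2 * s) := by
    rw [pow_mul]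
    apply pow_le_pow_left₀ (by positivity)
    exact_mod_cast hN
  have h2 : (1 / 2 : ℝ) ^ ((12 + 2 * s) * L) = 1 / ((B : ℝ) ^ 12 * (B : ℝ) ^ (2 * s)) := by
    rw [← pow_add, hB]
    push_cast
    rw [← pow_mul, one_div_pow, mul_comm L]
  rw [h2]
  push_cast
  calc (N : ℝ) ^ s * (((B : ℝ) ^ 2 + (B : ℝ) ^ 2) * (1 / ((B : ℝ) ^ 12 * (B : ℝ) ^ (2 * s))))
      ≤ (B : ℝ) ^ (2 * s) * (((B : ℝ) ^ 2 + (B : ℝ) ^ 2) *
          (1 / ((B : ℝ) ^ 12 * (B : ℝ) ^ (2 * s)))) := by gcongr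
    _ = 2 * (1 / (B : ℝ)) ^ 10 := by
        field_simp
        ring
    _ ≤ 2 * (1 / (B : ℝ)) ^ 8 := by
        have h3 : (1 / (B : ℝ)) ^ 10 ≤ (1 / (B : ℝ)) ^ 8 := by
          apply pow_le_pow_of_le_one (by positivity) _ (by norm_num)
          rw [div_le_one hB1]
          exact hB0
        linarith

/-- bounds from the length condition -/
theorem SCA_bnd (hS : S.Ok) (g : ℕ → Qn) (h : Hr) (hok : h.ok g) {i : ℕ} (hi : 1 ≤ i) (n l : ℕ)
    (hsc : S.sc (h.N (n + l)) = i) :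
    h.N (n + l) ≤ S.thr i ^ 2 ∧ (g h.1).bnd (h.ax n) + 2 < S.thr i := by
  have h1 : h.N (n + l) < S.thr (i + 1) := by
    have := S.lt_thr_succ hS.one_le (N := h.N (n + l))
    rwa [hsc] at this
  rw [thr_succ] at h1
  refine ⟨h1.le, ?_⟩
  have h2 : h.N n ≤ h.N (n + l) := by
    unfold Hr.N
    exact Nat.pow_le_pow_left (by omega) _
  have h3 : ((g h.1).bnd (h.ax n) + 2) ^ 2 < S.thr i ^ 2 := lt_of_le_of_lt (hok n) (lt_of_le_of_lt h2 h1)
  exact lt_of_pow_lt_pow_left₀ 2 (Nat.zero_le _) h3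

theorem Ok.scale_one (hS : S.Ok) (g : ℕ → Qn) (h : Hr) (hok : h.ok g) (hK : (g h.1).k ≤ S.K)
    (κ : Oracle) (ρ : S.I → Option S.X) {i : ℕ} (hi : 1 ≤ i) (n l : ℕ)
    (hsc : S.sc (h.N (n + l)) = i) :
    Pr (ker S.V (fun v => S.p i v ^ (S.K + 1)) ρ) (fun ρ' =>
      ¬ (h.N (n + l) ^ S.s * ((strings (h.m n)).filter
        (fun r => ¬ S.Det g h κ ρ' n r)).card ≤ 2 ^ (h.m n))) ≤ 3 * (1 / (S.thr i : ℝ)) ^ 8 := by
  obtain ⟨hL1, hL2, hL3⟩ := SCA_L hS hi
  obtain ⟨hN, hb⟩ := SCA_bnd hS g h hok hi n l hsc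
  have hbig := hS.big
  set B := S.thr i with hB
  set L := S.lm * 2 ^ i with hL
  have hBL : B = 2 ^ L := rfl
  set N := h.N (n + l) with hNdef
  have hax : h.ax n + 2 < B := by
    unfold Qn.bnd at hb
    omega
  have hmn : h.m n < B ∧ h.a n < B := by
    unfold Hr.ax at hax
    omega
  have hk1 : S.k + 1 ≤ B := by omega
  have hne : Nonempty S.X := ⟨⟨List.replicate S.n false, by
    rw [Finset.mem_union, mem_strings, List.length_replicate]; exact Or.inl rfl⟩⟩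
  have hdec : ∀ a : ℕ, a ≤ B → (S.k + 1) * a ≤ B ^ 2 := fun a ha => by
    rw [pow_two]
    exact Nat.mul_le_mul hk1 ha
  have hq : ∀ o ∈ (Finset.range (h.ax n + 1)).biUnion strings,
      (g h.1).t o.length ≤ B ∧ (1 ≤ (g h.1).k → (g h.1).q o.length ≤ B) := by
    intro o ho
    rw [Finset.mem_biUnion] at ho
    obtain ⟨j, hj, ho⟩ := ho
    rw [mem_strings] at ho
    rw [Finset.mem_range] at hj
    have h1 : o.length ≤ h.ax n := by omega
    have h2 := (g h.1).t_mono h1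
    have h3 := (g h.1).q_mono h1
    unfold Qn.bnd at hb
    refine ⟨by omega, fun hk => ?_⟩
    have h4 : (g h.1).q (h.ax n) ≤ (g h.1).k * (g h.1).q (h.ax n) := Nat.le_mul_of_pos_left _ hk
    omega
  have key := collapse (V := S.V) (s := B ^ 2) (t := B ^ 2) (m := B) (K := S.K) (p := S.p i)
    (pm := (1 / 2 : ℝ) ^ (S.E * L)) (Ω := {r // r ∈ strings (h.m n)}) (O := List Bool)
    (c := (N : ℝ) ^ S.s) hS.V_nonempty
    (Nat.one_le_pow _ _ (S.one_le_thr i))
    (fun v => by unfold Sg.p; positivity)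
    (fun v => ?_) (by positivity) (fun v => ?_) ρ
    ((Finset.range (h.ax n + 1)).biUnion strings)
    (fun r x => h.str (comb (S.emb x) κ) n r.1)
    (fun r => ⟨_, (S.dt_str κ h n r.1).mono (hdec _ hmn.2.le), fun x _ => rfl⟩)
    (fun r x _ => ?_)
    (fun o x => (g h.1).ans (comb (S.emb x) κ) o)
    (fun o ho => ?_) (by positivity)
  · -- the conclusion
    have hcardΩ : (Fintype.card {r // r ∈ strings (h.m n)} : ℝ) = 2 ^ (h.m n) := by
      rw [Fintype.card_coe, card_strings]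
      push_cast
      rfl
    have hfilt : ∀ ρ' : S.I → Option S.X,
        ((Finset.univ : Finset {r // r ∈ strings (h.m n)}).filter
          (fun r => ¬ (Cst S.V ρ' (fun x => h.str (comb (S.emb x) κ) n r.1) ∧
            Cst S.V ρ' (fun x => (g h.1).ans (comb (S.emb x) κ)
              (h.str (comb (S.emb x) κ) n r.1))))).card =
        ((strings (h.m n)).filter (fun r => ¬ S.Det g h κ ρ' n r)).card := by
      intro ρ'
      have e1 : ((strings (h.m n)).filter (fun r => ¬ S.Det g h κ ρ' n r)) =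
          ((Finset.univ : Finset {r // r ∈ strings (h.m n)}).filter
          (fun r => ¬ (Cst S.V ρ' (fun x => h.str (comb (S.emb x) κ) n r.1) ∧
            Cst S.V ρ' (fun x => (g h.1).ans (comb (S.emb x) κ)
              (h.str (comb (S.emb x) κ) n r.1))))).map (Function.Embedding.subtype _) := by
        ext r
        simp only [Finset.mem_filter, Finset.mem_map, Finset.mem_univ, true_and,
          Function.Embedding.coe_subtype]
        constructor
        · rintro ⟨h1, h2⟩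
          exact ⟨⟨r, h1⟩, h2, rfl⟩
        · rintro ⟨r', h2, rfl⟩
          exact ⟨r'.2, h2⟩
      rw [e1, Finset.card_map]
    have hμ : IsPr (ker S.V (fun v => S.p i v ^ (S.K + 1)) ρ) := by
      apply ker_isPr hS.V_nonempty
      · intro v
        unfold Sg.p
        positivity
      · intro v
        unfold Sg.p
        apply pow_le_one₀ (by positivity)
        exact pow_le_one₀ (by norm_num) (by norm_num)
    refine (pr_mono hμ ?_).trans (key.trans ?_)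
    · intro ρ' hρ'
      rw [hcardΩ, hfilt ρ']
      rw [not_le] at hρ'
      exact_mod_cast hρ'
    · have h1 := SCA_card_OF (h.ax n) B (by omega)
      have h2 := SCA_first S.K L B hBL (by omega) hL2
      have h3 := SCA_second S.s L B N hBL hN
      have h4 : (((Finset.range (h.ax n + 1)).biUnion strings).card : ℝ) *
          ((2 ^ B + 1 : ℝ) ^ S.K * (1 / 4 : ℝ) ^ (B ^ 2 + 1)) ≤
          2 ^ B * ((2 ^ B + 1 : ℝ) ^ S.K * (1 / 4 : ℝ) ^ (B ^ 2 + 1)) :=
        mul_le_mul_of_nonneg_right h1 (by positivity)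
      have h5 : (N : ℝ) ^ S.s * (((B ^ 2 + B ^ 2 : ℕ) : ℝ) * (1 / 2 : ℝ) ^ (S.E * L)) ≤
          2 * (1 / (B : ℝ)) ^ 8 := h3
      linarith
  · -- the condition on the rates
    rw [hS.V_card]
    unfold Sg.p
    rw [← hL, pow_add]
    push_cast
    have e1 : (1 / 2 : ℝ) ^ (2 * S.aV v.1) * (1 / 2 : ℝ) ^ (S.E * L) * ((2 : ℝ) ^ S.aV v.1) ^ 2 =
        (1 / 2 : ℝ) ^ (S.E * L) := by
      have e2 : (1 / 2 : ℝ) ^ (2 * S.aV v.1) * ((2 : ℝ) ^ S.aV v.1) ^ 2 = 1 := by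
        rw [← pow_mul, mul_comm (S.aV v.1) 2, ← mul_pow]
        norm_num
      calc _ = (1 / 2 : ℝ) ^ (S.E * L) * ((1 / 2 : ℝ) ^ (2 * S.aV v.1) *
            ((2 : ℝ) ^ S.aV v.1) ^ 2) := by ring
        _ = _ := by rw [e2, mul_one]
    rw [e1]
    have e3 : (1 : ℝ) / (16 * (B : ℝ) ^ 2) = (1 / 2 : ℝ) ^ (4 + L * 2) := by
      rw [hBL]
      push_cast
      rw [← pow_mul, pow_add, one_div_pow, one_div_pow]
      norm_num
      ring
    rw [e3]
    apply pow_le_pow_of_le_one (by norm_num) (by norm_num)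
    have e4 : 12 * L ≤ S.E * L := Nat.mul_le_mul_right _ (by unfold Sg.E; omega)
    omega
  · -- the maximal rate
    unfold Sg.p
    exact pow_le_pow_of_le_one (by norm_num) (by norm_num) (Nat.le_add_left _ _)
  · -- lengths of the questions
    rw [Finset.mem_biUnion]
    refine ⟨_, ?_, mem_strings.2 rfl⟩
    rw [Finset.mem_range]
    have h1 := length_run (comb (S.emb x) κ) h.2.1 (inp n r.1) (h.a n) 0
    rw [totalLength_inp, mem_strings.1 r.2] at h1
    have h2 : (h.str (comb (S.emb x) κ) n r.1).length ≤ h.ax n := h1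
    omega
  · -- the questions
    obtain ⟨ht, hq'⟩ := hq o ho
    by_cases hk : 1 ≤ (g h.1).k
    · refine ⟨(g h.1).k, hK, (g h.1).q o.length, hq' hk,
        fun us x => AcceptsIn (comb (S.emb x) κ) (g h.1).1 (o :: us) ((g h.1).t o.length), ?_, ?_⟩
      · intro us _
        exact ⟨_, (S.dt_acc κ (g h.1).1 (o :: us) ((g h.1).t o.length)).mono (hdec _ ht),
          fun x _ => rfl⟩
      · intro x
        exact Iff.rfl
    · have hk0 : (g h.1).k = 0 := by omega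
      refine ⟨0, Nat.zero_le _, 0, Nat.zero_le _,
        fun us x => AcceptsIn (comb (S.emb x) κ) (g h.1).1 (o :: us) ((g h.1).t o.length), ?_, ?_⟩
      · intro us _
        exact ⟨_, (S.dt_acc κ (g h.1).1 (o :: us) ((g h.1).t o.length)).mono (hdec _ ht),
          fun x _ => rfl⟩
      · intro x
        show (g h.1).ans (comb (S.emb x) κ) o ↔ _
        unfold Qn.ans
        rw [hk0]
        exact Iff.rfl

end Sg

end Pool.Agent.H59.Er
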