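import Mathlib
import Pool.Agent.H59.Er.ScaleA

set_option autoImplicit false
set_option linter.unusedSectionVars false

/-!
# One scale of the solver

Module SCB. Let `B = thr i`. If `Lv` fails at `ρ'` there are `j < s`, `n`, `l` with
`sc ((hs j).N (n + l)) = i` and the event of `scale_one` (ScaleA.lean, proved by another seat, cite
it). `N < thr (i + 1) = B ^ 2` (`lt_thr_succ`, `thr_succ`) and `n, l ≤ n + l ≤ N` (`Hr.le_N`), so
there are at most `s * B ^ 2 * B ^ 2` triples: use `pr_exists_le` (Prob.lean) over the Finset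
`Finset.range s ×ˢ Finset.range (B ^ 2) ×ˢ Finset.range (B ^ 2)` with the event
`(hs j).ok g ∧ sc .. = i ∧ ¬ (..)` (probability `≤ 3 B^(-8)` in all cases; if the deterministic part
is false the event is empty). Total `≤ s B^4 3 B^(-8) ≤ (1/2)^(i+2)` as `s ≤ lm ≤ B`,
`B = 2 ^ (lm * 2 ^ i) ≥ 2 ^ (20 * 2 ^ i)`, `2 ^ i ≥ i + 1`.
-/

namespace Pool.Agent.H59.Er

open Pool.Agent.H9 Classical

namespace Sg

variable {S : Sg}

theorem SCB_num {lm s i : ℕ} (h20 : 20 ≤ lm) (hs : s ≤ lm) :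
    (s : ℝ) * (2 ^ (lm * 2 ^ i) : ℝ) ^ 4 * (3 * (1 / (2 ^ (lm * 2 ^ i) : ℝ)) ^ 8) ≤
      (1 / 2 : ℝ) ^ (i + 2) := by
  obtain ⟨e, he⟩ : ∃ e, e = lm * 2 ^ i := ⟨_, rfl⟩
  rw [← he]
  have hi : i < 2 ^ i := Nat.lt_two_pow_self
  have h1 : lm ≤ e := by rw [he]; exact Nat.le_mul_of_pos_right _ (Nat.two_pow_pos i)
  have h2 : i + 2 ≤ e := by
    rw [he]
    nlinarith
  have h3 : (s : ℝ) ≤ 2 ^ e := by
    have h4 : e < 2 ^ e := Nat.lt_two_pow_self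
    have h5 : s ≤ 2 ^ e := by omega
    exact_mod_cast h5
  have hB : (3 : ℝ) ≤ 2 ^ e := by
    have h4 : (2 : ℝ) ^ 2 ≤ 2 ^ e := pow_le_pow_right₀ (by norm_num) (by omega)
    linarith
  set B : ℝ := 2 ^ e with hBdef
  have hB0 : 0 < B := by linarith
  have h6 : (s : ℝ) * B ^ 4 * (3 * (1 / B) ^ 8) = (s / B) * (3 / B) * (1 / B) * (1 / B) := by
    field_simp
  have h7 : (s : ℝ) / B ≤ 1 := by rw [div_le_one hB0]; exact h3
  have h8 : 3 / B ≤ 1 := by rw [div_le_one hB0]; exact hB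
  have h9 : 1 / B ≤ 1 := by rw [div_le_one hB0]; linarith
  have h10 : 1 / B = (1 / 2 : ℝ) ^ e := by rw [hBdef, one_div_pow]
  have h11 : (1 / 2 : ℝ) ^ e ≤ (1 / 2 : ℝ) ^ (i + 2) :=
    pow_le_pow_of_le_one (by norm_num) (by norm_num) h2
  rw [h6]
  have h12 : 0 ≤ (s : ℝ) / B := by positivity
  have h13 : 0 ≤ 3 / B := by positivity
  have h14 : 0 ≤ 1 / B := by positivity
  calc (s : ℝ) / B * (3 / B) * (1 / B) * (1 / B) ≤ 1 * 1 * 1 * (1 / B) := by gcongr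
    _ = (1 / 2 : ℝ) ^ e := by rw [← h10]; ring
    _ ≤ _ := h11

theorem SCB_rate (S : Sg) (i : ℕ) (v : S.I) :
    0 ≤ S.p i v ^ (S.K + 1) ∧ S.p i v ^ (S.K + 1) ≤ 1 := by
  unfold p
  have h0 : (0 : ℝ) ≤ (1 / 2 : ℝ) ^ (2 * S.aV v.1 + S.E * (S.lm * 2 ^ i)) := by positivity
  have h1 : (1 / 2 : ℝ) ^ (2 * S.aV v.1 + S.E * (S.lm * 2 ^ i)) ≤ 1 :=
    pow_le_one₀ (by norm_num) (by norm_num)
  exact ⟨pow_nonneg h0 _, pow_le_one₀ h0 h1⟩

theorem Ok.scale (hS : S.Ok) (g : ℕ → Qn) (hs : ℕ → Hr) (hK : ∀ j < S.s, (g (hs j).1).k ≤ S.K)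
    (κ : Oracle) (ρ : S.I → Option S.X) {i : ℕ} (hi : 1 ≤ i) :
    Pr (ker S.V (fun v => S.p i v ^ (S.K + 1)) ρ) (fun ρ' => ¬ S.Lv g hs κ ρ' i) ≤
      (1 / 2 : ℝ) ^ (i + 2) := by
  have hμ : IsPr (ker S.V (fun v => S.p i v ^ (S.K + 1)) ρ) :=
    ker_isPr hS.V_nonempty (fun v => (SCB_rate S i v).1) (fun v => (SCB_rate S i v).2) ρ
  set B := S.thr i with hB
  let F : Finset (ℕ × ℕ × ℕ) :=
    Finset.range S.s ×ˢ Finset.range (B ^ 2) ×ˢ Finset.range (B ^ 2)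
  let Ev : ℕ × ℕ × ℕ → (S.I → Option S.X) → Prop := fun z ρ' =>
    ((hs z.1).ok g ∧ S.sc ((hs z.1).N (z.2.1 + z.2.2)) = i) ∧
      ¬ ((hs z.1).N (z.2.1 + z.2.2) ^ S.s * ((strings ((hs z.1).m z.2.1)).filter
        (fun r => ¬ S.Det g (hs z.1) κ ρ' z.2.1 r)).card ≤ 2 ^ ((hs z.1).m z.2.1))
  have h1 : Pr (ker S.V (fun v => S.p i v ^ (S.K + 1)) ρ) (fun ρ' => ¬ S.Lv g hs κ ρ' i) ≤
      Pr (ker S.V (fun v => S.p i v ^ (S.K + 1)) ρ) (fun ρ' => ∃ z ∈ F, Ev z ρ') := by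
    apply pr_mono hμ
    intro ρ' h
    unfold Lv at h
    push Not at h
    obtain ⟨j, hj, hok, n, l, hsc, hbad⟩ := h
    have hN : (hs j).N (n + l) < B ^ 2 := by
      have h2 := S.lt_thr_succ hS.one_le (N := (hs j).N (n + l))
      rw [hsc, S.thr_succ] at h2
      exact h2
    have hle := (hs j).le_N (n + l)
    refine ⟨(j, n, l), ?_, ⟨hok, hsc⟩, ?_⟩
    · refine Finset.mem_product.2 ⟨Finset.mem_range.2 hj, Finset.mem_product.2 ⟨?_, ?_⟩⟩
      · exact Finset.mem_range.2 (by show n < B ^ 2; omega)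
      · exact Finset.mem_range.2 (by show l < B ^ 2; omega)
    · exact not_le.2 hbad
  have h2 : ∀ z ∈ F, Pr (ker S.V (fun v => S.p i v ^ (S.K + 1)) ρ) (Ev z) ≤
      3 * (1 / (B : ℝ)) ^ 8 := by
    rintro ⟨j, n, l⟩ hz
    have hj : j < S.s := Finset.mem_range.1 (Finset.mem_product.1 hz).1
    by_cases hdet : (hs j).ok g ∧ S.sc ((hs j).N (n + l)) = i
    · refine le_trans (pr_mono hμ fun ρ' h => h.2) ?_
      exact hS.scale_one g (hs j) hdet.1 (hK j hj) κ ρ hi n l hdet.2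
    · refine le_trans (pr_mono hμ (E' := fun _ => False) fun ρ' h => hdet h.1) ?_
      rw [pr_false]
      positivity
  refine h1.trans ((pr_exists_le hμ F Ev _ h2).trans ?_)
  have hcard : (F.card : ℝ) = S.s * (B : ℝ) ^ 4 := by
    have : F.card = S.s * (B ^ 2 * B ^ 2) := by
      show (Finset.range S.s ×ˢ Finset.range (B ^ 2) ×ˢ Finset.range (B ^ 2)).card = _
      rw [Finset.card_product, Finset.card_product, Finset.card_range, Finset.card_range]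
    rw [this]
    push_cast
    ring
  rw [hcard]
  have hBr : (B : ℝ) = 2 ^ (S.lm * 2 ^ i) := by
    rw [hB]
    unfold thr
    push_cast
    rfl
  rw [hBr]
  have hbig := hS.big
  exact SCB_num (by omega) (by omega)

end Sg

end Pool.Agent.H59.Er
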