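import Mathlib
import Pool.Agent.H59.Er.Tab

set_option autoImplicit false
set_option linter.unusedSectionVars false

/-!
# Survival of stars: estimates

Module STA.
* `Q_ge`: `Q 0 v = ∏_{j ∈ [1, J]} ((1/2)^(2 a + E lm 2^j))^(K+1) = (1/2)^((K+1)(2 J a + E lm
  (2^(J+1) - 2)))` and `lm * 2 ^ (J + 1) = sg`.
* `no_star`: `pr_forall` (LBdef.lean) with `P i r := r ≠ none`: the sum over `r` is `1 - Q` (the
  weights of `ker S.V q (fun _ => none)` sum up to `1` by `ker_isPr`, the weight of `none` is `q i` by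
  `ker_star`), so the probability is at most `(1 - (1/2)^b)^(2^(b+3 lm)) ≤ exp (- 2^(3 lm)) ≤
  (1/2)^(n^3)` (`n = 2 ^ lm`).
* `card_U`: `|Ps i| ≤ 2 ^ ((n+1) * i)` by induction, `|U| ≤ 2^n * ∑_{i ≤ k} 2^((n+1) i) ≤
  2 ^ ((n+1) (k+2))`.
-/

namespace Pool.Agent.H59.Er

open Pool.Agent.H9 Classical

namespace Sg

variable {S : Sg}

theorem p_pos (i : ℕ) (v : S.I) : 0 < S.p i v := by
  unfold p
  positivity

theorem p_le_one (i : ℕ) (v : S.I) : S.p i v ≤ 1 := pow_le_one₀ (by norm_num) (by norm_num)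

theorem Q_pos (i : ℕ) (v : S.I) : 0 < S.Q i v :=
  Finset.prod_pos fun j _ => pow_pos (p_pos j v) _

theorem Q_le_one (i : ℕ) (v : S.I) : S.Q i v ≤ 1 :=
  Finset.prod_le_one (fun j _ => (pow_pos (p_pos j v) _).le)
    fun j _ => pow_le_one₀ (p_pos j v).le (p_le_one j v)

theorem STA_sum (A E L K J : ℕ) :
    ∑ j ∈ Finset.Ico 1 (J + 1), (A + E * (L * 2 ^ j)) * (K + 1) ≤
      (K + 1) * (J * A + E * (L * 2 ^ (J + 1))) := by
  induction J with
  | zero => simp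
  | succ J ih =>
    rw [Finset.sum_Ico_succ_top (by omega)]
    calc _ ≤ (K + 1) * (J * A + E * (L * 2 ^ (J + 1))) + (A + E * (L * 2 ^ (J + 1))) * (K + 1) :=
          Nat.add_le_add_right ih _
      _ = _ := by rw [pow_succ 2 (J + 1)]; ring

/-- The star rate of a node after all scales. -/
theorem Q_ge (v : S.I) :
    (1 / 2 : ℝ) ^ ((S.K + 1) * (2 * S.J * S.aV v.1 + S.E * S.sg)) ≤ S.Q 0 v := by
  have h1 : S.Q 0 v = (1 / 2 : ℝ) ^
      (∑ j ∈ Finset.Ico 1 (S.J + 1), (2 * S.aV v.1 + S.E * (S.lm * 2 ^ j)) * (S.K + 1)) := by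
    unfold Q
    rw [← Finset.prod_pow_eq_pow_sum]
    refine Finset.prod_congr rfl fun j _ => ?_
    unfold p
    rw [← pow_mul]
  rw [h1]
  apply pow_le_pow_of_le_one (by norm_num) (by norm_num)
  refine (STA_sum _ _ _ _ _).trans (le_of_eq ?_)
  unfold sg
  ring

theorem STA_exp (m : ℕ) : Real.exp (-(m : ℝ)) ≤ (1 / 2 : ℝ) ^ m := by
  have h1 : Real.exp (-(m : ℝ)) = Real.exp (-1) ^ m := by
    rw [← Real.exp_nat_mul]
    congr 1
    ring
  rw [h1]
  apply pow_le_pow_left₀ (Real.exp_pos _).le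
  have h2 := Real.add_one_le_exp (1 : ℝ)
  rw [Real.exp_neg, one_div]
  exact inv_anti₀ (by norm_num) (by linarith)

/-- A large family of nodes contains a star. -/
theorem Ok.no_star (hS : S.Ok) (F : Finset S.I) (b : ℕ)
    (hb : ∀ v ∈ F, (1 / 2 : ℝ) ^ b ≤ S.Q 0 v) (hF : 2 ^ (b + 3 * S.lm) ≤ F.card) :
    Pr (ker S.V (S.Q 0) (fun _ => none)) (fun ρ => ∀ v ∈ F, ρ v ≠ none) ≤
      (1 / 2 : ℝ) ^ (S.n ^ 3) := by
  have hμ : IsPr (ker S.V (S.Q 0) (fun _ => none)) :=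
    ker_isPr hS.V_nonempty (fun i => (Q_pos 0 i).le) (Q_le_one 0) _
  have h1 : Pr (ker S.V (S.Q 0) (fun _ => none)) (fun ρ => ∀ v ∈ F, ρ v ≠ none) =
      ∏ v ∈ F, (1 - S.Q 0 v) := by
    rw [pr_forall hμ F (fun _ r => r ≠ none)]
    refine Finset.prod_congr rfl fun v _ => ?_
    have h2 := hμ.sum v
    rw [sum_option, ker_star rfl] at h2
    rw [sum_option]
    have h3 : ind ((none : Option S.X) ≠ none) = 0 := ind_false (by simp)
    have h4 : ∀ a : S.X, ind ((some a : Option S.X) ≠ none) = 1 := fun a => ind_true (by simp)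
    rw [h3]
    simp only [h4, mul_one, mul_zero]
    linarith
  rw [h1]
  have hx0 : (0 : ℝ) ≤ 1 - (1 / 2 : ℝ) ^ b := by
    have : (1 / 2 : ℝ) ^ b ≤ 1 := pow_le_one₀ (by norm_num) (by norm_num)
    linarith
  have hx1 : 1 - (1 / 2 : ℝ) ^ b ≤ 1 := by
    have : (0 : ℝ) < (1 / 2 : ℝ) ^ b := by positivity
    linarith
  have h2 : ∏ v ∈ F, (1 - S.Q 0 v) ≤ (1 - (1 / 2 : ℝ) ^ b) ^ F.card := by
    rw [← Finset.prod_const]
    exact Finset.prod_le_prod (fun v _ => by linarith [Q_le_one (S := S) 0 v])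
      (fun v hv => by linarith [hb v hv])
  have h3 : (1 - (1 / 2 : ℝ) ^ b) ^ F.card ≤ (1 - (1 / 2 : ℝ) ^ b) ^ (2 ^ (b + 3 * S.lm)) :=
    pow_le_pow_of_le_one hx0 hx1 hF
  have h4 : 1 - (1 / 2 : ℝ) ^ b ≤ Real.exp (-(1 / 2 : ℝ) ^ b) := by
    have := Real.add_one_le_exp (-(1 / 2 : ℝ) ^ b)
    linarith
  have h5 : (1 - (1 / 2 : ℝ) ^ b) ^ (2 ^ (b + 3 * S.lm)) ≤
      Real.exp (-(1 / 2 : ℝ) ^ b) ^ (2 ^ (b + 3 * S.lm)) := pow_le_pow_left₀ hx0 h4 _
  have h6 : Real.exp (-(1 / 2 : ℝ) ^ b) ^ (2 ^ (b + 3 * S.lm)) =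
      Real.exp (-((2 ^ (3 * S.lm) : ℕ) : ℝ)) := by
    rw [← Real.exp_nat_mul]
    congr 1
    push_cast
    rw [pow_add, one_div, inv_pow]
    field_simp
  have h7 : S.n ^ 3 = 2 ^ (3 * S.lm) := by
    unfold n
    rw [← pow_mul]
    congr 1
    ring
  rw [h7]
  calc _ ≤ _ := h2
    _ ≤ _ := h3
    _ ≤ _ := h5
    _ = _ := h6
    _ ≤ _ := STA_exp _

theorem STA_Ps (S : Sg) (i : ℕ) : (S.Ps i).card ≤ 2 ^ ((S.n + 1) * i) := by
  induction i with
  | zero =>
    show ({[]} : Finset (List (List Bool))).card ≤ _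
    simp
  | succ i ih =>
    show ((S.Ps i).biUnion (fun ps => (strings (S.len ps)).image fun u => u :: ps)).card ≤ _
    refine Finset.card_biUnion_le.trans ?_
    calc ∑ ps ∈ S.Ps i, ((strings (S.len ps)).image fun u => u :: ps).card
        ≤ ∑ _ps ∈ S.Ps i, 2 ^ (S.n + 1) := by
          refine Finset.sum_le_sum fun ps _ => Finset.card_image_le.trans ?_
          rw [card_strings]
          apply Nat.pow_le_pow_right (by norm_num)
          unfold len
          split_ifs <;> omega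
      _ = (S.Ps i).card * 2 ^ (S.n + 1) := by rw [Finset.sum_const, smul_eq_mul]
      _ ≤ 2 ^ ((S.n + 1) * i) * 2 ^ (S.n + 1) := Nat.mul_le_mul_right _ ih
      _ = _ := by rw [← pow_add]; congr 1

theorem STA_geo (n m : ℕ) : ∑ i ∈ Finset.range m, 2 ^ ((n + 1) * i) ≤ 2 ^ ((n + 1) * m) := by
  induction m with
  | zero => simp
  | succ m ih =>
    rw [Finset.sum_range_succ]
    calc _ ≤ 2 ^ ((n + 1) * m) + 2 ^ ((n + 1) * m) := Nat.add_le_add_right ih _
      _ = 2 ^ ((n + 1) * m + 1) := by rw [pow_succ]; ring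
      _ ≤ _ := Nat.pow_le_pow_right (by norm_num) (by
          have : (n + 1) * (m + 1) = (n + 1) * m + (n + 1) := by ring
          omega)

theorem card_U (S : Sg) : S.U.card ≤ 2 ^ ((S.n + 1) * (S.k + 2)) := by
  unfold U
  refine Finset.card_image_le.trans ?_
  rw [Finset.card_product, card_strings]
  calc 2 ^ S.n * ((Finset.range (S.k + 1)).biUnion S.Ps).card
      ≤ 2 ^ (S.n + 1) * 2 ^ ((S.n + 1) * (S.k + 1)) := by
        apply Nat.mul_le_mul (Nat.pow_le_pow_right (by norm_num) (by omega))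
        refine Finset.card_biUnion_le.trans ?_
        exact (Finset.sum_le_sum fun i _ => STA_Ps S i).trans (STA_geo _ _)
    _ = _ := by rw [← pow_add]; congr 1; ring

end Sg

end Pool.Agent.H59.Er
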