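import Mathlib
import Pool.Agent.H59.Er.StarA

/-!
# Enough stars survive

Module STB (cite StarA.lean). If `Star ρ` fails then (a) no root is a star, or (b) there are
`v : S.I` of depth `< k` and `w` of length `2 jj` such that no child `(w ++ τ ++ 0..0) :: path v`
with `|w| + |τ| = aV v` is a star.
(a) `no_star` for the family of all roots (`2 ^ n` nodes, `aV = al k`,
`b = (K+1) (2 J al k + E sg)`, `b + 3 lm ≤ al (k+1) ≤ n` by definition of `alph`, so
`2 ^ (b + 3 lm) ≤ 2 ^ n`).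
(b) for given `v, w` the family of the children is the image of `strings (aV v - 2 jj)` under
`τ ↦ ⟨(k+1, y, (w ++ τ ++ 0..0) :: ps), _⟩` (injective; in `U` by `mem_U`, lengths `V_len`-like);
`aV v = al (k - depth v) = al (r+1)` with `r = k - depth v - 1`, `aV child = al r`, and
`al (r+1) = 2 jj + (K+1) (2 J al r + E sg) + 3 lm`, so with `b := (K+1) (2 J al r + E sg)` the family
has exactly `2 ^ (b + 3 lm)` elements. Union bound (`pr_or`, `pr_exists`, `pr_exists_le`): at most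
`1 + |U| 2^(2 jj)` events, `2 jj ≤ al (k+1) ≤ n`, total
`≤ (1 + 2 ^ ((n+1) (k+2)) 2 ^ n) (1/2)^(n^3) ≤ 1/2` as `n = 2 ^ lm ≥ lm ≥ k + 20`.
-/

set_option autoImplicit false
set_option linter.unusedSectionVars false

namespace Pool.Agent.H59.Er

open Pool.Agent.H9 Classical

namespace Sg

variable {S : Sg}

theorem STB_al_succ (S : Sg) (r : ℕ) :
    S.al (r + 1) = 2 * S.jj + ((S.K + 1) * (2 * S.J * S.al r + S.E * S.sg) + 3 * S.lm) := by
  show 2 * (7 + 3 * (S.lm * 2 ^ (S.J + 1))) +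
      (S.K + 1) * (2 * S.J * alph S.K S.E S.J S.lm r + S.E * (S.lm * 2 ^ (S.J + 1))) + 3 * S.lm = _
  unfold jj sg al
  ring

theorem STB_root_mem (S : Sg) {y : List Bool} (hy : y.length = S.n) : ((S.k + 1, y, []) : Nd) ∈ S.U :=
  S.mem_U.2 ⟨rfl, hy, Nat.zero_le _, trivial⟩

/-- The child of a node. -/
def STB_ch (S : Sg) (v : Nd) (w τ : List Bool) : Nd :=
  (S.k + 1, v.2.1, (w ++ τ ++ List.replicate (S.len v.2.2 - S.aV v) false) :: v.2.2)

theorem STB_ch_mem (hS : S.Ok) {v : Nd} (hv : v ∈ S.U) (hd : v.2.2.length < S.k) {w τ : List Bool}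
    (hw : w.length + τ.length = S.aV v) : STB_ch S v w τ ∈ S.U := by
  obtain ⟨h1, h2, h3, h4⟩ := S.mem_U.1 hv
  refine S.mem_U.2 ⟨rfl, h2, ?_, ?_, h4⟩
  · show (_ :: v.2.2).length ≤ S.k
    rw [List.length_cons]
    omega
  · have h5 := hS.aV_le v
    have h6 := S.n_le_len v.2.2
    rw [List.length_append, List.length_append, List.length_replicate, hw]
    have h7 : S.aV v + (S.len v.2.2 - S.aV v) = S.len v.2.2 := by omega
    rw [h7]
    rfl

theorem STB_prob (hS : S.Ok) : IsPr (ker S.V (S.Q 0) (fun _ => none)) :=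
  ker_isPr hS.V_nonempty (fun v => (Q_pos 0 v).le) (fun v => Q_le_one 0 v) _

/-- No root is a star. -/
theorem STB_roots (hS : S.Ok) :
    Pr (ker S.V (S.Q 0) (fun _ => none)) (fun ρ =>
      ∀ v ∈ (Finset.univ : Finset S.I).filter (fun v => v.1.2.2 = []), ρ v ≠ none) ≤
      (1 / 2 : ℝ) ^ (S.n ^ 3) := by
  refine hS.no_star _ ((S.K + 1) * (2 * S.J * S.al S.k + S.E * S.sg)) ?_ ?_
  · intro v hv
    rw [Finset.mem_filter] at hv
    have h1 := Q_ge v
    have h2 : S.aV v.1 = S.al S.k := by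
      unfold aV
      rw [hv.2, List.length_nil, Nat.sub_zero]
    rwa [h2] at h1
  · have h1 : (S.K + 1) * (2 * S.J * S.al S.k + S.E * S.sg) + 3 * S.lm ≤ S.n := by
      have h2 := hS.alp
      rw [STB_al_succ] at h2
      omega
    calc 2 ^ ((S.K + 1) * (2 * S.J * S.al S.k + S.E * S.sg) + 3 * S.lm) ≤ 2 ^ S.n :=
          Nat.pow_le_pow_right (by norm_num) h1
      _ = (strings S.n).card := (card_strings _).symm
      _ = (strings S.n).attach.card := (Finset.card_attach).symm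
      _ ≤ _ := by
        refine Finset.card_le_card_of_injOn
          (fun y => (⟨(S.k + 1, y.1, []), STB_root_mem S (mem_strings.1 y.2)⟩ : S.I)) ?_ ?_
        · intro y _
          rw [Finset.mem_coe, Finset.mem_filter]
          exact ⟨Finset.mem_univ _, rfl⟩
        · intro y _ y' _ h
          have h3 := congrArg (fun z : S.I => z.1.2.1) h
          exact Subtype.ext h3

/-- No child of a given node is a star. -/
theorem STB_children (hS : S.Ok) (v : S.I) (hd : v.1.2.2.length < S.k) (w : List Bool)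
    (hw : w.length = 2 * S.jj) :
    Pr (ker S.V (S.Q 0) (fun _ => none)) (fun ρ =>
      ∀ u ∈ (Finset.univ : Finset S.I).filter
        (fun u => ∃ τ : List Bool, w.length + τ.length = S.aV v.1 ∧ u.1 = STB_ch S v.1 w τ), ρ u ≠ none) ≤
      (1 / 2 : ℝ) ^ (S.n ^ 3) := by
  obtain ⟨r, hr⟩ : ∃ r, S.k - v.1.2.2.length = r + 1 := ⟨S.k - v.1.2.2.length - 1, by omega⟩
  have haV : S.aV v.1 = S.al (r + 1) := by
    unfold aV
    rw [hr]
  have haV2 := haV
  rw [STB_al_succ] at haV2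
  refine hS.no_star _ ((S.K + 1) * (2 * S.J * S.al r + S.E * S.sg)) ?_ ?_
  · intro u hu
    rw [Finset.mem_filter] at hu
    obtain ⟨_, τ, hτ, hu2⟩ := hu
    have h1 := Q_ge u
    have h2 : S.aV u.1 = S.al r := by
      unfold aV
      rw [hu2]
      show S.al (S.k - (_ :: v.1.2.2).length) = _
      rw [List.length_cons]
      congr 1
      omega
    rwa [h2] at h1
  · have hlen : ∀ τ ∈ strings ((S.K + 1) * (2 * S.J * S.al r + S.E * S.sg) + 3 * S.lm),
        w.length + τ.length = S.aV v.1 := by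
      intro τ hτ
      rw [mem_strings] at hτ
      omega
    calc 2 ^ ((S.K + 1) * (2 * S.J * S.al r + S.E * S.sg) + 3 * S.lm)
        = (strings ((S.K + 1) * (2 * S.J * S.al r + S.E * S.sg) + 3 * S.lm)).card := (card_strings _).symm
      _ = (strings ((S.K + 1) * (2 * S.J * S.al r + S.E * S.sg) + 3 * S.lm)).attach.card :=
          (Finset.card_attach).symm
      _ ≤ _ := by
        refine Finset.card_le_card_of_injOn
          (fun τ => (⟨STB_ch S v.1 w τ.1, STB_ch_mem hS v.2 hd (hlen τ.1 τ.2)⟩ : S.I)) ?_ ?_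
        · intro τ _
          rw [Finset.mem_coe, Finset.mem_filter]
          exact ⟨Finset.mem_univ _, τ.1, hlen τ.1 τ.2, rfl⟩
        · intro τ _ τ' _ h
          have h3 := congrArg (fun z : S.I => z.1.2.2) h
          have h4 : (w ++ τ.1 ++ List.replicate (S.len v.1.2.2 - S.aV v.1) false) :: v.1.2.2 =
              (w ++ τ'.1 ++ List.replicate (S.len v.1.2.2 - S.aV v.1) false) :: v.1.2.2 := h3
          rw [List.cons.injEq] at h4
          exact Subtype.ext (List.append_cancel_left (List.append_cancel_right h4.1))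

theorem STB_num {n k : ℕ} (h : k + 21 ≤ n) :
    (1 / 2 : ℝ) ^ (n ^ 3) + (2 : ℝ) ^ ((n + 1) * (k + 2) + n) * (1 / 2 : ℝ) ^ (n ^ 3) ≤ 1 / 2 := by
  have h1 : (n + 1) * (k + 2) + n + 1 + 1 ≤ n ^ 3 := by
    have h2 : (n + 1) * (k + 2) ≤ (n + 1) * n := Nat.mul_le_mul_left _ (by omega)
    have h5 : 21 * (n * n) ≤ n ^ 3 := by
      have : n ^ 3 = n * (n * n) := by ring
      rw [this]
      exact Nat.mul_le_mul_right _ (by omega)
    have h6 : 21 * n ≤ n * n := Nat.mul_le_mul_right _ (by omega)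
    have h7 : (n + 1) * n = n * n + n := by ring
    omega
  have h3 : (2 : ℝ) ^ ((n + 1) * (k + 2) + n + 1 + 1) * (1 / 2 : ℝ) ^ (n ^ 3) ≤ 1 := by
    calc (2 : ℝ) ^ ((n + 1) * (k + 2) + n + 1 + 1) * (1 / 2 : ℝ) ^ (n ^ 3)
        ≤ 2 ^ (n ^ 3) * (1 / 2 : ℝ) ^ (n ^ 3) :=
          mul_le_mul_of_nonneg_right (pow_le_pow_right₀ (by norm_num) h1) (by positivity)
      _ = 1 := by rw [← mul_pow]; norm_num
  have h4 : (1 : ℝ) ≤ 2 ^ ((n + 1) * (k + 2) + n) := one_le_pow₀ (by norm_num)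
  have h5 : (0 : ℝ) < (1 / 2 : ℝ) ^ (n ^ 3) := by positivity
  rw [pow_succ, pow_succ] at h3
  nlinarith

/-- **Enough stars survive.** -/
theorem Ok.star0 (hS : S.Ok) :
    Pr (ker S.V (S.Q 0) (fun _ => none)) (fun ρ => ¬ S.Star ρ) ≤ 1 / 2 := by
  set μ := ker S.V (S.Q 0) (fun _ => none) with hμ
  have hPr : IsPr μ := STB_prob hS
  set T : Finset (S.I × List Bool) :=
    ((Finset.univ : Finset S.I).filter (fun v => v.1.2.2.length < S.k)) ×ˢ strings (2 * S.jj) with hT
  let EA : (S.I → Option S.X) → Prop := fun ρ =>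
    ∀ v ∈ (Finset.univ : Finset S.I).filter (fun v => v.1.2.2 = []), ρ v ≠ none
  let EB : S.I × List Bool → (S.I → Option S.X) → Prop := fun z ρ =>
    ∀ u ∈ (Finset.univ : Finset S.I).filter
        (fun u => ∃ τ : List Bool, z.2.length + τ.length = S.aV z.1.1 ∧ u.1 = STB_ch S z.1.1 z.2 τ), ρ u ≠ none
  have h1 : Pr μ (fun ρ => ¬ S.Star ρ) ≤ Pr μ (fun ρ => EA ρ ∨ ∃ z ∈ T, EB z ρ) := by
    refine pr_mono hPr fun ρ hρ => ?_
    unfold Star at hρ
    rw [not_and_or] at hρ
    rcases hρ with h | h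
    · left
      intro v hv
      rw [Finset.mem_filter] at hv
      obtain ⟨⟨D, y, ps⟩, hvU⟩ := v
      have h2 := (S.mem_U.1 hvU).1
      simp only at h2
      have h3 : ps = [] := hv.2
      subst h2
      subst h3
      intro h4
      exact h ⟨y, hvU, h4⟩
    · right
      push Not at h
      obtain ⟨v, hv, w, hw, h⟩ := h
      refine ⟨(v, w), ?_, ?_⟩
      · rw [hT, Finset.mem_product, Finset.mem_filter, mem_strings]
        exact ⟨⟨Finset.mem_univ _, hv⟩, hw⟩
      · intro u hu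
        rw [Finset.mem_filter] at hu
        obtain ⟨_, τ, hτ, hu2⟩ := hu
        obtain ⟨u, huU⟩ := u
        simp only at hu2
        subst hu2
        exact h τ hτ huU
  have h2 : Pr μ (fun ρ => ∃ z ∈ T, EB z ρ) ≤ T.card * (1 / 2 : ℝ) ^ (S.n ^ 3) := by
    refine pr_exists_le hPr T EB _ fun z hz => ?_
    rw [hT, Finset.mem_product, Finset.mem_filter, mem_strings] at hz
    exact STB_children hS z.1 hz.1.2 z.2 hz.2
  have h3 : Pr μ EA ≤ (1 / 2 : ℝ) ^ (S.n ^ 3) := STB_roots hS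
  have h4 : (T.card : ℝ) ≤ (2 : ℝ) ^ ((S.n + 1) * (S.k + 2) + S.n) := by
    have h5 : T.card ≤ 2 ^ ((S.n + 1) * (S.k + 2) + S.n) := by
      rw [hT, Finset.card_product, card_strings, pow_add]
      refine Nat.mul_le_mul ?_ ?_
      · refine (Finset.card_filter_le _ _).trans ?_
        rw [Finset.card_univ, Fintype.card_coe]
        exact card_U S
      · refine Nat.pow_le_pow_right (by norm_num) ?_
        have h6 := hS.alp
        rw [STB_al_succ] at h6
        omega
    exact_mod_cast h5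
  have h7 : S.k + 21 ≤ S.n := by
    have h8 := hS.big
    have h9 : S.lm < 2 ^ S.lm := Nat.lt_two_pow_self
    show S.k + 21 ≤ 2 ^ S.lm
    omega
  have h8 := STB_num h7
  have h9 : (T.card : ℝ) * (1 / 2 : ℝ) ^ (S.n ^ 3) ≤
      (2 : ℝ) ^ ((S.n + 1) * (S.k + 2) + S.n) * (1 / 2 : ℝ) ^ (S.n ^ 3) :=
    mul_le_mul_of_nonneg_right h4 (by positivity)
  refine h1.trans ((pr_or hPr _ _).trans ?_)
  linarith

end Sg

end Pool.Agent.H59.Er
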