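import Mathlib
import Pool.Agent.H59.Er.Tab

set_option autoImplicit false
set_option linter.unusedSectionVars false

/-!
# The solver answers almost all questions of a stage
-/

namespace Pool.Agent.H59.Er

open Pool.Agent.H9 Classical

theorem hr_N_mono (h : Hr) {a b : ℕ} (hab : a ≤ b) : h.N a ≤ h.N b := by
  unfold Hr.N
  exact Nat.pow_le_pow_left (by omega) _

/-- The sampled string depends only on short oracle bits. -/
theorem str_congr {h : Hr} {A A' : Oracle} {n L : ℕ} {r : List Bool} (hr : r.length = h.m n)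
    (hL : h.ax n ≤ L) (hA : ∀ w : List Bool, w.length ≤ L → A w = A' w) :
    h.str A n r = h.str A' n r := by
  unfold Hr.str
  rw [run_congr (A := A) (B := A') hA]
  rw [totalLength_inp, hr]
  exact hL

theorem str_len (h : Hr) (A : Oracle) (n : ℕ) {r : List Bool} (hr : r.length = h.m n) :
    (h.str A n r).length ≤ h.ax n := by
  unfold Hr.str
  refine (length_run _ _ _ _ 0).trans ?_
  rw [totalLength_inp, hr]
  exact le_rfl

theorem ax_le_bnd (q : Qn) (n : ℕ) : n ≤ q.bnd n := by
  unfold Qn.bnd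
  omega

namespace Sg

variable {S : Sg}

/-- The determination of a question depends only on short solver bits. -/
theorem det_congr {g : ℕ → Qn} {h : Hr} {κ κ' : Oracle} {ρ : S.I → Option S.X} {n L : ℕ}
    {r : List Bool} (hr : r.length = h.m n) (hL : (g h.1).bnd (h.ax n) ≤ L)
    (hκ : ∀ w : List Bool, w.length < L → κ w = κ' w) (hd : S.Det g h κ ρ n r) :
    S.Det g h κ' ρ n r := by
  have hA : ∀ (x : S.I → S.X) (w : List Bool), w.length ≤ L →
      comb (S.emb x) κ w = comb (S.emb x) κ' w :=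
    fun x w hw => comb_congr (fun _ _ => rfl) hκ w hw
  have h1 : ∀ x : S.I → S.X, h.str (comb (S.emb x) κ) n r = h.str (comb (S.emb x) κ') n r :=
    fun x => str_congr hr ((ax_le_bnd _ _).trans hL) (hA x)
  obtain ⟨⟨o, ho⟩, ⟨P, hP⟩⟩ := hd
  refine ⟨⟨o, fun x hx => ?_⟩, ⟨P, fun x hx => ?_⟩⟩
  · exact (h1 x).symm.trans (ho x hx)
  · rw [← hP x hx]
    show (g h.1).ans (comb (S.emb x) κ') (h.str (comb (S.emb x) κ') n r) = _
    rw [← h1 x]
    apply propext
    apply Qn.ans_congr
    intro v hv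
    refine (hA x v ?_).symm
    exact hv.trans (((g h.1).bnd_mono (str_len h _ n hr)).trans hL)

/-- Questions with short computations are determined. -/
theorem det_small {g : ℕ → Qn} {h : Hr} {κ : Oracle} {ρ : S.I → Option S.X} {n : ℕ}
    {r : List Bool} (hr : r.length = h.m n) (hL : (g h.1).bnd (h.ax n) ≤ S.n) :
    S.Det g h κ ρ n r := by
  by_cases hne : ∃ x, x ∈ Wd S.V ρ
  · obtain ⟨x0, _⟩ := hne
    have hA : ∀ (x : S.I → S.X) (w : List Bool), w.length ≤ S.n →
        comb (S.emb x) κ w = comb (S.emb x0) κ w :=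
      fun x w hw => comb_congr (fun v hv => by rw [emb_of_lt hv, emb_of_lt hv]) (fun _ _ => rfl) w hw
    have h1 : ∀ x : S.I → S.X, h.str (comb (S.emb x) κ) n r = h.str (comb (S.emb x0) κ) n r :=
      fun x => str_congr hr ((ax_le_bnd _ _).trans hL) (hA x)
    refine ⟨⟨h.str (comb (S.emb x0) κ) n r, fun x _ => h1 x⟩,
      ⟨(g h.1).ans (comb (S.emb x0) κ) (h.str (comb (S.emb x0) κ) n r), fun x _ => ?_⟩⟩
    show (g h.1).ans (comb (S.emb x) κ) (h.str (comb (S.emb x) κ) n r) = _
    rw [h1 x]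
    apply propext
    apply Qn.ans_congr
    intro v hv
    refine hA x v ?_
    exact hv.trans (((g h.1).bnd_mono (str_len h _ n hr)).trans hL)
  · push Not at hne
    exact ⟨⟨[], fun x hx => absurd hx (hne x)⟩, ⟨True, fun x hx => absurd hx (hne x)⟩⟩

/-- Determined questions are answered. -/
theorem Ok.use (hS : S.Ok) (g : ℕ → Qn) (hs : ℕ → Hr) {m0 : ℕ} 
    (hcoh : ∀ v N, m0 ≤ N → S.T0.A v N = {S.T0.W v}) {ch : S.Ch}
    (hLv : ∀ i, 1 ≤ i → i ≤ S.J → S.Lv g hs (kap g (S.tab ch)) (ch i) i) {x : S.I → S.X}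
    (hx : ∀ i, x ∈ Wd S.V (ch i)) {T : Tbl} (hA : T.A = S.tab ch) (hW : T.W = S.emb x) :
    GoodE g hs S.s m0 (S.thr (S.J + 1)) (orc g T) := by
  have horc : orc g T = comb (S.emb x) (kap g (S.tab ch)) := by
    unfold orc
    rw [hA, hW]
  intro j hj hok n l hN1 hN2
  set h := hs j with hh
  set N := h.N (n + l) with hN
  have hNN : ((g h.1).bnd (h.ax n) + 2) ^ 2 ≤ N := (hok n).trans (hr_N_mono h (by omega))
  -- determined questions are answered
  have key : ∀ r : List Bool, r.length = h.m n →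
      S.Det g h (kap g (S.tab ch)) (ch (S.sc N)) n r → ¬ Unk h (orc g T) n l r := by
    intro r hr hd hunk
    obtain ⟨⟨o, ho⟩, ⟨P, hP⟩⟩ := hd
    rw [horc] at hunk
    have ho1 : h.str (comb (S.emb x) (kap g (S.tab ch))) n r = o := ho x (hx _)
    have h1 := hunk (decide P)
    rw [ho1] at h1
    apply h1
    show kap g (S.tab ch) (decide P :: code h.1 o N) = true
    rw [kap_code]
    constructor
    · refine le_trans (Nat.pow_le_pow_left ?_ 2) hNN
      apply Nat.add_le_add_right
      apply Qn.bnd_mono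
      rw [← ho1]
      exact str_len h _ n hr
    · intro W hWd
      rw [mem_wd_tab hcoh hN1] at hWd
      obtain ⟨x', hx', rfl⟩ := hWd
      rw [decide_eq_true_iff]
      have h2 := hP x' hx'
      have h3 := ho x' hx'
      simp only at h2 h3
      rw [h3] at h2
      rw [h2]
  have hsc : S.sc N < S.J + 1 := S.sc_lt (by omega) hN2
  have hle : (strings (h.m n)).filter (fun r => Unk h (orc g T) n l r) ⊆
      (strings (h.m n)).filter (fun r => ¬ S.Det g h (kap g (S.tab ch)) (ch (S.sc N)) n r) := by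
    intro r hr
    rw [Finset.mem_filter] at hr ⊢
    exact ⟨hr.1, fun hd => key r (mem_strings.1 hr.1) hd hr.2⟩
  refine le_trans (Nat.mul_le_mul_left _ (Finset.card_le_card hle)) ?_
  rcases Nat.eq_zero_or_pos (S.sc N) with h0 | h0
  · have hlt : N < S.thr 1 := by
      have := S.lt_thr_succ hS.one_le (N := N)
      rwa [h0] at this
    have hb : (g h.1).bnd (h.ax n) + 2 < S.n := by
      rw [S.thr_succ 0, S.thr_zero] at hlt
      exact lt_of_pow_lt_pow_left₀ 2 (by omega) (lt_of_le_of_lt hNN hlt)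
    have hemp : (strings (h.m n)).filter
        (fun r => ¬ S.Det g h (kap g (S.tab ch)) (ch (S.sc N)) n r) = ∅ := by
      rw [Finset.filter_eq_empty_iff]
      intro r hr hd
      exact hd (det_small (mem_strings.1 hr) (by omega))
    rw [hemp, Finset.card_empty, Nat.mul_zero]
    exact Nat.zero_le _
  · exact hLv (S.sc N) h0 (by omega) j hj hok n l rfl

end Sg

end Pool.Agent.H59.Er
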