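import Mathlib
import Pool.Agent.H59.Er.Scale
import Pool.Agent.H59.Er.StarE
import Pool.Agent.H59.Er.Use

set_option autoImplicit false
set_option linter.unusedSectionVars false

/-!
# The chain of partial assignments
-/

namespace Pool.Agent.H59.Er

open Pool.Agent.H9 Classical

theorem eq_of_pos_one {I X : Type} [Fintype I] [Fintype X] {V : I → Finset X} {q : I → ℝ}
    (hq : ∀ i, q i = 1) {ρ ρ' : I → Option X} (h : ∏ i, ker V q ρ i (ρ' i) ≠ 0) : ρ' = ρ := by
  funext i
  have h1 : ker V q ρ i (ρ' i) ≠ 0 := fun h0 => h (Finset.prod_eq_zero (Finset.mem_univ i) h0)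
  cases hρ : ρ i with
  | none =>
    cases hρ' : ρ' i with
    | none => rfl
    | some a =>
      exfalso
      apply h1
      rw [hρ', ker_star_some hρ, hq i]
      simp
  | some b =>
    cases hρ' : ρ' i with
    | none =>
      exfalso
      apply h1
      rw [hρ', ker_fix_none hρ]
    | some a =>
      by_cases hab : a = b
      · rw [hab]
      · exfalso
        apply h1
        rw [hρ', ker_fix_some hρ, if_neg hab]

namespace Sg

variable {S : Sg}

/-- The property of a scale depends only on short solver bits. -/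
theorem Ok.lv_congr (hS : S.Ok) (g : ℕ → Qn) (hs : ℕ → Hr) {κ κ' : Oracle}
    (ρ : S.I → Option S.X) {i : ℕ} (h : ∀ w : List Bool, w.length ≤ S.thr i →
      κ w = κ' w) : S.Lv g hs κ ρ i → S.Lv g hs κ' ρ i := by
  intro hL j hj hok n l hsc
  refine le_trans (Nat.mul_le_mul_left _ (Finset.card_le_card ?_)) (hL j hj hok n l hsc)
  intro r hr
  rw [Finset.mem_filter] at hr ⊢
  refine ⟨hr.1, fun hd => hr.2 ?_⟩
  refine det_congr (L := S.thr i) (mem_strings.1 hr.1) ?_ (fun w hw => h w hw.le) hd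
  have h1 := (hok n).trans (hr_N_mono (hs j) (show n ≤ n + l by omega))
  have h2 := S.lt_thr_succ hS.one_le (N := (hs j).N (n + l))
  rw [hsc, S.thr_succ] at h2
  have h3 : (g (hs j).1).bnd ((hs j).ax n) + 2 < S.thr i :=
    lt_of_pow_lt_pow_left₀ 2 (by omega) (lt_of_le_of_lt h1 h2)
  omega

/-- **The chain.** -/
theorem Ok.chain (hS : S.Ok) (g : ℕ → Qn) (hs : ℕ → Hr)
    (hK : ∀ j < S.s, (g (hs j).1).k ≤ S.K) :
    ∃ ch : S.Ch, (∀ i, Ref S.V (fun _ => none) (ch i)) ∧
      (∀ i, Ref S.V (ch i) (ch (i + 1))) ∧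
      (∀ i, S.J ≤ i → ch i = ch S.J) ∧ S.Star (ch S.J) ∧
      ∀ i, 1 ≤ i → i ≤ S.J → S.Lv g hs (kap g (S.tab ch)) (ch i) i := by
  have hV := hS.V_nonempty
  have key : ∀ i, i ≤ S.J → ∃ ch : S.Ch, (∀ i', Ref S.V (fun _ => none) (ch i')) ∧
      (∀ i', Ref S.V (ch i') (ch (i' + 1))) ∧
      (∀ i', i ≤ i' → ch i' = ch i) ∧
      (∀ i', 1 ≤ i' → i' ≤ i → S.Lv g hs (kap g (S.tab ch)) (ch i') i') ∧
      Pr (ker S.V (S.Q i) (ch i)) (fun ρ => ¬ S.Star ρ) ≤ 3 / 4 - (1 / 2 : ℝ) ^ (i + 2) := by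
    intro i
    induction i with
    | zero =>
      intro _
      refine ⟨fun _ _ => none, fun i' => Ref.refl _ _, fun i' => Ref.refl _ _, fun _ _ => rfl,
        fun i' h1 h2 => by omega, ?_⟩
      have h := hS.star0
      norm_num
      exact h
    | succ i ih =>
      intro hi
      obtain ⟨ch, h0, h1, h2, h3, h4⟩ := ih (by omega)
      set κ := kap g (S.tab ch) with hκ
      set pp : S.I → ℝ := fun v => S.p (i + 1) v ^ (S.K + 1) with hpp
      have hpp0 : ∀ v, 0 ≤ pp v := fun v => (pow_pos (p_pos (i + 1) v) _).le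
      have hpp1 : ∀ v, pp v ≤ 1 := fun v => pow_le_one₀ (p_pos (i + 1) v).le (p_le_one (i + 1) v)
      have hQ : (fun v => pp v * S.Q (i + 1) v) = S.Q i := by
        funext v
        show S.p (i + 1) v ^ (S.K + 1) * ∏ j ∈ Finset.Ico (i + 1 + 1) (S.J + 1),
          S.p j v ^ (S.K + 1) = ∏ j ∈ Finset.Ico (i + 1) (S.J + 1), S.p j v ^ (S.K + 1)
        rw [Finset.prod_eq_prod_Ico_succ_bot (show i + 1 < S.J + 1 by omega)]
      have hsc := hS.scale g hs hK κ (ch i) (i := i + 1) (by omega)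
      have hE : Ex (ker S.V pp (ch i)) (fun ρ => Pr (ker S.V (S.Q (i + 1)) ρ)
          (fun ρ => ¬ S.Star ρ) + ind (¬ S.Lv g hs κ ρ (i + 1))) ≤
          3 / 4 - (1 / 2 : ℝ) ^ (i + 3) := by
        rw [ex_add, pr_comp hV, hQ]
        have h5 : Ex (ker S.V pp (ch i)) (fun ρ => ind (¬ S.Lv g hs κ ρ (i + 1))) =
          Pr (ker S.V pp (ch i)) (fun ρ => ¬ S.Lv g hs κ ρ (i + 1)) := rfl
        rw [h5]
        have h6 : (1 / 2 : ℝ) ^ (i + 2) = 2 * (1 / 2 : ℝ) ^ (i + 3) := by
          rw [pow_succ _ (i + 2)]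
          ring
        have h7 : (1 / 2 : ℝ) ^ (i + 1 + 2) = (1 / 2 : ℝ) ^ (i + 3) := by ring_nf
        rw [h7] at hsc
        linarith
      obtain ⟨ρ', h5, h6⟩ := exists_le_ex (ker_isPr hV hpp0 hpp1 (ch i)) _ _ hE
      have hpos : (0 : ℝ) < (1 / 2 : ℝ) ^ (i + 3) := by positivity
      have hPr0 : 0 ≤ Pr (ker S.V (S.Q (i + 1)) ρ') (fun ρ => ¬ S.Star ρ) :=
        pr_nonneg (ker_isPr hV (fun v => (Q_pos (i + 1) v).le) (Q_le_one (i + 1)) ρ') _
      have hLv : S.Lv g hs κ ρ' (i + 1) := by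
        by_contra hcon
        rw [ind_true hcon] at h5
        linarith
      rw [ind_false (not_not.2 hLv), add_zero] at h5
      have hRef : Ref S.V (ch i) ρ' := ref_of_pos h6.ne'
      refine ⟨fun i' => if i' ≤ i then ch i' else ρ', ?_, ?_, ?_, ?_, ?_⟩
      · intro i'
        show Ref S.V (fun _ => none) (if i' ≤ i then ch i' else ρ')
        by_cases ha : i' ≤ i
        · rw [if_pos ha]
          exact h0 i'
        · rw [if_neg ha]
          exact (h0 i).trans hRef
      · intro i'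
        show Ref S.V (if i' ≤ i then ch i' else ρ') (if i' + 1 ≤ i then ch (i' + 1) else ρ')
        by_cases ha : i' + 1 ≤ i
        · rw [if_pos ha, if_pos (by omega)]
          exact h1 i'
        · rw [if_neg ha]
          by_cases hb : i' ≤ i
          · rw [if_pos hb]
            have : i' = i := by omega
            rw [this]
            exact hRef
          · rw [if_neg hb]
            exact Ref.refl _ _
      · intro i' hi'
        show (if i' ≤ i then ch i' else ρ') = (if i + 1 ≤ i then ch (i + 1) else ρ')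
        rw [if_neg (by omega), if_neg (by omega)]
      · intro i' hi1 hi2
        have hcong : ∀ w : List Bool, w.length ≤ S.thr i' → κ w =
            kap g (S.tab (fun i' => if i' ≤ i then ch i' else ρ')) w := by
          intro w hw
          apply hS.kap_congr g hi1 _ w hw
          intro i'' hi''
          show ch i'' = if i'' ≤ i then ch i'' else ρ'
          rw [if_pos (by omega)]
        apply hS.lv_congr g hs _ hcong
        show S.Lv g hs κ (if i' ≤ i then ch i' else ρ') i'
        by_cases ha : i' ≤ i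
        · rw [if_pos ha]
          exact h3 i' hi1 ha
        · rw [if_neg ha]
          have : i' = i + 1 := by omega
          rw [this]
          exact hLv
      · show Pr (ker S.V (S.Q (i + 1)) (if i + 1 ≤ i then ch (i + 1) else ρ'))
          (fun ρ => ¬ S.Star ρ) ≤ _
        rw [if_neg (by omega)]
        exact h5
  obtain ⟨ch, h0, h1, h2, h3, h4⟩ := key S.J le_rfl
  refine ⟨ch, h0, h1, h2, ?_, h3⟩
  have hQ1 : ∀ v, S.Q S.J v = 1 := by
    intro v
    unfold Q
    rw [Finset.Ico_self, Finset.prod_empty]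
  obtain ⟨ρ', h5, h6⟩ := exists_le_ex (ker_isPr hV (fun v => (Q_pos S.J v).le) (Q_le_one S.J)
    (ch S.J)) _ _ h4
  have h7 : ρ' = ch S.J := eq_of_pos_one hQ1 h6.ne'
  rw [h7] at h5
  by_contra hcon
  rw [ind_true hcon] at h5
  have hpos : (0 : ℝ) < (1 / 2 : ℝ) ^ (S.J + 2) := by positivity
  linarith

end Sg

end Pool.Agent.H59.Er
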