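import Mathlib
import Pool.Agent.H59.Er.World
import Pool.Agent.H59.Er.LB

set_option autoImplicit false
set_option linter.unusedSectionVars false

/-!
# Pointer functions from killer trees
-/

namespace Pool.Agent.H59.Er

open Pool.Agent.H9 Classical

variable {W : Type}

/-- The reversed path of blocks which belongs to a path of names; `c ps w` is the block chosen for
the name `w` below the node `ps`. -/
def pth (c : List (List Bool) → W → List Bool) : (i : ℕ) → Path W i → List (List Bool)
  | 0, _ => []
  | i + 1, (p, w) => c (pth c i p) w :: pth c i p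

theorem pth_length (c : List (List Bool) → W → List Bool) : ∀ (i : ℕ) (p : Path W i),
    (pth c i p).length = i := by
  intro i
  induction i with
  | zero => intro p; rfl
  | succ i ih =>
    rintro ⟨p, w⟩
    show (c (pth c i p) w :: pth c i p).length = i + 1
    rw [List.length_cons, ih]

theorem pth_injective (c : List (List Bool) → W → List Bool) : ∀ (i : ℕ),
    (∀ i' < i, ∀ p : Path W i', Function.Injective (c (pth c i' p))) →
    Function.Injective (pth c i) := by
  intro i
  induction i with
  | zero => intro _ p p' _; rfl
  | succ i ih =>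
    rintro h ⟨p, w⟩ ⟨p', w'⟩ hp
    have h1 : c (pth c i p) w :: pth c i p = c (pth c i p') w' :: pth c i p' := hp
    rw [List.cons.injEq] at h1
    have h2 : p = p' := ih (fun i' hi' => h i' (by omega)) h1.2
    subst h2
    have h3 : w = w' := h i (by omega) p h1.1
    rw [h3]

/-- **Pointer functions from killer trees.** -/
theorem tg_ptr (labW : W → Bool) (c : List (List Bool) → W → List Bool) : ∀ (k : ℕ),
    (0 < k → ∀ w, (c [] w).head? = some (labW w)) →
    (∀ i < k, ∀ p : Path W i, Function.Injective (c (pth c i p))) →
    ∀ {J : Type} (labJ : J → Bool) (s : List (List Bool) → J → List Bool)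
      (_ : ∀ p : Path W k, Function.Injective (s (pth c k p)))
      (_ : k = 0 → ∀ j, (s [] j).head? = some (labJ j))
      (x : Path W k × J → Bool) (b : Bool), TG labW k labJ x b →
      ∃ pt : List (List Bool) → List Bool,
        (∀ i < k, ∀ p : Path W i, ∃ w, pt (pth c i p) = c (pth c i p) w) ∧
        (∀ p : Path W k, ∃ j, pt (pth c k p) = s (pth c k p) j) ∧
        (∀ p j, alive pt (s (pth c k p) j :: pth c k p) = x (p, j)) ∧
        (pt []).head? = some b := by
  intro k
  induction k with
  | zero =>
    intro _ _ J labJ s hs hsl x b hT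
    obtain ⟨j0, h1, h2⟩ := hT
    refine ⟨fun _ => s [] j0, fun i hi => by omega, fun p => ⟨j0, rfl⟩, ?_, ?_⟩
    · intro p j
      show (!false && decide (s [] j0 = s [] j)) = x (p, j)
      have h3 : Function.Injective (s []) := hs p
      rw [Bool.eq_iff_iff, Bool.not_false, Bool.true_and, decide_eq_true_iff, h1 p j, h3.eq_iff]
      exact eq_comm
    · rw [hsl rfl j0, h2]
  | succ k ih =>
    intro hcl hc J labJ s hs hsl x b hT
    obtain ⟨z, hz, κ, hκ⟩ := hT
    obtain ⟨pt', h1, h2, h3, h4⟩ := ih (fun _ => hcl (Nat.succ_pos k))
      (fun i hi => hc i (by omega)) labW c (hc k (by omega)) (fun _ => hcl (Nat.succ_pos k)) z b hz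
    have hinj := pth_injective c (k + 1) hc
    let pt : List (List Bool) → List Bool := fun ps =>
      if h : ∃ v : Path W (k + 1), pth c (k + 1) v = ps then s ps (κ h.choose) else pt' ps
    have hpt1 : ∀ v : Path W (k + 1), pt (pth c (k + 1) v) = s (pth c (k + 1) v) (κ v) := by
      intro v
      have hex : ∃ v' : Path W (k + 1), pth c (k + 1) v' = pth c (k + 1) v := ⟨v, rfl⟩
      show (if h : ∃ v' : Path W (k + 1), pth c (k + 1) v' = pth c (k + 1) v then
        s (pth c (k + 1) v) (κ h.choose) else pt' (pth c (k + 1) v)) = _
      rw [dif_pos hex, hinj hex.choose_spec]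
    have hpt2 : ∀ ps : List (List Bool), ps.length < k + 1 → pt ps = pt' ps := by
      intro ps hps
      show (if h : ∃ v' : Path W (k + 1), pth c (k + 1) v' = ps then
        s ps (κ h.choose) else pt' ps) = _
      rw [dif_neg]
      rintro ⟨v', hv'⟩
      have := pth_length c (k + 1) v'
      rw [hv'] at this
      omega
    refine ⟨pt, ?_, fun v => ⟨κ v, hpt1 v⟩, ?_, ?_⟩
    · intro i hi p
      rw [hpt2 _ (by rw [pth_length]; exact hi)]
      by_cases hik : i < k
      · exact h1 i hik p
      · have : i = k := by omega
        subst this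
        exact h2 p
    · intro v j
      show (!alive pt (pth c (k + 1) v) && decide (pt (pth c (k + 1) v) = s (pth c (k + 1) v) j)) =
        x (v, j)
      have h5 : alive pt (pth c (k + 1) v) = z v := by
        rw [alive_congr (pt' := pt') (pth c (k + 1) v)
          (fun qs hqs => hpt2 qs (by rw [pth_length] at hqs; exact hqs))]
        obtain ⟨p, w⟩ := v
        exact h3 p w
      rw [h5, hpt1 v, Bool.eq_iff_iff, hκ v j, Bool.and_eq_true, decide_eq_true_iff,
        (hs v).eq_iff, Bool.not_eq_true']
    · rw [hpt2 [] (by simp)]
      exact h4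

/-- Alternating formulas of functions of a class. -/
theorem lv_alt {Y : Type} {m : ℕ} {B : (Y → Prop) → Prop} : ∀ (k : ℕ) (e : Bool)
    (φ : List (List Bool) → Y → Prop),
    (∀ us : List (List Bool), us.map List.length = List.replicate k m → B (φ us)) →
    Lv m B e k (fun y => Alt e k m (fun us => φ us y)) := by
  intro k
  induction k with
  | zero =>
    intro e φ h
    cases e <;> exact h [] rfl
  | succ k ih =>
    intro e φ h
    have hrec : ∀ (e' : Bool) (u : List.Vector Bool m),
        Lv m B e' k (fun y => Alt e' k m (fun us => φ (u.1 :: us) y)) := by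
      intro e' u
      apply ih
      intro us hus
      apply h
      rw [List.map_cons, hus, u.2, List.replicate_succ]
    cases e with
    | true =>
      refine ⟨fun u y => Alt false k m (fun us => φ (u.1 :: us) y), fun u => hrec false u, ?_⟩
      intro y
      constructor
      · rintro ⟨u, hu, h1⟩
        exact ⟨⟨u, hu⟩, h1⟩
      · rintro ⟨u, h1⟩
        exact ⟨u.1, u.2, h1⟩
    | false =>
      refine ⟨fun u y => Alt true k m (fun us => φ (u.1 :: us) y), fun u => hrec true u, ?_⟩
      intro y
      constructor
      · intro h1 u
        exact h1 u.1 u.2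
      · intro h1 u hu
        exact h1 ⟨u, hu⟩

end Pool.Agent.H59.Er
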