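import Mathlib
import Pool.Agent.H9.Hier
import Pool.Agent.H59.Er.LB

set_option autoImplicit false
set_option linter.unusedSectionVars false

/-!
# The lower bound with numbers
-/

namespace Pool.Agent.H59.Er

open Pool.Agent.H9 Classical

/-- names of `j` bits -/
abbrev Nm (j : ℕ) : Type := {u : List Bool // u ∈ strings j}

/-- the label of a name -/
def Nm.lab {j : ℕ} (u : Nm j) : Bool := u.1.headD false

theorem Nm.card (j : ℕ) : Fintype.card (Nm j) = 2 ^ j := by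
  rw [Fintype.card_coe, card_strings]

theorem Nm.nonempty (j : ℕ) : Nonempty (Nm j) :=
  ⟨⟨List.replicate j false, mem_strings.2 List.length_replicate⟩⟩

theorem Nm.card_lab (j : ℕ) (b : Bool) :
    2 ^ j ≤ ((Finset.univ : Finset (Nm (j + 1))).filter (fun u => u.lab = b)).card := by
  rw [← card_strings j]
  apply Finset.card_le_card_of_injOn
    (fun u => if h : b :: u ∈ strings (j + 1) then (⟨b :: u, h⟩ : Nm (j + 1))
      else Classical.choice (Nm.nonempty (j + 1)))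
  · intro u hu
    have h : b :: u ∈ strings (j + 1) := by
      rw [mem_strings, List.length_cons, mem_strings.1 hu]
    simp only [dif_pos h, Finset.coe_filter, Finset.mem_univ, true_and, Set.mem_ofPred_eq]
    rfl
  · intro u hu v hv huv
    have h : b :: u ∈ strings (j + 1) := by
      rw [mem_strings, List.length_cons, mem_strings.1 hu]
    have h' : b :: v ∈ strings (j + 1) := by
      rw [mem_strings, List.length_cons, mem_strings.1 hv]
    simp only [dif_pos h, dif_pos h', Subtype.mk.injEq, List.cons.injEq, true_and] at huv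
    exact huv

theorem sigma_ineq {σ : ℕ} (h : 20 ≤ σ) : (14 + 6 * σ) * σ + 3 ≤ 2 ^ σ := by
  induction σ, h using Nat.le_induction with
  | base => norm_num
  | succ σ hσ ih =>
    rw [pow_succ]
    nlinarith

theorem one_sub_pow_le {x : ℝ} (h1 : x ≤ 1) (N : ℕ) :
    (1 - x) ^ N ≤ Real.exp (-(x * N)) := by
  have h2 : 1 - x ≤ Real.exp (-x) := by
    have := Real.add_one_le_exp (-x)
    linarith
  calc (1 - x) ^ N ≤ Real.exp (-x) ^ N := pow_le_pow_left₀ (by linarith) h2 N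
    _ = Real.exp (-(x * N)) := by
        rw [← Real.exp_nat_mul]
        congr 1
        ring

theorem exp_neg_le_half_pow (M : ℕ) : Real.exp (-(M : ℝ)) ≤ (1 / 2 : ℝ) ^ M := by
  have h1 : Real.exp (-1) ≤ 1 / 2 := by
    rw [Real.exp_neg, inv_le_comm₀ (Real.exp_pos 1) (by norm_num)]
    have := Real.exp_one_gt_d9
    norm_num
    linarith
  calc Real.exp (-(M : ℝ)) = Real.exp (-1) ^ M := by
        rw [← Real.exp_nat_mul]
        congr 1
        ring
    _ ≤ (1 / 2 : ℝ) ^ M := pow_le_pow_left₀ (Real.exp_pos _).le h1 M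

/-- **The lower bound with numbers.** -/
theorem hard_num {σ k q t : ℕ} (hk : k + 20 ≤ σ) (hqt : k * (q + 1) + t ≤ 2 ^ σ) (e : Bool)
    (f : (Path (Nm (7 + 3 * σ) × Nm (7 + 3 * σ)) k × Nm (7 + 3 * σ) → Bool) → Prop)
    (hf : Lv q (fun F => DT (2 ^ σ) F) e k f) :
    ∃ (x : Path (Nm (7 + 3 * σ) × Nm (7 + 3 * σ)) k × Nm (7 + 3 * σ) → Bool) (b : Bool),
      TG (fun w : Nm (7 + 3 * σ) × Nm (7 + 3 * σ) => w.1.lab) k Nm.lab x b ∧
        ¬ (f x ↔ b = true) := by
  have := Nm.nonempty (7 + 3 * σ)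
  set s : ℕ := 2 ^ σ with hs
  set qq : ℝ := (1 / 2 : ℝ) ^ (6 + 2 * σ) with hqq
  set β : ℝ := (1 / 2 : ℝ) ^ (7 + 2 * σ) with hβ
  have hq0 : 0 < qq := by positivity
  have hβ0 : 0 < β := by positivity
  have hq1 : qq ≤ 1 / 2 := by
    calc qq ≤ (1 / 2 : ℝ) ^ 1 := pow_le_pow_of_le_one (by norm_num) (by norm_num) (by omega)
      _ = 1 / 2 := by norm_num
  have hβ1 : β ≤ 1 / 2 := by
    calc β ≤ (1 / 2 : ℝ) ^ 1 := pow_le_pow_of_le_one (by norm_num) (by norm_num) (by omega)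
      _ = 1 / 2 := by norm_num
  have hhalf : ∀ a b : ℕ, (2 : ℝ) ^ (a + b) * (1 / 2 : ℝ) ^ a = 2 ^ b := by
    intro a b
    rw [pow_add, mul_comm ((2 : ℝ) ^ a), mul_assoc, ← mul_pow]
    norm_num
  have hs' : (s : ℝ) = 2 ^ σ := by rw [hs]; push_cast; rfl
  have hnum : Num (Nm (7 + 3 * σ)) s qq β := by
    refine ⟨Nat.one_le_two_pow, hq0.le, hq1, hβ0.le, ?_, ?_⟩
    · rw [hs']
      have h1 : 128 * ((2 : ℝ) ^ σ) ^ 2 = 2 ^ ((7 + 2 * σ) + 0) := by
        rw [add_zero, pow_add, ← pow_mul, mul_comm σ 2]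
        norm_num
      rw [h1, hhalf]
      norm_num
    · rw [hs', Nm.card]
      push_cast
      have h1 : 64 * (2 : ℝ) ^ σ * qq * β * 2 ^ (7 + 3 * σ) =
          (2 ^ ((6 + 2 * σ) + (7 + 2 * σ)) * qq) * β := by
        have : (2 : ℝ) ^ ((6 + 2 * σ) + (7 + 2 * σ)) = 64 * 2 ^ σ * 2 ^ (7 + 3 * σ) := by
          have e1 : (6 + 2 * σ) + (7 + 2 * σ) = 6 + σ + (7 + 3 * σ) := by ring
          rw [e1, pow_add, pow_add]
          norm_num
        rw [this]
        ring
      rw [h1, hqq, hhalf, hβ, ← mul_pow]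
      norm_num
  have hlab : ∀ b, s < ((Finset.univ : Finset (Nm (7 + 3 * σ))).filter
      (fun j => Nm.lab j = b)).card := by
    intro b
    have h1 := Nm.card_lab (6 + 3 * σ) b
    have e1 : 6 + 3 * σ + 1 = 7 + 3 * σ := by ring
    rw [e1] at h1
    refine lt_of_lt_of_le ?_ h1
    exact Nat.pow_lt_pow_right (by norm_num) (by omega)
  refine hard (H := Nm (7 + 3 * σ)) Nm.lab hnum hlab k ?_ k le_rfl e f hf
  -- the numerical condition
  have hk1 : k * (q + 1) ≤ s := by omega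
  have h1 : (2 ^ q + 1 : ℝ) ^ k * (1 / 4 : ℝ) ^ (s + 1) ≤ 1 / 4 := by
    have h2 : (2 ^ q + 1 : ℝ) ^ k ≤ 2 ^ s := by
      calc (2 ^ q + 1 : ℝ) ^ k ≤ ((2 : ℝ) ^ (q + 1)) ^ k := by
            apply pow_le_pow_left₀ (by positivity)
            rw [pow_succ]
            have : (1 : ℝ) ≤ 2 ^ q := one_le_pow₀ (by norm_num)
            linarith
        _ = 2 ^ (k * (q + 1)) := by rw [← pow_mul, mul_comm]
        _ ≤ 2 ^ s := pow_le_pow_right₀ (by norm_num) hk1
    have h3 : (1 / 4 : ℝ) ^ (s + 1) = (1 / 2) ^ s * ((1 / 2) ^ s * (1 / 4)) := by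
      rw [pow_succ]
      have : (1 / 4 : ℝ) ^ s = (1 / 2) ^ s * (1 / 2) ^ s := by
        rw [← mul_pow]
        norm_num
      rw [this]
      ring
    have h4 : (2 : ℝ) ^ s * (1 / 2) ^ s = 1 := by
      rw [← mul_pow]
      norm_num
    calc (2 ^ q + 1 : ℝ) ^ k * (1 / 4 : ℝ) ^ (s + 1) ≤
          2 ^ s * ((1 / 2) ^ s * ((1 / 2) ^ s * (1 / 4))) := by
          rw [h3]
          exact mul_le_mul_of_nonneg_right h2 (by positivity)
      _ = (1 / 2) ^ s * (1 / 4) := by rw [← mul_assoc, h4, one_mul]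
      _ ≤ 1 * (1 / 4) := by
          apply mul_le_mul_of_nonneg_right _ (by norm_num)
          exact pow_le_one₀ (by norm_num) (by norm_num)
      _ = 1 / 4 := by norm_num
  have h5 : (1 - β) ^ Fintype.card (Nm (7 + 3 * σ)) ≤ (1 / 2 : ℝ) ^ s := by
    rw [Nm.card]
    refine (one_sub_pow_le (by linarith) _).trans ?_
    refine le_trans (Real.exp_le_exp.2 ?_) (exp_neg_le_half_pow s)
    rw [neg_le_neg_iff]
    have e1 : 7 + 3 * σ = (7 + 2 * σ) + σ := by ring
    push_cast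
    rw [e1, mul_comm, hβ, hhalf, hs']
  have h6 : (1 - qq) ^ Fintype.card (Nm (7 + 3 * σ)) ≤ (1 / 2 : ℝ) ^ s := by
    rw [Nm.card]
    refine (one_sub_pow_le (by linarith) _).trans ?_
    refine le_trans (Real.exp_le_exp.2 ?_) (exp_neg_le_half_pow s)
    rw [neg_le_neg_iff]
    have e1 : 7 + 3 * σ = (6 + 2 * σ) + (σ + 1) := by ring
    push_cast
    rw [e1, mul_comm, hqq, hhalf, hs']
    exact pow_le_pow_right₀ (by norm_num) (by omega)
  have h7 : (Fintype.card (Nm (7 + 3 * σ) × Nm (7 + 3 * σ)) : ℝ) ^ k *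
      ((1 - β) ^ Fintype.card (Nm (7 + 3 * σ)) + (1 - qq) ^ Fintype.card (Nm (7 + 3 * σ))) ≤
      1 / 4 := by
    have h8 : (Fintype.card (Nm (7 + 3 * σ) × Nm (7 + 3 * σ)) : ℝ) ^ k =
        2 ^ ((14 + 6 * σ) * k) := by
      rw [Fintype.card_prod, Nm.card, ← pow_add]
      push_cast
      rw [← pow_mul]
      congr 1
      ring
    have h9 : (14 + 6 * σ) * k + 3 ≤ s := by
      have h10 := sigma_ineq (σ := σ) (by omega)
      have h11 : (14 + 6 * σ) * k ≤ (14 + 6 * σ) * σ := Nat.mul_le_mul_left _ (by omega)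
      omega
    obtain ⟨d, hd⟩ : ∃ d, s = (14 + 6 * σ) * k + (3 + d) := ⟨s - ((14 + 6 * σ) * k + 3), by omega⟩
    rw [h8]
    calc (2 : ℝ) ^ ((14 + 6 * σ) * k) * ((1 - β) ^ Fintype.card (Nm (7 + 3 * σ)) +
          (1 - qq) ^ Fintype.card (Nm (7 + 3 * σ))) ≤
          2 ^ ((14 + 6 * σ) * k) * ((1 / 2 : ℝ) ^ s + (1 / 2 : ℝ) ^ s) := by
          apply mul_le_mul_of_nonneg_left _ (by positivity)
          exact add_le_add h5 h6
      _ = (2 ^ ((14 + 6 * σ) * k) * (1 / 2 : ℝ) ^ ((14 + 6 * σ) * k)) *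
            (2 * (1 / 2 : ℝ) ^ (3 + d)) := by
          rw [hd, pow_add (1 / 2 : ℝ) ((14 + 6 * σ) * k)]
          ring
      _ = 2 * (1 / 2 : ℝ) ^ (3 + d) := by
          rw [← mul_pow]
          norm_num
      _ ≤ 2 * (1 / 2 : ℝ) ^ 3 := by
          apply mul_le_mul_of_nonneg_left _ (by norm_num)
          exact pow_le_pow_of_le_one (by norm_num) (by norm_num) (by omega)
      _ = 1 / 4 := by norm_num
  linarith

end Pool.Agent.H59.Er
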