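import Mathlib
import Pool.Agent.H59.Er.Tab
import Pool.Agent.H59.Er.OrcDT
import Pool.Agent.H59.Er.EmbT
import Pool.Agent.H59.Er.HardN

set_option autoImplicit false
set_option linter.unusedSectionVars false

/-!
# Machines with few blocks are fooled
-/

namespace Pool.Agent.H59.Er

open Pool.Agent.H9 Classical

namespace Sg

variable {S : Sg}

/-- the names of the children -/
abbrev WW (S : Sg) : Type := Nm S.jj × Nm S.jj

/-- the last blocks -/
def lst (S : Sg) (ps : List (List Bool)) (j : Nm S.jj) : List Bool :=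
  j.1 ++ List.replicate (S.len ps - S.jj) false

/-- The chosen blocks lead to stars. -/
def Sel (S : Sg) (ρ : S.I → Option S.X) (y : List Bool) (c : List (List Bool) → S.WW → List Bool) :
    Prop :=
  ∀ (ps : List (List Bool)) (w : S.WW), (S.k + 1, y, ps) ∈ S.U → ps.length < S.k →
    ∃ τ : List Bool, c ps w = (w.1.1 ++ w.2.1) ++ τ ++
        List.replicate (S.len ps - S.aV (S.k + 1, y, ps)) false ∧
      (w.1.1 ++ w.2.1).length + τ.length = S.aV (S.k + 1, y, ps) ∧
      ∃ h : (S.k + 1, y, c ps w :: ps) ∈ S.U, ρ ⟨_, h⟩ = none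

/-- Good pointer functions. -/
def Gd (S : Sg) (c : List (List Bool) → S.WW → List Bool) (pt : List (List Bool) → List Bool) :
    Prop :=
  (∀ i < S.k, ∀ p : Path S.WW i, ∃ w, pt (pth c i p) = c (pth c i p) w) ∧
    ∀ p : Path S.WW S.k, ∃ j, pt (pth c S.k p) = S.lst (pth c S.k p) j

/-- The nodes of the chosen tree. -/
def Em (S : Sg) (c : List (List Bool) → S.WW → List Bool) (ps : List (List Bool)) : Prop :=
  ∃ i ≤ S.k, ∃ p : Path S.WW i, pth c i p = ps

/-- The assignment given by a pointer function. -/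
noncomputable def xs (S : Sg) (ρ : S.I → Option S.X) (dV : S.I → S.X) (y : List Bool)
    (c : List (List Bool) → S.WW → List Bool) (pt : List (List Bool) → List Bool) :
    S.I → S.X := fun v =>
  if h : (v.1.2.1 = y ∧ S.Em c v.1.2.2) ∧ pt v.1.2.2 ∈ strings S.n ∪ strings (S.n + 1) then
    ⟨pt v.1.2.2, h.2⟩ else (ρ v).getD (dV v)

theorem exists_sel {ρ : S.I → Option S.X} (hρ : S.Star ρ) (y : List Bool) :
    ∃ c : List (List Bool) → S.WW → List Bool, S.Sel ρ y c := by
  have h : ∀ (ps : List (List Bool)) (w : S.WW), ∃ u : List Bool, (S.k + 1, y, ps) ∈ S.U →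
      ps.length < S.k → ∃ τ : List Bool, u = (w.1.1 ++ w.2.1) ++ τ ++
        List.replicate (S.len ps - S.aV (S.k + 1, y, ps)) false ∧
      (w.1.1 ++ w.2.1).length + τ.length = S.aV (S.k + 1, y, ps) ∧
      ∃ h : (S.k + 1, y, u :: ps) ∈ S.U, ρ ⟨_, h⟩ = none := by
    intro ps w
    by_cases hU : (S.k + 1, y, ps) ∈ S.U
    · by_cases hl : ps.length < S.k
      · obtain ⟨τ, h1, h2, h3⟩ := hρ.2 ⟨_, hU⟩ hl (w.1.1 ++ w.2.1) (by
          rw [List.length_append, mem_strings.1 w.1.2, mem_strings.1 w.2.2]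
          ring)
        exact ⟨_, fun _ _ => ⟨τ, rfl, h1, h2, h3⟩⟩
      · exact ⟨[], fun _ h => absurd h hl⟩
    · exact ⟨[], fun h => absurd h hU⟩
  choose c hc using h
  exact ⟨c, hc⟩

section

variable {ρ : S.I → Option S.X} {y : List Bool} {c : List (List Bool) → S.WW → List Bool}
  {dV : S.I → S.X}

theorem em_star (hroot : ∃ h : (S.k + 1, y, []) ∈ S.U, ρ ⟨_, h⟩ = none) (hc : S.Sel ρ y c) :
    ∀ i ≤ S.k, ∀ p : Path S.WW i, ∃ h : (S.k + 1, y, pth c i p) ∈ S.U, ρ ⟨_, h⟩ = none := by
  intro i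
  induction i with
  | zero => intro _ p; exact hroot
  | succ i ih =>
    rintro hi ⟨p, w⟩
    obtain ⟨h1, _⟩ := ih (by omega) p
    obtain ⟨τ, _, _, h2⟩ := hc (pth c i p) w h1 (by rw [pth_length]; omega)
    exact h2

theorem sel_inj (hroot : ∃ h : (S.k + 1, y, []) ∈ S.U, ρ ⟨_, h⟩ = none) (hc : S.Sel ρ y c) :
    ∀ i < S.k, ∀ p : Path S.WW i, Function.Injective (c (pth c i p)) := by
  intro i hi p w w' hww
  obtain ⟨h1, _⟩ := em_star hroot hc i hi.le p
  obtain ⟨τ, h2, h3, _⟩ := hc (pth c i p) w h1 (by rw [pth_length]; exact hi)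
  obtain ⟨τ', h2', h3', _⟩ := hc (pth c i p) w' h1 (by rw [pth_length]; exact hi)
  rw [h2, h2'] at hww
  have hl : ∀ w : S.WW, (w.1.1 ++ w.2.1).length = 2 * S.jj := by
    intro w
    rw [List.length_append, mem_strings.1 w.1.2, mem_strings.1 w.2.2]
    ring
  have hww' : (w.1.1 ++ w.2.1) ++ (τ ++
      List.replicate (S.len (pth c i p) - S.aV (S.k + 1, y, pth c i p)) false) =
      (w'.1.1 ++ w'.2.1) ++ (τ' ++
      List.replicate (S.len (pth c i p) - S.aV (S.k + 1, y, pth c i p)) false) := by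
    rw [← List.append_assoc, ← List.append_assoc]
    exact hww
  have h4 := (List.append_inj hww' (by rw [hl, hl])).1
  have h5 := List.append_inj h4 (by rw [mem_strings.1 w.1.2, mem_strings.1 w'.1.2])
  exact Prod.ext (Subtype.ext h5.1) (Subtype.ext h5.2)

theorem lst_inj (ps : List (List Bool)) : Function.Injective (S.lst ps) := by
  intro j j' h
  exact Subtype.ext (List.append_cancel_right h)

/-- Values of good pointer functions are admissible. -/
theorem gd_mem (hroot : ∃ h : (S.k + 1, y, []) ∈ S.U, ρ ⟨_, h⟩ = none)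
    (hc : S.Sel ρ y c) {pt : List (List Bool) → List Bool} (hpt : S.Gd c pt) {i : ℕ}
    (hi : i ≤ S.k) (p : Path S.WW i) : ∃ pre : List Bool,
      pre.length = S.aV (S.k + 1, y, pth c i p) ∧ pt (pth c i p) =
        pre ++ List.replicate (S.len (pth c i p) - S.aV (S.k + 1, y, pth c i p)) false := by
  by_cases hik : i < S.k
  · obtain ⟨w, hw⟩ := hpt.1 i hik p
    obtain ⟨h1, _⟩ := em_star hroot hc i hi p
    obtain ⟨τ, h2, h3, _⟩ := hc (pth c i p) w h1 (by rw [pth_length]; exact hik)
    exact ⟨(w.1.1 ++ w.2.1) ++ τ, by rw [List.length_append, h3], hw.trans h2⟩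
  · have hik' : i = S.k := by omega
    subst hik'
    obtain ⟨j, hj⟩ := hpt.2 p
    have ha : S.aV (S.k + 1, y, pth c S.k p) = S.jj := by
      unfold aV
      show S.al (S.k - (pth c S.k p).length) = S.jj
      rw [pth_length, Nat.sub_self]
      rfl
    refine ⟨j.1, by rw [mem_strings.1 j.2, ha], ?_⟩
    rw [hj, ha]
    rfl

theorem emb_xs_em (hS : S.Ok) (hroot : ∃ h : (S.k + 1, y, []) ∈ S.U, ρ ⟨_, h⟩ = none)
    (hc : S.Sel ρ y c) {pt : List (List Bool) → List Bool} (hpt : S.Gd c pt) {i : ℕ}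
    (hi : i ≤ S.k) (p : Path S.WW i) :
    S.emb (S.xs ρ dV y c pt) (S.k + 1, y, pth c i p) = pt (pth c i p) := by
  obtain ⟨h1, _⟩ := em_star hroot hc i hi p
  rw [emb_of_mem h1]
  obtain ⟨pre, h2, h3⟩ := gd_mem hroot hc hpt hi p
  have h4 : pt (pth c i p) ∈ strings S.n ∪ strings (S.n + 1) := by
    rw [h3]
    exact hS.mem_X (S.k + 1, y, pth c i p) h2
  have h5 : (((⟨(S.k + 1, y, pth c i p), h1⟩ : S.I).1.2.1 = y ∧
      S.Em c (⟨(S.k + 1, y, pth c i p), h1⟩ : S.I).1.2.2) ∧
      pt (⟨(S.k + 1, y, pth c i p), h1⟩ : S.I).1.2.2 ∈ strings S.n ∪ strings (S.n + 1)) :=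
    ⟨⟨rfl, i, hi, p, rfl⟩, h4⟩
  unfold xs
  rw [dif_pos h5]

theorem xs_wd (hS : S.Ok) (hdV : ∀ v, dV v ∈ S.V v)
    (hroot : ∃ h : (S.k + 1, y, []) ∈ S.U, ρ ⟨_, h⟩ = none)
    (hc : S.Sel ρ y c) {pt : List (List Bool) → List Bool} (hpt : S.Gd c pt) :
    S.xs ρ dV y c pt ∈ Wd S.V ρ := by
  rw [mem_Wd]
  rintro ⟨⟨D, y', ps⟩, hv⟩
  have hD : D = S.k + 1 := (S.mem_U.1 hv).1
  subst hD
  by_cases h : y' = y ∧ S.Em c ps
  · obtain ⟨rfl, i, hi, p, rfl⟩ := h
    obtain ⟨h1, h2⟩ := em_star hroot hc i hi p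
    have h3 : ρ ⟨_, hv⟩ = none := h2
    rw [h3]
    show S.xs ρ dV y' c pt ⟨_, hv⟩ ∈ S.V ⟨_, hv⟩
    rw [mem_V]
    obtain ⟨pre, h4, h5⟩ := gd_mem hroot hc hpt hi p
    refine ⟨pre, h4, ?_⟩
    have h6 := emb_xs_em (dV := dV) hS hroot hc hpt hi p
    rw [emb_of_mem h1] at h6
    rw [← h5]
    exact h6
  · have h1 : S.xs ρ dV y c pt ⟨(S.k + 1, y', ps), hv⟩ =
        (ρ ⟨_, hv⟩).getD (dV ⟨_, hv⟩) := by
      unfold xs
      rw [dif_neg]
      exact fun h2 => h h2.1
    rw [h1]
    cases hρ : ρ ⟨(S.k + 1, y', ps), hv⟩ with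
    | none => exact hdV _
    | some a => exact Finset.mem_singleton_self a

theorem emb_xs_ne {pt pt' : List (List Bool) → List Bool} {v : Nd}
    (h : ¬ (v.2.1 = y ∧ S.Em c v.2.2)) :
    S.emb (S.xs ρ dV y c pt) v = S.emb (S.xs ρ dV y c pt') v := by
  by_cases hv : v ∈ S.U
  · rw [emb_of_mem hv, emb_of_mem hv]
    unfold xs
    rw [dif_neg (fun h2 => h h2.1), dif_neg (fun h2 => h h2.1)]
  · unfold emb
    rw [dif_neg hv, dif_neg hv]

theorem alive_em (hS : S.Ok) (hroot : ∃ h : (S.k + 1, y, []) ∈ S.U, ρ ⟨_, h⟩ = none)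
    (hc : S.Sel ρ y c) {pt : List (List Bool) → List Bool} (hpt : S.Gd c pt) : ∀ i ≤ S.k,
    ∀ p : Path S.WW i, alive (fun qs => S.emb (S.xs ρ dV y c pt) (S.k + 1, y, qs)) (pth c i p) =
      alive pt (pth c i p) := by
  intro i
  induction i with
  | zero => intro _ p; rfl
  | succ i ih =>
    rintro hi ⟨p, w⟩
    show (!alive _ (pth c i p) && decide (S.emb (S.xs ρ dV y c pt) (S.k + 1, y, pth c i p) =
      c (pth c i p) w)) = (!alive pt (pth c i p) && decide (pt (pth c i p) = c (pth c i p) w))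
    rw [ih (by omega) p, emb_xs_em hS hroot hc hpt (by omega) p]

/-- The status of a path: a node of the chosen tree, a leaf of the chosen tree, or constant. -/
theorem tri (hS : S.Ok) (hroot : ∃ h : (S.k + 1, y, []) ∈ S.U, ρ ⟨_, h⟩ = none)
    (hc : S.Sel ρ y c) : ∀ ps : List (List Bool), ps.length ≤ S.k + 1 →
    S.Em c ps ∨ (∃ (p : Path S.WW S.k) (j : Nm S.jj), ps = S.lst (pth c S.k p) j :: pth c S.k p) ∨
      (¬ S.Em c ps ∧ ∀ pt pt' : List (List Bool) → List Bool, S.Gd c pt → S.Gd c pt' →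
        alive (fun qs => S.emb (S.xs ρ dV y c pt) (S.k + 1, y, qs)) ps =
          alive (fun qs => S.emb (S.xs ρ dV y c pt') (S.k + 1, y, qs)) ps) := by
  intro ps
  induction ps with
  | nil => intro _; exact Or.inl ⟨0, Nat.zero_le _, (() : Unit), rfl⟩
  | cons u qs ih =>
    intro hl
    rw [List.length_cons] at hl
    have hem : ∀ h : S.Em c (u :: qs), ∃ i < S.k, ∃ (p : Path S.WW i) (w : S.WW),
        qs = pth c i p ∧ u = c (pth c i p) w := by
      rintro ⟨i, hi, p, hp⟩
      cases i with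
      | zero => exact absurd hp (by simp [pth])
      | succ i =>
        obtain ⟨p, w⟩ := p
        have hp' : c (pth c i p) w :: pth c i p = u :: qs := hp
        rw [List.cons.injEq] at hp'
        exact ⟨i, by omega, p, w, hp'.2.symm, hp'.1.symm⟩
    rcases ih (by omega) with h | h | h
    · -- the parent belongs to the chosen tree
      obtain ⟨i, hi, p, rfl⟩ := h
      by_cases hik : i < S.k
      · by_cases hw : ∃ w, u = c (pth c i p) w
        · obtain ⟨w, rfl⟩ := hw
          exact Or.inl ⟨i + 1, by omega, (p, w), rfl⟩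
        · right; right
          constructor
          · intro h
            obtain ⟨i', hi', p', w, h1, h2⟩ := hem h
            rw [← h1] at h2
            exact hw ⟨w, h2⟩
          · have key : ∀ pt : List (List Bool) → List Bool, S.Gd c pt →
                alive (fun qs => S.emb (S.xs ρ dV y c pt) (S.k + 1, y, qs)) (u :: pth c i p) =
                  false := by
              intro pt hpt
              show (!alive _ (pth c i p) &&
                decide (S.emb (S.xs ρ dV y c pt) (S.k + 1, y, pth c i p) = u)) = false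
              rw [emb_xs_em hS hroot hc hpt hi p, Bool.and_eq_false_iff]
              right
              rw [decide_eq_false_iff_not]
              intro h
              obtain ⟨w, hw'⟩ := hpt.1 i hik p
              exact hw ⟨w, by rw [← h, hw']⟩
            intro pt pt' hpt hpt'
            rw [key pt hpt, key pt' hpt']
      · have hik' : i = S.k := by omega
        subst hik'
        by_cases hj : ∃ j, u = S.lst (pth c S.k p) j
        · obtain ⟨j, rfl⟩ := hj
          exact Or.inr (Or.inl ⟨p, j, rfl⟩)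
        · right; right
          constructor
          · intro h
            obtain ⟨i', hi', p', w, h1, h2⟩ := hem h
            have := congrArg List.length h1
            rw [pth_length, pth_length] at this
            omega
          · have key : ∀ pt : List (List Bool) → List Bool, S.Gd c pt →
                alive (fun qs => S.emb (S.xs ρ dV y c pt) (S.k + 1, y, qs)) (u :: pth c S.k p) =
                  false := by
              intro pt hpt
              show (!alive _ (pth c S.k p) &&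
                decide (S.emb (S.xs ρ dV y c pt) (S.k + 1, y, pth c S.k p) = u)) = false
              rw [emb_xs_em hS hroot hc hpt le_rfl p, Bool.and_eq_false_iff]
              right
              rw [decide_eq_false_iff_not]
              intro h
              obtain ⟨j, hj'⟩ := hpt.2 p
              exact hj ⟨j, by rw [← h, hj']⟩
            intro pt pt' hpt hpt'
            rw [key pt hpt, key pt' hpt']
    · exfalso
      obtain ⟨p, j, rfl⟩ := h
      rw [List.length_cons, pth_length] at hl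
      omega
    · right; right
      constructor
      · intro h1
        obtain ⟨i', hi', p', w, h2, _⟩ := hem h1
        exact h.1 ⟨i', by omega, p', h2.symm⟩
      · intro pt pt' hpt hpt'
        show (!alive _ qs && decide (S.emb (S.xs ρ dV y c pt) (S.k + 1, y, qs) = u)) =
          (!alive _ qs && decide (S.emb (S.xs ρ dV y c pt') (S.k + 1, y, qs) = u))
        rw [h.2 pt pt' hpt hpt', emb_xs_ne (v := (S.k + 1, y, qs)) (pt' := pt')
          (fun h2 => h.1 h2.2)]

/-- Every oracle bit is constant or a leaf of the chosen tree. -/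
theorem comb_cases (hS : S.Ok) (hroot : ∃ h : (S.k + 1, y, []) ∈ S.U, ρ ⟨_, h⟩ = none)
    (hc : S.Sel ρ y c) (κ : Oracle) (w : List Bool) :
    (∃ (p : Path S.WW S.k) (j : Nm S.jj), ∀ pt, S.Gd c pt →
      comb (S.emb (S.xs ρ dV y c pt)) κ w = alive pt (S.lst (pth c S.k p) j :: pth c S.k p)) ∨
    ∃ b, ∀ pt, S.Gd c pt → comb (S.emb (S.xs ρ dV y c pt)) κ w = b := by
  have hconst : (∀ pt pt', S.Gd c pt → S.Gd c pt' → comb (S.emb (S.xs ρ dV y c pt)) κ w =
      comb (S.emb (S.xs ρ dV y c pt')) κ w) →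
      ∃ b, ∀ pt, S.Gd c pt → comb (S.emb (S.xs ρ dV y c pt)) κ w = b := by
    intro h
    by_cases hex : ∃ pt, S.Gd c pt
    · obtain ⟨pt0, hpt0⟩ := hex
      exact ⟨_, fun pt hpt => h pt pt0 hpt hpt0⟩
    · push Not at hex
      exact ⟨false, fun pt hpt => absurd hpt (hex pt)⟩
  match w with
  | [] => exact Or.inr ⟨false, fun _ _ => rfl⟩
  | true :: w => exact Or.inr ⟨κ w, fun _ _ => rfl⟩
  | false :: w =>
    rcases leafb_cases w with h | ⟨D, y', ps, _, h2, _, h4⟩
    · exact Or.inr ⟨false, fun pt _ => h _⟩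
    · by_cases hD : D = S.k + 1
      · by_cases hy : y' = y
        · subst hD
          subst hy
          rcases tri (dV := dV) hS hroot hc ps (by omega) with h | ⟨p, j, rfl⟩ | ⟨_, h⟩
          · exfalso
            obtain ⟨i, hi, p, rfl⟩ := h
            rw [pth_length] at h2
            omega
          · left
            refine ⟨p, j, fun pt hpt => ?_⟩
            show leafb _ w = _
            rw [h4]
            simp only [alive, emb_xs_em hS hroot hc hpt le_rfl p,
              alive_em hS hroot hc hpt S.k le_rfl p]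
          · right
            apply hconst
            intro pt pt' hpt hpt'
            show leafb _ w = leafb _ w
            rw [h4, h4]
            exact h pt pt' hpt hpt'
        · right
          apply hconst
          intro pt pt' _ _
          show leafb _ w = leafb _ w
          rw [h4, h4]
          apply alive_congr
          intro qs _
          exact emb_xs_ne (v := (D, y', qs)) (fun h => hy h.1)
      · right
        apply hconst
        intro pt pt' _ _
        show leafb _ w = leafb _ w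
        rw [h4, h4]
        apply alive_congr
        intro qs _
        exact S.emb_ne hD _ _

end

/-- **Machines with `k` blocks are fooled.** -/
theorem Ok.fool (hS : S.Ok) {ρ : S.I → Option S.X} (hρ : S.Star ρ) (κ : Oracle) (e : Bool)
    (p : Prog) (q t : ℕ) (hqt : S.k * (q + 1) + t ≤ 2 ^ S.sg) :
    ∃ x ∈ Wd S.V ρ, ∃ y : List Bool, y.length = S.n ∧
      ¬ (Alt e S.k q (fun us => AcceptsIn (comb (S.emb x) κ) p (y :: us) t) ↔
        y ∈ Lg (S.emb x) (S.k + 1) true) := by
  obtain ⟨y, hyU, hy⟩ := hρ.1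
  have hroot : ∃ h : (S.k + 1, y, []) ∈ S.U, ρ ⟨_, h⟩ = none := ⟨hyU, hy⟩
  obtain ⟨c, hc⟩ := exists_sel hρ y
  choose dV hdV using hS.V_nonempty
  -- the oracle as a function of the leaves
  let O : (Path S.WW S.k × Nm S.jj → Bool) → Oracle := fun z w =>
    if h : ∃ pj : Path S.WW S.k × Nm S.jj, ∀ pt, S.Gd c pt →
      comb (S.emb (S.xs ρ dV y c pt)) κ w =
        alive pt (S.lst (pth c S.k pj.1) pj.2 :: pth c S.k pj.1) then z h.choose
    else if h2 : ∃ b, ∀ pt, S.Gd c pt → comb (S.emb (S.xs ρ dV y c pt)) κ w = b then h2.choose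
    else false
  have hO1 : ∀ w, DT 1 (fun z => O z w) := by
    intro w
    by_cases h : ∃ pj : Path S.WW S.k × Nm S.jj, ∀ pt, S.Gd c pt →
      comb (S.emb (S.xs ρ dV y c pt)) κ w =
        alive pt (S.lst (pth c S.k pj.1) pj.2 :: pth c S.k pj.1)
    · refine (DT.query (X := Bool) h.choose).congr fun z => ?_
      show z h.choose = O z w
      simp only [O]
      rw [dif_pos h]
    · refine (DT.const 1 (if h2 : ∃ b, ∀ pt, S.Gd c pt →
        comb (S.emb (S.xs ρ dV y c pt)) κ w = b then h2.choose else false)).congr fun z => ?_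
      simp only [O]
      rw [dif_neg h]
  have hO2 : ∀ (z : Path S.WW S.k × Nm S.jj → Bool) (pt : List (List Bool) → List Bool),
      S.Gd c pt → (∀ p j, alive pt (S.lst (pth c S.k p) j :: pth c S.k p) = z (p, j)) →
      comb (S.emb (S.xs ρ dV y c pt)) κ = O z := by
    intro z pt hpt hz
    funext w
    by_cases h : ∃ pj : Path S.WW S.k × Nm S.jj, ∀ pt, S.Gd c pt →
      comb (S.emb (S.xs ρ dV y c pt)) κ w =
        alive pt (S.lst (pth c S.k pj.1) pj.2 :: pth c S.k pj.1)
    · have h1 : O z w = z h.choose := by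
        simp only [O]
        rw [dif_pos h]
      rw [h1, h.choose_spec pt hpt, hz]
    · rcases comb_cases (dV := dV) hS hroot hc κ w with ⟨p', j, h2⟩ | h2
      · exact absurd ⟨(p', j), h2⟩ h
      · have h1 : O z w = h2.choose := by
          simp only [O]
          rw [dif_neg h, dif_pos h2]
        rw [h1]
        exact h2.choose_spec pt hpt
  -- the lower bound
  have hlv : Er.Lv q (fun F => DT (2 ^ S.sg) F) e S.k
      (fun z : Path S.WW S.k × Nm S.jj → Bool =>
        Alt e S.k q (fun us => AcceptsIn (O z) p (y :: us) t)) := by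
    apply lv_alt
    intro us _
    exact (dt_acceptsIn hO1 p (y :: us) t).mono (by omega)
  have hsg : S.k + 20 ≤ S.sg := by
    have h1 := hS.big
    have h2 : S.lm ≤ S.sg := Nat.le_mul_of_pos_right _ (by positivity)
    omega
  obtain ⟨z, b, hT, hne⟩ := hard_num hsg hqt e _ hlv
  have hhead : ∀ {j : ℕ} (u : Nm (j + 1)) (l : List Bool), (u.1 ++ l).head? = some u.lab := by
    intro j u l
    have h1 := mem_strings.1 u.2
    obtain ⟨u, hu⟩ := u
    cases u with
    | nil => simp at h1
    | cons a u => rfl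
  have hjj : S.jj = (6 + 3 * S.sg) + 1 := by
    unfold jj
    ring
  have hheadJ : ∀ (u : Nm S.jj) (l : List Bool), (u.1 ++ l).head? = some u.lab := by
    have : ∀ (j : ℕ), j = (6 + 3 * S.sg) + 1 → ∀ (u : Nm j) (l : List Bool),
        (u.1 ++ l).head? = some u.lab := by
      intro j hj
      subst hj
      exact fun u l => hhead u l
    exact this S.jj hjj
  obtain ⟨pt, h1, h2, h3, h4⟩ := tg_ptr (fun w : S.WW => w.1.lab) c S.k (by
      intro hk w
      obtain ⟨τ, hτ, _, _⟩ := hc [] w hyU hk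
      rw [hτ, List.append_assoc, List.append_assoc, hheadJ]) (sel_inj hroot hc) Nm.lab S.lst (fun p' => lst_inj _)
      (fun _ j => hheadJ j _) z b hT
  have hGd : S.Gd c pt := ⟨h1, h2⟩
  refine ⟨S.xs ρ dV y c pt, xs_wd hS hdV hroot hc hGd, y, (S.mem_U.1 hyU).2.1, ?_⟩
  rw [hO2 z pt hGd h3]
  intro hiff
  apply hne
  rw [hiff]
  show (S.emb (S.xs ρ dV y c pt) (S.k + 1, y, [])).head? = some true ↔ b = true
  have h5 := emb_xs_em (dV := dV) hS hroot hc hGd (i := 0) (Nat.zero_le _) (() : Unit)
  have h6 : S.emb (S.xs ρ dV y c pt) (S.k + 1, y, []) = pt [] := h5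
  rw [h6, h4, Option.some.injEq]

end Sg

end Pool.Agent.H59.Er
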