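import Pool.Agent.H59.Er.SW

set_option autoImplicit false
set_option linter.unusedSectionVars false

/-!
# Random refinement of partial assignments

A partial assignment `ρ : I → Option X` fixes the blocks with `ρ i = some a`; the free blocks range
over the alphabets `V i`. `ker V q ρ` is the random refinement which leaves a free block free with
probability `q i` and otherwise gives it a uniform value in `V i`.
-/

namespace Pool.Agent.H59.Er

open Finset Classical

noncomputable section

variable {I X : Type} [Fintype I] [Fintype X]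

/-- the allowed values of a block -/
def Vs (V : I → Finset X) (i : I) : Option X → Finset X
  | none => V i
  | some a => {a}

/-- the worlds compatible with `ρ` -/
def Wd (V : I → Finset X) (ρ : I → Option X) : Set (I → X) := Wld (Vs V) ρ

theorem mem_Wd {V : I → Finset X} {ρ : I → Option X} {x : I → X} :
    x ∈ Wd V ρ ↔ ∀ i, x i ∈ Vs V i (ρ i) := Iff.rfl

/-- random refinement -/
def ker (V : I → Finset X) (q : I → ℝ) (ρ : I → Option X) (i : I) : Option X → ℝ
  | none => match ρ i with
    | none => q i
    | some _ => 0
  | some a => match ρ i with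
    | none => if a ∈ V i then (1 - q i) / (V i).card else 0
    | some b => if a = b then 1 else 0

theorem ker_star {V : I → Finset X} {q : I → ℝ} {ρ : I → Option X} {i : I} (h : ρ i = none) :
    ker V q ρ i none = q i := by
  unfold ker; rw [h]

theorem ker_star_some {V : I → Finset X} {q : I → ℝ} {ρ : I → Option X} {i : I} (h : ρ i = none)
    (a : X) : ker V q ρ i (some a) = if a ∈ V i then (1 - q i) / (V i).card else 0 := by
  unfold ker; rw [h]

theorem ker_fix_none {V : I → Finset X} {q : I → ℝ} {ρ : I → Option X} {i : I} {b : X}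
    (h : ρ i = some b) : ker V q ρ i none = 0 := by
  unfold ker; rw [h]

theorem ker_fix_some {V : I → Finset X} {q : I → ℝ} {ρ : I → Option X} {i : I} {b : X}
    (h : ρ i = some b) (a : X) : ker V q ρ i (some a) = if a = b then 1 else 0 := by
  unfold ker; rw [h]

theorem sum_option (f : Option X → ℝ) : ∑ r, f r = f none + ∑ a, f (some a) :=
  Fintype.sum_option f

theorem ker_isPr {V : I → Finset X} (hV : ∀ i, (V i).Nonempty) {q : I → ℝ} (h0 : ∀ i, 0 ≤ q i)
    (h1 : ∀ i, q i ≤ 1) (ρ : I → Option X) : IsPr (ker V q ρ) := by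
  constructor
  · intro i r
    cases hρ : ρ i with
    | none =>
      cases r with
      | none => rw [ker_star hρ]; exact h0 i
      | some a =>
        rw [ker_star_some hρ]
        split_ifs
        · exact div_nonneg (by linarith [h1 i]) (by positivity)
        · exact le_rfl
    | some b =>
      cases r with
      | none => rw [ker_fix_none hρ]
      | some a => rw [ker_fix_some hρ]; split_ifs <;> norm_num
  · intro i
    rw [sum_option]
    cases hρ : ρ i with
    | none =>
      rw [ker_star hρ]
      simp only [ker_star_some hρ]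
      rw [Finset.sum_ite_mem, Finset.univ_inter, Finset.sum_const, nsmul_eq_mul]
      have : ((V i).card : ℝ) ≠ 0 := by
        exact_mod_cast (Finset.card_pos.2 (hV i)).ne'
      field_simp
      ring
    | some b =>
      rw [ker_fix_none hρ]
      simp only [ker_fix_some hρ]
      simp

/-- `ρ'` refines `ρ` -/
def Ref (V : I → Finset X) (ρ ρ' : I → Option X) : Prop :=
  ∀ i, match ρ i with
    | none => ∀ a, ρ' i = some a → a ∈ V i
    | some b => ρ' i = some b

theorem Ref.wd {V : I → Finset X} {ρ ρ' : I → Option X} (h : Ref V ρ ρ') : Wd V ρ' ⊆ Wd V ρ := by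
  intro x hx i
  have h1 := h i
  have h2 := hx i
  cases hρ : ρ i with
  | none =>
    rw [hρ] at h1
    cases hρ' : ρ' i with
    | none => rw [hρ'] at h2; exact h2
    | some a =>
      rw [hρ'] at h2
      have h3 : x i = a := Finset.mem_singleton.1 h2
      show x i ∈ V i
      rw [h3]
      exact h1 a hρ'
  | some b =>
    rw [hρ] at h1
    have h3 : ρ' i = some b := h1
    rw [h3] at h2
    exact h2

theorem Ref.refl (V : I → Finset X) (ρ : I → Option X) : Ref V ρ ρ := by
  intro i
  cases hρ : ρ i with
  | none => intro a h; simp at h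
  | some b => rfl

theorem Ref.trans {V : I → Finset X} {ρ ρ' ρ'' : I → Option X} (h : Ref V ρ ρ')
    (h' : Ref V ρ' ρ'') : Ref V ρ ρ'' := by
  intro i
  have h1 := h i
  have h2 := h' i
  cases hρ : ρ i with
  | none =>
    rw [hρ] at h1
    intro a ha
    cases hρ' : ρ' i with
    | none => rw [hρ'] at h2; exact h2 a ha
    | some c =>
      rw [hρ'] at h2
      have h3 : ρ'' i = some c := h2
      rw [h3, Option.some.injEq] at ha
      rw [← ha]
      exact h1 c hρ'
  | some b =>
    rw [hρ] at h1
    have h3 : ρ' i = some b := h1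
    rw [h3] at h2
    exact h2

/-- The random refinement is a refinement. -/
theorem ref_of_pos {V : I → Finset X} {q : I → ℝ} {ρ ρ' : I → Option X}
    (h : ∏ i, ker V q ρ i (ρ' i) ≠ 0) : Ref V ρ ρ' := by
  intro i
  have h1 : ker V q ρ i (ρ' i) ≠ 0 := fun h0 => h (Finset.prod_eq_zero (Finset.mem_univ i) h0)
  cases hρ : ρ i with
  | none =>
    intro a ha
    rw [ha, ker_star_some hρ] at h1
    by_contra hcon
    rw [if_neg hcon] at h1
    exact h1 rfl
  | some b =>
    cases hρ' : ρ' i with
    | none => rw [hρ', ker_fix_none hρ] at h1; exact absurd rfl h1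
    | some a =>
      rw [hρ', ker_fix_some hρ] at h1
      by_cases hab : a = b
      · rw [hab]
      · rw [if_neg hab] at h1; exact absurd rfl h1

theorem ex_ref {V : I → Finset X} (hV : ∀ i, (V i).Nonempty) {q : I → ℝ} (h0 : ∀ i, 0 ≤ q i)
    (h1 : ∀ i, q i ≤ 1) {ρ : I → Option X} {f g : (I → Option X) → ℝ}
    (h : ∀ ρ', Ref V ρ ρ' → f ρ' ≤ g ρ') : Ex (ker V q ρ) f ≤ Ex (ker V q ρ) g := by
  unfold Ex
  apply Finset.sum_le_sum
  intro ρ' _
  by_cases h2 : ∏ i, ker V q ρ i (ρ' i) = 0
  · rw [h2, zero_mul, zero_mul]
  · exact mul_le_mul_of_nonneg_left (h ρ' (ref_of_pos h2))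
      ((ker_isPr hV h0 h1 ρ).prod_nonneg ρ')

theorem pr_ref {V : I → Finset X} (hV : ∀ i, (V i).Nonempty) {q : I → ℝ} (h0 : ∀ i, 0 ≤ q i)
    (h1 : ∀ i, q i ≤ 1) {ρ : I → Option X} {E E' : (I → Option X) → Prop}
    (h : ∀ ρ', Ref V ρ ρ' → E ρ' → E' ρ') : Pr (ker V q ρ) E ≤ Pr (ker V q ρ) E' :=
  ex_ref hV h0 h1 fun ρ' hρ' => ind_mono (h ρ' hρ')

/-- Composition of random refinements. -/
theorem ex_comp {V : I → Finset X} (hV : ∀ i, (V i).Nonempty) (p q : I → ℝ) (ρ : I → Option X)
    (f : (I → Option X) → ℝ) :
    Ex (ker V p ρ) (fun ρ' => Ex (ker V q ρ') f) = Ex (ker V (fun i => p i * q i) ρ) f := by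
  unfold Ex
  simp only [Finset.mul_sum]
  rw [Finset.sum_comm]
  apply Finset.sum_congr rfl
  intro ρ'' _
  have h1 : ∀ ρ' : I → Option X, (∏ i, ker V p ρ i (ρ' i)) * ((∏ i, ker V q ρ' i (ρ'' i)) * f ρ'') =
      (∏ i, ker V p ρ i (ρ' i) * ker V q ρ' i (ρ'' i)) * f ρ'' := by
    intro ρ'
    rw [Finset.prod_mul_distrib]
    ring
  simp only [h1]
  rw [← Finset.sum_mul]
  congr 1
  -- the local kernel depends only on the local value
  let kl : I → Option X → Option X → ℝ := fun i r r'' => ker V q (fun _ => r) i r''
  have h2 : ∀ (ρ' : I → Option X) (i : I), ker V q ρ' i (ρ'' i) = kl i (ρ' i) (ρ'' i) := by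
    intro ρ' i
    show ker V q ρ' i (ρ'' i) = ker V q (fun _ => ρ' i) i (ρ'' i)
    cases ρ'' i <;> rfl
  simp only [h2]
  have h3 : ∑ ρ' : I → Option X, ∏ i, ker V p ρ i (ρ' i) * kl i (ρ' i) (ρ'' i) =
      ∏ i, ∑ r, ker V p ρ i r * kl i r (ρ'' i) := by
    rw [Finset.prod_univ_sum, Fintype.piFinset_univ]
  rw [h3]
  apply Finset.prod_congr rfl
  intro i _
  have hcard : ((V i).card : ℝ) ≠ 0 := by
    exact_mod_cast (Finset.card_pos.2 (hV i)).ne'
  rw [sum_option]
  cases hρ : ρ i with
  | some b =>
    rw [ker_fix_none hρ, zero_mul, zero_add]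
    simp only [ker_fix_some hρ]
    rw [Finset.sum_eq_single b]
    · rw [if_pos rfl, one_mul]
      cases hr : ρ'' i with
      | none => rw [ker_fix_none hρ]; rfl
      | some a =>
        rw [ker_fix_some hρ]
        show (match (some b : Option X) with
          | none => if a ∈ V i then (1 - q i) / ((V i).card : ℝ) else 0
          | some b => if a = b then 1 else 0) = _
        rfl
    · intro c _ hc
      rw [if_neg hc, zero_mul]
    · intro h; exact absurd (Finset.mem_univ b) h
  | none =>
    rw [ker_star hρ]
    simp only [ker_star_some hρ]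
    cases hr : ρ'' i with
    | none =>
      rw [ker_star hρ]
      have h4 : ∀ a : X, kl i (some a) none = 0 := fun a => rfl
      have h5 : kl i none none = q i := rfl
      simp only [h4, h5, mul_zero, Finset.sum_const_zero, add_zero]
    | some c =>
      rw [ker_star_some hρ]
      have h4 : ∀ a : X, kl i (some a) (some c) = if c = a then 1 else 0 := fun a => rfl
      have h5 : kl i none (some c) = if c ∈ V i then (1 - q i) / ((V i).card : ℝ) else 0 := rfl
      simp only [h4, h5]
      rw [Finset.sum_eq_single c]
      · rw [if_pos rfl, mul_one]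
        by_cases hc : c ∈ V i
        · simp only [if_pos hc]
          field_simp
          ring
        · simp only [if_neg hc]
          ring
      · intro a _ ha
        rw [if_neg (Ne.symm ha), mul_zero]
      · intro h; exact absurd (Finset.mem_univ c) h

theorem pr_comp {V : I → Finset X} (hV : ∀ i, (V i).Nonempty) (p q : I → ℝ) (ρ : I → Option X)
    (E : (I → Option X) → Prop) :
    Ex (ker V p ρ) (fun ρ' => Pr (ker V q ρ') E) = Pr (ker V (fun i => p i * q i) ρ) E :=
  ex_comp hV p q ρ _

/-- The expectation of a function which does not depend on the block `i` does not depend on the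
distribution of this block. -/
theorem ex_insens {R : Type} [Fintype R] {μ ν : I → R → ℝ} (hμ : IsPr μ) (hν : IsPr ν) (i : I)
    (h : ∀ j, j ≠ i → μ j = ν j) {f : (I → R) → ℝ} (hf : ∀ ρ r, f (Function.update ρ i r) = f ρ) :
    Ex μ f = Ex ν f := by
  have h5 : ∀ (μ : I → R → ℝ), IsPr μ → ∀ r0 : R,
      Ex μ f = ∑ ρ' : I → R, (∏ j ∈ Finset.univ.erase i, μ j (ρ' j)) *
        (if ρ' i = r0 then f ρ' else 0) := by
    intro μ hμ r0
    have h6 : ∑ ρ' : I → R, (∏ j ∈ Finset.univ.erase i, μ j (ρ' j)) *
        (if ρ' i = r0 then f ρ' else 0) =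
        ∑ z : (I → R) × R, (∏ j ∈ Finset.univ.erase i, μ j (z.1 j)) * μ i z.2 *
          (if z.1 i = r0 then f z.1 else 0) := by
      rw [Fintype.sum_prod_type]
      apply Finset.sum_congr rfl
      intro ρ' _
      have h7 : ∀ r : R, (∏ j ∈ Finset.univ.erase i, μ j (ρ' j)) * μ i r *
          (if ρ' i = r0 then f ρ' else 0) = ((∏ j ∈ Finset.univ.erase i, μ j (ρ' j)) *
          (if ρ' i = r0 then f ρ' else 0)) * μ i r := fun r => by ring
      simp only [h7]
      rw [← Finset.mul_sum, hμ.sum, mul_one]
    rw [h6]
    symm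
    unfold Ex
    apply Finset.sum_bij_ne_zero (fun z _ _ => Function.update z.1 i z.2)
    · intro z _ _; exact Finset.mem_univ _
    · rintro ⟨z1, z2⟩ _ hz ⟨w1, w2⟩ _ hw hzw
      have hz' : z1 i = r0 := by
        by_contra hcon
        simp only at hz
        rw [if_neg hcon, mul_zero] at hz
        exact hz rfl
      have hw' : w1 i = r0 := by
        by_contra hcon
        simp only at hw
        rw [if_neg hcon, mul_zero] at hw
        exact hw rfl
      simp only at hzw
      have e3 : z2 = w2 := by
        have := congrFun hzw i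
        simpa using this
      have e4 : z1 = w1 := by
        funext j
        by_cases hj : j = i
        · subst hj; rw [hz', hw']
        · have := congrFun hzw j
          rwa [Function.update_of_ne hj, Function.update_of_ne hj] at this
      rw [e3, e4]
    · intro ρ' _ hρ'
      have h8 : (∏ j ∈ Finset.univ.erase i, μ j (Function.update ρ' i r0 j)) * μ i (ρ' i) =
          ∏ j, μ j (ρ' j) := by
        rw [← Finset.mul_prod_erase Finset.univ (fun j => μ j (ρ' j)) (Finset.mem_univ i),
          mul_comm]
        congr 1
        apply Finset.prod_congr rfl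
        intro j hj
        rw [Function.update_of_ne (Finset.ne_of_mem_erase hj)]
      refine ⟨(Function.update ρ' i r0, ρ' i), Finset.mem_univ _, ?_, ?_⟩
      · simp only [Function.update_self, if_true]
        rw [hf, h8]
        exact hρ'
      · simp
    · rintro ⟨z1, z2⟩ _ hz
      have hz' : z1 i = r0 := by
        by_contra hcon
        simp only at hz
        rw [if_neg hcon, mul_zero] at hz
        exact hz rfl
      simp only [hz', if_true]
      rw [hf]
      congr 1
      rw [← Finset.mul_prod_erase Finset.univ (fun j => μ j (Function.update z1 i z2 j))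
        (Finset.mem_univ i), Function.update_self, mul_comm]
      congr 1
      apply Finset.prod_congr rfl
      intro j hj
      rw [Function.update_of_ne (Finset.ne_of_mem_erase hj)]
  -- there is a value
  have hne : Nonempty R := by
    by_contra hcon
    rw [not_nonempty_iff] at hcon
    have := hμ.sum i
    simp at this
  obtain ⟨r0⟩ := hne
  rw [h5 μ hμ r0, h5 ν hν r0]
  apply Finset.sum_congr rfl
  intro ρ' _
  congr 1
  apply Finset.prod_congr rfl
  intro j hj
  rw [h j (Finset.ne_of_mem_erase hj)]

/-- Conditioning on the value of one block. -/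
theorem pr_fix {V : I → Finset X} (hV : ∀ i, (V i).Nonempty) {q : I → ℝ} (h0 : ∀ i, 0 ≤ q i)
    (h1 : ∀ i, q i ≤ 1) (ρ : I → Option X) (i : I) (a : X) (E : (I → Option X) → Prop) :
    Pr (ker V q ρ) (fun ρ' => ρ' i = some a ∧ E ρ') =
      ker V q ρ i (some a) * Pr (ker V q (Function.update ρ i (some a))) E := by
  have hμ := ker_isPr hV h0 h1 ρ
  have hμ' := ker_isPr hV h0 h1 (Function.update ρ i (some a))
  unfold Pr
  rw [ex_resample hμ i, ex_resample hμ' i]
  have e1 : ∀ ρ' : I → Option X, ∑ r, ker V q ρ i r *
      ind (Function.update ρ' i r i = some a ∧ E (Function.update ρ' i r)) =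
      ker V q ρ i (some a) * ind (E (Function.update ρ' i (some a))) := by
    intro ρ'
    rw [Finset.sum_eq_single (some a)]
    · rw [Function.update_self, ind_congr (and_iff_right rfl)]
    · intro r _ hr
      rw [Function.update_self, ind_false (by tauto), mul_zero]
    · intro h; exact absurd (Finset.mem_univ _) h
  have e2 : ∀ ρ' : I → Option X, ∑ r, ker V q (Function.update ρ i (some a)) i r *
      ind (E (Function.update ρ' i r)) = ind (E (Function.update ρ' i (some a))) := by
    intro ρ'
    have hu : Function.update ρ i (some a) i = some a := Function.update_self _ _ _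
    rw [Finset.sum_eq_single (some a)]
    · rw [ker_fix_some hu, if_pos rfl, one_mul]
    · intro r _ hr
      cases r with
      | none => rw [ker_fix_none hu, zero_mul]
      | some b =>
        rw [ker_fix_some hu, if_neg (by rintro rfl; exact hr rfl), zero_mul]
    · intro h; exact absurd (Finset.mem_univ _) h
  simp only [e1, e2]
  rw [ex_mul]
  congr 1
  apply ex_insens hμ hμ' i
  · intro j hj
    funext r
    have h9 : Function.update ρ i (some a) j = ρ j := Function.update_of_ne hj _ _
    cases r with
    | none => unfold ker; rw [h9]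
    | some c => unfold ker; rw [h9]
  · intro ρ' r
    simp only [Function.update_idem]

end

end Pool.Agent.H59.Er
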