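import Pool.Agent.H59.Er.SW

set_option autoImplicit false
set_option linter.unusedSectionVars false

/-!
# Trees with unique killers: definitions, and the random restriction of the lowest level
-/

namespace Pool.Agent.H59.Er

open Finset Classical

noncomputable section

/-! ### Paths, worlds, alternating functions -/

/-- paths of length `k` in a tree whose nodes have the children `W` -/
def Path (W : Type) : ℕ → Type
  | 0 => Unit
  | k + 1 => Path W k × W

instance Path.fintype (W : Type) [Fintype W] : (k : ℕ) → Fintype (Path W k)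
  | 0 => inferInstanceAs (Fintype Unit)
  | k + 1 => by
      haveI := Path.fintype W k
      exact inferInstanceAs (Fintype (Path W k × W))

theorem Path.card (W : Type) [Fintype W] (k : ℕ) :
    Fintype.card (Path W k) = Fintype.card W ^ k := by
  induction k with
  | zero => exact Fintype.card_unit
  | succ k ih =>
    have h : Fintype.card (Path W (k + 1)) = Fintype.card (Path W k × W) := rfl
    rw [h, Fintype.card_prod, ih, pow_succ]

/-- `TG labW k labJ x b`: the leaf values `x` (true means alive) come from a tree of depth `k + 1` (children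
`W` at the first `k` levels and `J` at the last level) in which every dead node has exactly one
alive child and every alive node has no alive child; the root is dead and `b` is the label of its
alive child. -/
def TG {W : Type} (labW : W → Bool) : (k : ℕ) → {J : Type} → (J → Bool) → (Path W k × J → Bool) →
    Bool → Prop
  | 0, _, labJ, x, b => ∃ j0, (∀ l j, x (l, j) = true ↔ j = j0) ∧ labJ j0 = b
  | k + 1, J, _, x, b => ∃ z : Path W k × W → Bool, TG labW k labW z b ∧
      ∃ κ : Path W k × W → J, ∀ (v : Path W k × W) (j : J),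
        x (v, j) = true ↔ (z v = false ∧ κ v = j)

/-- functions with `k` alternating blocks of quantifiers over strings of length `m` in front of
functions of the class `B` -/
def Lv {Y : Type} (m : ℕ) (B : (Y → Prop) → Prop) : Bool → ℕ → (Y → Prop) → Prop
  | _, 0, f => B f
  | true, k + 1, f => ∃ g : List.Vector Bool m → Y → Prop,
      (∀ u, Lv m B false k (g u)) ∧ ∀ y, f y ↔ ∃ u, g u y
  | false, k + 1, f => ∃ g : List.Vector Bool m → Y → Prop,
      (∀ u, Lv m B true k (g u)) ∧ ∀ y, f y ↔ ∀ u, g u y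

theorem Lv.comp {Y Z : Type} {m : ℕ} {B : (Y → Prop) → Prop} {B' : (Z → Prop) → Prop} (φ : Z → Y)
    (hB : ∀ f, B f → B' (fun z => f (φ z))) : ∀ (k : ℕ) (e : Bool) (f : Y → Prop),
    Lv m B e k f → Lv m B' e k (fun z => f (φ z)) := by
  intro k
  induction k with
  | zero => intro e f hf; cases e <;> exact hB f hf
  | succ k ih =>
    intro e f hf
    cases e with
    | true =>
      obtain ⟨g, hg, hfg⟩ := hf
      exact ⟨fun u z => g u (φ z), fun u => ih false (g u) (hg u), fun z => hfg (φ z)⟩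
    | false =>
      obtain ⟨g, hg, hfg⟩ := hf
      exact ⟨fun u z => g u (φ z), fun u => ih true (g u) (hg u), fun z => hfg (φ z)⟩

theorem Lv.not {Y : Type} {m : ℕ} {B : (Y → Prop) → Prop}
    (hB : ∀ f, B f → B (fun y => ¬ f y)) : ∀ (k : ℕ) (e : Bool) (f : Y → Prop),
    Lv m B e k f → Lv m B (!e) k (fun y => ¬ f y) := by
  intro k
  induction k with
  | zero => intro e f hf; cases e <;> exact hB f hf
  | succ k ih =>
    intro e f hf
    cases e with
    | true =>
      obtain ⟨g, hg, hfg⟩ := hf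
      refine ⟨fun u y => ¬ g u y, fun u => ih false (g u) (hg u), fun y => ?_⟩
      show ¬ f y ↔ ∀ u, ¬ g u y
      rw [hfg y, not_exists]
    | false =>
      obtain ⟨g, hg, hfg⟩ := hf
      refine ⟨fun u y => ¬ g u y, fun u => ih true (g u) (hg u), fun y => ?_⟩
      show ¬ f y ↔ ∃ u, ¬ g u y
      rw [hfg y, not_forall]

/-- Widening the last level: only the children `(g, h v g)` may be alive. -/
theorem TG.widen {J H : Type} {lab : J → Bool} : ∀ (k : ℕ) (h : Path (J × H) k → J → H)
    (y : Path (J × H) k × J → Bool) (b : Bool),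
    TG (fun w : J × H => lab w.1) k lab y b →
    TG (fun w : J × H => lab w.1) k (fun w : J × H => lab w.1)
      (fun v : Path (J × H) k × (J × H) =>
        y (v.1, v.2.1) && decide (v.2.2 = h v.1 v.2.1)) b := by
  intro k
  cases k with
  | zero =>
    rintro h y b ⟨j0, h1, h2⟩
    refine ⟨(j0, h () j0), ?_, h2⟩
    rintro l ⟨g, t⟩
    have hl : l = () := rfl
    simp only [Bool.and_eq_true, decide_eq_true_eq, h1 l g, Prod.mk.injEq]
    constructor
    · rintro ⟨rfl, h3⟩
      exact ⟨rfl, h3⟩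
    · rintro ⟨rfl, h3⟩
      exact ⟨rfl, h3⟩
  | succ k =>
    rintro h y b ⟨z, h1, κ, h2⟩
    refine ⟨z, h1, fun v => (κ v, h v (κ v)), ?_⟩
    rintro v ⟨g, t⟩
    simp only [Bool.and_eq_true, decide_eq_true_eq, Prod.mk.injEq]
    have h3 := h2 v g
    constructor
    · rintro ⟨h4, h5⟩
      obtain ⟨h6, h7⟩ := h3.1 h4
      subst h7
      exact ⟨h6, rfl, h5.symm⟩
    · rintro ⟨h4, h5, h6⟩
      subst h5
      exact ⟨h3.2 ⟨h4, rfl⟩, h6.symm⟩

/-! ### Products -/

section prod

variable {I R : Type} [Fintype I] [Fintype R]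

theorem ex_prod (μ : I → R → ℝ) (f : I → R → ℝ) :
    Ex μ (fun ρ => ∏ i, f i (ρ i)) = ∏ i, ∑ r, μ i r * f i r := by
  unfold Ex
  rw [Finset.prod_univ_sum, Fintype.piFinset_univ]
  apply Finset.sum_congr rfl
  intro ρ _
  rw [Finset.prod_mul_distrib]

/-- independent events at different blocks -/
theorem pr_forall {μ : I → R → ℝ} (hμ : IsPr μ) (S : Finset I) (P : I → R → Prop) :
    Pr μ (fun ρ => ∀ i ∈ S, P i (ρ i)) = ∏ i ∈ S, ∑ r, μ i r * ind (P i r) := by
  have h1 : Pr μ (fun ρ => ∀ i ∈ S, P i (ρ i)) =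
      Ex μ (fun ρ => ∏ i, ind (i ∈ S → P i (ρ i))) := by
    unfold Pr
    congr 1
    funext ρ
    by_cases h : ∀ i ∈ S, P i (ρ i)
    · rw [ind_true h]
      symm
      apply Finset.prod_eq_one
      intro i _
      exact ind_true (h i)
    · rw [ind_false h]
      push Not at h
      obtain ⟨i, hi, h2⟩ := h
      symm
      apply Finset.prod_eq_zero (Finset.mem_univ i)
      exact ind_false fun h3 => h2 (h3 hi)
  rw [h1]
  refine (ex_prod μ (fun i r => ind (i ∈ S → P i r))).trans ?_
  rw [← Finset.prod_subset (Finset.subset_univ S)]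
  · apply Finset.prod_congr rfl
    intro i hi
    apply Finset.sum_congr rfl
    intro r _
    congr 1
    exact ind_congr ⟨fun h => h hi, fun h _ => h⟩
  · intro i _ hi
    have h2 : ∀ r, μ i r * ind (i ∈ S → P i r) = μ i r := by
      intro r
      rw [ind_true fun h => absurd h hi, mul_one]
    simp only [h2]
    exact hμ.sum i

end prod

/-! ### The random restriction of the blocks of leaves -/

section local_

variable {J : Type} [Fintype J]

/-- Bernoulli weight of a set of candidates -/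
def bw (β : ℝ) (B : Finset J) : ℝ := β ^ B.card * (1 - β) ^ (Fintype.card J - B.card)

/-- weights: `inl κ` is a dead node with killer `κ`, `inr B` a free node with the set `B` of
candidates for the killer -/
def lw (q β : ℝ) : J ⊕ Finset J → ℝ
  | Sum.inl _ => (1 - q) / Fintype.card J
  | Sum.inr B => q * bw β B

/-- allowed local worlds; `none` means alive -/
def lA : J ⊕ Finset J → Set (Option J)
  | Sum.inl κ => {some κ}
  | Sum.inr B => {ω | ∀ j, ω = some j → j ∈ B}

/-- a candidate -/
def pick (B : Finset J) (h : B.Nonempty) : J := h.choose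

/-- reduced allowed local worlds -/
def lAs : J ⊕ Finset J → Finset (Option J)
  | Sum.inl κ => {some κ}
  | Sum.inr B => if h : B.Nonempty then {none, some (pick B h)} else {none}

theorem bw_nonneg {β : ℝ} (h0 : 0 ≤ β) (h1 : β ≤ 1) (B : Finset J) : 0 ≤ bw β B := by
  unfold bw
  have : 0 ≤ 1 - β := by linarith
  positivity

theorem bw_sum (β : ℝ) : ∑ B : Finset J, bw β B = 1 := by
  unfold bw
  have h := Finset.sum_pow_mul_eq_add_pow β (1 - β) (Finset.univ : Finset J)
  rw [Finset.powerset_univ, Finset.card_univ] at h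
  rw [h]
  norm_num

theorem bw_insert {β : ℝ} (h1 : β < 1) {B : Finset J} {c : J} (hc : c ∉ B) :
    bw β (insert c B) = β / (1 - β) * bw β B := by
  have h2 : (1 - β) ≠ 0 := by linarith
  unfold bw
  rw [Finset.card_insert_of_notMem hc]
  have h3 : B.card + 1 ≤ Fintype.card J := by
    rw [← Finset.card_insert_of_notMem hc]
    exact Finset.card_le_univ _
  obtain ⟨n, hn⟩ : ∃ n, Fintype.card J = B.card + 1 + n := ⟨_, (Nat.add_sub_cancel' h3).symm⟩
  have h4 : Fintype.card J - (B.card + 1) = n := by omega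
  have h5 : Fintype.card J - B.card = n + 1 := by omega
  rw [h4, h5, pow_succ, pow_succ, div_mul_eq_mul_div, eq_div_iff h2]
  ring

/-- The sets of a down-closed family which contain `c`. -/
theorem bw_mem {β : ℝ} (h0 : 0 ≤ β) (h1 : β < 1) (c : J) (Γ : Finset J → Prop)
    (hΓ : ∀ B B', B' ⊆ B → Γ B → Γ B') :
    ∑ B : Finset J, bw β B * ind (Γ B ∧ c ∈ B) ≤
      β / (1 - β) * ∑ B : Finset J, bw β B * ind (Γ B) := by
  have h2 : 0 ≤ β / (1 - β) := div_nonneg h0 (by linarith)
  rw [Finset.mul_sum]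
  -- both sums over sets which contain `c`
  have h3 : ∑ B : Finset J, bw β B * ind (Γ B ∧ c ∈ B) =
      ∑ B ∈ (Finset.univ : Finset (Finset J)).filter (fun B => c ∈ B), bw β B * ind (Γ B) := by
    rw [Finset.sum_filter]
    apply Finset.sum_congr rfl
    intro B _
    by_cases hc : c ∈ B
    · rw [if_pos hc, ind_congr (and_iff_left hc)]
    · rw [if_neg hc, ind_false (by tauto), mul_zero]
  rw [h3]
  calc ∑ B ∈ (Finset.univ : Finset (Finset J)).filter (fun B => c ∈ B), bw β B * ind (Γ B)
      ≤ ∑ B ∈ (Finset.univ : Finset (Finset J)).filter (fun B => c ∈ B),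
          β / (1 - β) * (bw β (B.erase c) * ind (Γ (B.erase c))) := by
        apply Finset.sum_le_sum
        intro B hB
        rw [Finset.mem_filter] at hB
        have h4 : bw β B = β / (1 - β) * bw β (B.erase c) := by
          conv_lhs => rw [← Finset.insert_erase hB.2]
          exact bw_insert h1 (Finset.notMem_erase c B)
        rw [h4, mul_assoc]
        apply mul_le_mul_of_nonneg_left _ h2
        apply mul_le_mul_of_nonneg_left _ (bw_nonneg h0 h1.le _)
        exact ind_mono fun h => hΓ B _ (Finset.erase_subset c B) h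
    _ = ∑ B ∈ ((Finset.univ : Finset (Finset J)).filter (fun B => c ∈ B)).image
          (fun B => B.erase c), β / (1 - β) * (bw β B * ind (Γ B)) := by
        rw [Finset.sum_image]
        intro B hB B' hB' h
        simp only [Finset.coe_filter, Finset.mem_univ, true_and, Set.mem_ofPred_eq] at hB hB'
        rw [← Finset.insert_erase hB, ← Finset.insert_erase hB']
        have h' : B.erase c = B'.erase c := h
        rw [h']
    _ ≤ ∑ B : Finset J, β / (1 - β) * (bw β B * ind (Γ B)) := by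
        apply Finset.sum_le_sum_of_subset_of_nonneg (Finset.subset_univ _)
        intro B _ _
        exact mul_nonneg h2 (mul_nonneg (bw_nonneg h0 h1.le _) (ind_nonneg _))

theorem lw_isPr [Nonempty J] {I : Type} {q β : ℝ} (hq0 : 0 ≤ q) (hq1 : q ≤ 1) (h0 : 0 ≤ β)
    (h1 : β ≤ 1) : IsPr (fun (_ : I) (r : J ⊕ Finset J) => lw q β r) := by
  constructor
  · intro _ r
    cases r with
    | inl κ => exact div_nonneg (by linarith) (by positivity)
    | inr B => exact mul_nonneg hq0 (bw_nonneg h0 h1 B)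
  · intro _
    rw [Fintype.sum_sum_type]
    have h2 : ∑ κ : J, lw q β (Sum.inl κ : J ⊕ Finset J) = 1 - q := by
      show ∑ _κ : J, (1 - q) / (Fintype.card J : ℝ) = 1 - q
      rw [Finset.sum_const, Finset.card_univ, nsmul_eq_mul]
      have : (Fintype.card J : ℝ) ≠ 0 := by exact_mod_cast Fintype.card_ne_zero
      field_simp
    have h3 : ∑ B : Finset J, lw q β (Sum.inr B : J ⊕ Finset J) = q := by
      show ∑ B : Finset J, q * bw β B = q
      rw [← Finset.mul_sum, bw_sum, mul_one]
    rw [h2, h3]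
    ring

/-- local properties given by at most `w` literals about the leaves of one block -/
def LitProp (w : ℕ) (P : Set (Option J)) : Prop :=
  (∃ N : Finset J, N.card ≤ w ∧ P = {ω | ∀ c ∈ N, ω ≠ some c}) ∨ (∃ c, P = {some c}) ∨ P = ∅

/-- The local condition for the restriction of the leaves. -/
theorem localCond_lw [Nonempty J] {I : Type} {w : ℕ} {q β γ : ℝ} (hq0 : 0 ≤ q) (hq1 : q ≤ 1 / 2)
    (h0 : 0 ≤ β) (h1 : β ≤ 1 / 2) (hβ : 16 * w * β ≤ γ) (hγ1 : γ ≤ 1)
    (hqβ : 8 * q * β * Fintype.card J ≤ γ) (i : I) {P : Set (Option J)} (hP : LitProp w P) :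
    LocalCond (fun (_ : I) (r : J ⊕ Finset J) => lw q β r) (fun _ r => lA r) (fun _ => 2) γ i P := by
  intro Γ hΓ
  have hγ0 : 0 ≤ γ := le_trans (by positivity) hβ
  have hμ : IsPr (fun (_ : I) (r : J ⊕ Finset J) => lw q β r) :=
    lw_isPr hq0 (by linarith) h0 (by linarith)
  have hrhs : 0 ≤ γ * ∑ r : J ⊕ Finset J, lw q β r * ind (r ∈ Γ ∧ lA r ⊆ P) :=
    mul_nonneg hγ0 (Finset.sum_nonneg fun r _ => mul_nonneg (hμ.nonneg i r) (ind_nonneg _))
  -- fixed nodes are forced or impossible
  have hinl : ∀ κ : J, ind ((Sum.inl κ : J ⊕ Finset J) ∈ Γ ∧ ¬ lA (Sum.inl κ : J ⊕ Finset J) ⊆ P ∧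
      (lA (Sum.inl κ : J ⊕ Finset J) ∩ P).Nonempty) = 0 := by
    intro κ
    apply ind_false
    rintro ⟨_, h2, ω, h3, h4⟩
    apply h2
    intro ω' h5
    have h6 : ω = some κ := h3
    have h7 : ω' = some κ := h5
    rw [h7, ← h6]
    exact h4
  have hdown : ∀ B B' : Finset J, B' ⊆ B → (Sum.inr B : J ⊕ Finset J) ∈ Γ →
      (Sum.inr B' : J ⊕ Finset J) ∈ Γ := by
    intro B B' hBB h
    apply hΓ _ h
    intro ω hω j hj
    exact hBB (hω j hj)
  have h1' : β < 1 := by linarith
  have hfrac : β / (1 - β) ≤ 2 * β := by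
    rw [div_le_iff₀ (by linarith)]
    nlinarith
  show 2 * ∑ r : J ⊕ Finset J, lw q β r * ind (r ∈ Γ ∧ ¬ lA r ⊆ P ∧ (lA r ∩ P).Nonempty) ≤
    γ * ∑ r : J ⊕ Finset J, lw q β r * ind (r ∈ Γ ∧ lA r ⊆ P)
  rw [Fintype.sum_sum_type]
  simp only [hinl, mul_zero, Finset.sum_const_zero, zero_add]
  rcases hP with ⟨N, hN, rfl⟩ | ⟨c, rfl⟩ | rfl
  · -- negative literals
    set Z : ℝ := ∑ B : Finset J, bw β B * ind ((Sum.inr B : J ⊕ Finset J) ∈ Γ) with hZ
    set Z1 : ℝ := ∑ B : Finset J, bw β B *
      ind ((Sum.inr B : J ⊕ Finset J) ∈ Γ ∧ ∃ c ∈ N, c ∈ B) with hZ1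
    set Z0 : ℝ := ∑ B : Finset J, bw β B *
      ind ((Sum.inr B : J ⊕ Finset J) ∈ Γ ∧ ¬ ∃ c ∈ N, c ∈ B) with hZ0
    have hsplit : Z = Z1 + Z0 := by
      rw [hZ, hZ1, hZ0, ← Finset.sum_add_distrib]
      apply Finset.sum_congr rfl
      intro B _
      rw [← mul_add]
      congr 1
      by_cases hΓB : (Sum.inr B : J ⊕ Finset J) ∈ Γ <;> by_cases hc : ∃ c ∈ N, c ∈ B <;>
        simp [ind, hΓB, hc]
    have hZ1le : Z1 ≤ N.card * (β / (1 - β) * Z) := by
      have h2 : Z1 ≤ ∑ c ∈ N, ∑ B : Finset J, bw β B *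
          ind ((Sum.inr B : J ⊕ Finset J) ∈ Γ ∧ c ∈ B) := by
        rw [Finset.sum_comm]
        apply Finset.sum_le_sum
        intro B _
        rw [← Finset.mul_sum]
        apply mul_le_mul_of_nonneg_left _ (bw_nonneg h0 h1'.le _)
        by_cases h3 : (Sum.inr B : J ⊕ Finset J) ∈ Γ ∧ ∃ c ∈ N, c ∈ B
        · obtain ⟨h4, c, hc, hcB⟩ := h3
          rw [ind_true ⟨h4, c, hc, hcB⟩, ← ind_true (show (Sum.inr B : J ⊕ Finset J) ∈ Γ ∧ c ∈ B
            from ⟨h4, hcB⟩)]
          exact Finset.single_le_sum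
            (f := fun c => ind ((Sum.inr B : J ⊕ Finset J) ∈ Γ ∧ c ∈ B))
            (fun _ _ => ind_nonneg _) hc
        · rw [ind_false h3]
          exact Finset.sum_nonneg fun _ _ => ind_nonneg _
      refine h2.trans ?_
      have h3 : ∀ c ∈ N, ∑ B : Finset J, bw β B *
          ind ((Sum.inr B : J ⊕ Finset J) ∈ Γ ∧ c ∈ B) ≤ β / (1 - β) * Z := fun c _ =>
        bw_mem h0 h1' c (fun B => (Sum.inr B : J ⊕ Finset J) ∈ Γ) hdown
      refine (Finset.sum_le_sum h3).trans ?_
      rw [Finset.sum_const, nsmul_eq_mul]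
    have hZ0' : 0 ≤ Z0 := Finset.sum_nonneg fun B _ =>
      mul_nonneg (bw_nonneg h0 h1'.le _) (ind_nonneg _)
    have hZ1' : 0 ≤ Z1 := Finset.sum_nonneg fun B _ =>
      mul_nonneg (bw_nonneg h0 h1'.le _) (ind_nonneg _)
    have hε : (N.card : ℝ) * (β / (1 - β)) ≤ γ / 8 := by
      have h2 : (N.card : ℝ) ≤ w := by exact_mod_cast hN
      calc (N.card : ℝ) * (β / (1 - β)) ≤ w * (2 * β) :=
            mul_le_mul h2 hfrac (div_nonneg h0 (by linarith)) (by positivity)
        _ ≤ γ / 8 := by linarith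
    -- comparison of the sums
    have hL : ∑ B : Finset J, lw q β (Sum.inr B : J ⊕ Finset J) * ind
        ((Sum.inr B : J ⊕ Finset J) ∈ Γ ∧ ¬ lA (Sum.inr B : J ⊕ Finset J) ⊆
          {ω | ∀ c ∈ N, ω ≠ some c} ∧ (lA (Sum.inr B : J ⊕ Finset J) ∩
          {ω | ∀ c ∈ N, ω ≠ some c}).Nonempty) ≤ q * Z1 := by
      rw [hZ1, Finset.mul_sum]
      apply Finset.sum_le_sum
      intro B _
      show q * bw β B * _ ≤ _
      rw [mul_assoc]
      apply mul_le_mul_of_nonneg_left _ hq0
      apply mul_le_mul_of_nonneg_left _ (bw_nonneg h0 h1'.le _)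
      apply ind_mono
      rintro ⟨h2, h3, _⟩
      refine ⟨h2, ?_⟩
      by_contra hcon
      push Not at hcon
      apply h3
      intro ω hω c hc hωc
      exact hcon c hc (hω c hωc)
    have hR : q * Z0 ≤ ∑ r : J ⊕ Finset J, lw q β r * ind (r ∈ Γ ∧ lA r ⊆
        {ω | ∀ c ∈ N, ω ≠ some c}) := by
      rw [Fintype.sum_sum_type]
      have h2 : 0 ≤ ∑ κ : J, lw q β (Sum.inl κ : J ⊕ Finset J) *
          ind ((Sum.inl κ : J ⊕ Finset J) ∈ Γ ∧ lA (Sum.inl κ : J ⊕ Finset J) ⊆
          {ω | ∀ c ∈ N, ω ≠ some c}) :=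
        Finset.sum_nonneg fun κ _ => mul_nonneg (hμ.nonneg i _) (ind_nonneg _)
      have h3 : q * Z0 ≤ ∑ B : Finset J, lw q β (Sum.inr B : J ⊕ Finset J) *
          ind ((Sum.inr B : J ⊕ Finset J) ∈ Γ ∧ lA (Sum.inr B : J ⊕ Finset J) ⊆
          {ω | ∀ c ∈ N, ω ≠ some c}) := by
        rw [hZ0, Finset.mul_sum]
        apply Finset.sum_le_sum
        intro B _
        show _ ≤ q * bw β B * _
        rw [mul_assoc]
        apply mul_le_mul_of_nonneg_left _ hq0
        apply mul_le_mul_of_nonneg_left _ (bw_nonneg h0 h1'.le _)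
        apply ind_mono
        rintro ⟨h4, h5⟩
        refine ⟨h4, ?_⟩
        intro ω hω c hc hωc
        exact h5 ⟨c, hc, hω c hωc⟩
      linarith
    have hZ1b : Z1 ≤ γ / 8 * (Z1 + Z0) := by
      rw [← hsplit]
      calc Z1 ≤ N.card * (β / (1 - β) * Z) := hZ1le
        _ = (N.card * (β / (1 - β))) * Z := by ring
        _ ≤ γ / 8 * Z := by
          apply mul_le_mul_of_nonneg_right hε
          rw [hsplit]
          linarith
    have hZ1c : 2 * Z1 ≤ γ * Z0 := by nlinarith
    calc 2 * _ ≤ 2 * (q * Z1) := by linarith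
      _ = q * (2 * Z1) := by ring
      _ ≤ q * (γ * Z0) := mul_le_mul_of_nonneg_left hZ1c hq0
      _ = γ * (q * Z0) := by ring
      _ ≤ _ := mul_le_mul_of_nonneg_left hR hγ0
  · -- a positive literal
    by_cases hex : ∃ B : Finset J, (Sum.inr B : J ⊕ Finset J) ∈ Γ ∧ c ∈ B
    swap
    · have h2 : ∑ B : Finset J, lw q β (Sum.inr B : J ⊕ Finset J) * ind
          ((Sum.inr B : J ⊕ Finset J) ∈ Γ ∧ ¬ lA (Sum.inr B : J ⊕ Finset J) ⊆
          {some c} ∧ (lA (Sum.inr B : J ⊕ Finset J) ∩ {some c}).Nonempty) = 0 := by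
        apply Finset.sum_eq_zero
        intro B _
        rw [ind_false, mul_zero]
        rintro ⟨h3, _, ω, h4, h5⟩
        have h6 : ω = some c := h5
        exact hex ⟨B, h3, h4 c h6⟩
      rw [h2, mul_zero]
      exact hrhs
    · obtain ⟨B0, hB0, hcB0⟩ := hex
      have hcΓ : (Sum.inl c : J ⊕ Finset J) ∈ Γ := by
        apply hΓ _ hB0
        intro ω hω j hj
        have h2 : ω = some c := hω
        rw [h2, Option.some.injEq] at hj
        rw [← hj]
        exact hcB0
      have hR : (1 - q) / Fintype.card J ≤ ∑ r : J ⊕ Finset J, lw q β r *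
          ind (r ∈ Γ ∧ lA r ⊆ {some c}) := by
        have h2 : (1 - q) / (Fintype.card J : ℝ) = lw q β (Sum.inl c : J ⊕ Finset J) *
            ind ((Sum.inl c : J ⊕ Finset J) ∈ Γ ∧ lA (Sum.inl c : J ⊕ Finset J) ⊆ {some c}) := by
          rw [ind_true ⟨hcΓ, subset_rfl⟩, mul_one]
          rfl
        rw [h2]
        exact Finset.single_le_sum (f := fun r : J ⊕ Finset J => lw q β r *
          ind (r ∈ Γ ∧ lA r ⊆ {some c}))
          (fun r _ => mul_nonneg (hμ.nonneg i r) (ind_nonneg _)) (Finset.mem_univ _)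
      have hL : ∑ B : Finset J, lw q β (Sum.inr B : J ⊕ Finset J) * ind
          ((Sum.inr B : J ⊕ Finset J) ∈ Γ ∧ ¬ lA (Sum.inr B : J ⊕ Finset J) ⊆
          {some c} ∧ (lA (Sum.inr B : J ⊕ Finset J) ∩ {some c}).Nonempty) ≤
          q * (2 * β) := by
        have h2 := bw_mem h0 h1' c (fun _ => True) (fun _ _ _ _ => trivial)
        have h3 : ∑ B : Finset J, bw β B * ind True = 1 := by
          simp only [ind_true trivial, mul_one]
          exact bw_sum β
        rw [h3, mul_one] at h2
        calc _ ≤ ∑ B : Finset J, q * (bw β B * ind (True ∧ c ∈ B)) := by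
              apply Finset.sum_le_sum
              intro B _
              show q * bw β B * _ ≤ _
              rw [mul_assoc]
              apply mul_le_mul_of_nonneg_left _ hq0
              apply mul_le_mul_of_nonneg_left _ (bw_nonneg h0 h1'.le _)
              apply ind_mono
              rintro ⟨_, _, ω, h4, h5⟩
              have h6 : ω = some c := h5
              exact ⟨trivial, h4 c h6⟩
          _ = q * ∑ B : Finset J, bw β B * ind (True ∧ c ∈ B) := by rw [Finset.mul_sum]
          _ ≤ q * (2 * β) := mul_le_mul_of_nonneg_left (h2.trans hfrac) hq0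
      refine le_trans (mul_le_mul_of_nonneg_left hL (by norm_num)) ?_
      refine le_trans ?_ (mul_le_mul_of_nonneg_left hR hγ0)
      have hJ : (0 : ℝ) < Fintype.card J := by exact_mod_cast Fintype.card_pos
      rw [mul_div_assoc', le_div_iff₀ hJ]
      nlinarith
  · have h2 : ∑ B : Finset J, lw q β (Sum.inr B : J ⊕ Finset J) * ind
        ((Sum.inr B : J ⊕ Finset J) ∈ Γ ∧ ¬ lA (Sum.inr B : J ⊕ Finset J) ⊆
        ∅ ∧ (lA (Sum.inr B : J ⊕ Finset J) ∩ ∅).Nonempty) = 0 := by
      apply Finset.sum_eq_zero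
      intro B _
      rw [ind_false, mul_zero]
      rintro ⟨_, _, h4⟩
      simp at h4
    rw [h2, mul_zero]
    exact hrhs

end local_

end

end Pool.Agent.H59.Er
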