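import Mathlib

set_option autoImplicit false
set_option linter.unusedSectionVars false

/-!
# Product probability on finite families of blocks

`Ex μ f` is the expectation of `f` when every block `i` receives independently the value `r` with
weight `μ i r`.
-/

namespace Pool.Agent.H59.Er

open Finset Classical

noncomputable section

variable {I R : Type} [Fintype I] [Fintype R]

/-- the indicator of a proposition -/
def ind (P : Prop) : ℝ := if P then 1 else 0

theorem ind_nonneg (P : Prop) : 0 ≤ ind P := by unfold ind; split_ifs <;> norm_num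

theorem ind_le_one (P : Prop) : ind P ≤ 1 := by unfold ind; split_ifs <;> norm_num

theorem ind_true {P : Prop} (h : P) : ind P = 1 := by unfold ind; rw [if_pos h]

theorem ind_false {P : Prop} (h : ¬ P) : ind P = 0 := by unfold ind; rw [if_neg h]

theorem ind_mono {P Q : Prop} (h : P → Q) : ind P ≤ ind Q := by
  by_cases hP : P
  · rw [ind_true hP, ind_true (h hP)]
  · rw [ind_false hP]; exact ind_nonneg Q

theorem ind_congr {P Q : Prop} (h : P ↔ Q) : ind P = ind Q := by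
  rw [propext h]

theorem ind_and (P Q : Prop) : ind (P ∧ Q) = ind P * ind Q := by
  by_cases hP : P <;> by_cases hQ : Q <;> simp [ind, hP, hQ]

/-- expectation for the product of the weights `μ i` -/
def Ex (μ : I → R → ℝ) (f : (I → R) → ℝ) : ℝ := ∑ ρ : I → R, (∏ i, μ i (ρ i)) * f ρ

/-- probability for the product of the weights `μ i` -/
def Pr (μ : I → R → ℝ) (E : (I → R) → Prop) : ℝ := Ex μ (fun ρ => ind (E ρ))

/-- the weights `μ i` are probability distributions -/
structure IsPr (μ : I → R → ℝ) : Prop where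
  nonneg : ∀ i r, 0 ≤ μ i r
  sum : ∀ i, ∑ r, μ i r = 1

variable {μ : I → R → ℝ}

theorem IsPr.prod_nonneg (h : IsPr μ) (ρ : I → R) : 0 ≤ ∏ i, μ i (ρ i) :=
  Finset.prod_nonneg fun i _ => h.nonneg i (ρ i)

theorem ex_mono (h : IsPr μ) {f g : (I → R) → ℝ} (hfg : ∀ ρ, f ρ ≤ g ρ) : Ex μ f ≤ Ex μ g :=
  Finset.sum_le_sum fun ρ _ => mul_le_mul_of_nonneg_left (hfg ρ) (h.prod_nonneg ρ)

theorem ex_nonneg (h : IsPr μ) {f : (I → R) → ℝ} (hf : ∀ ρ, 0 ≤ f ρ) : 0 ≤ Ex μ f :=
  Finset.sum_nonneg fun ρ _ => mul_nonneg (h.prod_nonneg ρ) (hf ρ)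

theorem ex_add (μ : I → R → ℝ) (f g : (I → R) → ℝ) :
    Ex μ (fun ρ => f ρ + g ρ) = Ex μ f + Ex μ g := by
  unfold Ex
  rw [← Finset.sum_add_distrib]
  exact Finset.sum_congr rfl fun ρ _ => by ring

theorem ex_mul (μ : I → R → ℝ) (c : ℝ) (f : (I → R) → ℝ) :
    Ex μ (fun ρ => c * f ρ) = c * Ex μ f := by
  unfold Ex
  rw [Finset.mul_sum]
  exact Finset.sum_congr rfl fun ρ _ => by ring

theorem ex_sum {κ : Type*} (μ : I → R → ℝ) (S : Finset κ) (f : κ → (I → R) → ℝ) :
    Ex μ (fun ρ => ∑ a ∈ S, f a ρ) = ∑ a ∈ S, Ex μ (f a) := by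
  unfold Ex
  rw [Finset.sum_comm]
  exact Finset.sum_congr rfl fun ρ _ => by rw [Finset.mul_sum]

theorem ex_one (h : IsPr μ) : Ex μ (fun _ => 1) = 1 := by
  unfold Ex
  simp only [mul_one]
  have h1 : ∑ ρ : I → R, ∏ i, μ i (ρ i) = ∏ i, ∑ r, μ i r := by
    rw [Finset.prod_univ_sum]
    rw [Fintype.piFinset_univ]
  rw [h1]
  simp [h.sum]

theorem ex_const (h : IsPr μ) (c : ℝ) : Ex μ (fun _ => c) = c := by
  have h1 := ex_mul μ c (fun _ => 1)
  simp only [mul_one] at h1
  rw [h1, ex_one h, mul_one]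

/-- Resampling one block. -/
theorem ex_resample (h : IsPr μ) (i : I) (f : (I → R) → ℝ) :
    Ex μ f = Ex μ (fun ρ => ∑ r, μ i r * f (Function.update ρ i r)) := by
  let σ : (I → R) × R ≃ (I → R) × R :=
    { toFun := fun z => (Function.update z.1 i z.2, z.1 i)
      invFun := fun z => (Function.update z.1 i z.2, z.1 i)
      left_inv := by
        rintro ⟨a, b⟩
        simp
      right_inv := by
        rintro ⟨a, b⟩
        simp }
  have key : ∀ (ρ : I → R) (r : R), (∏ j, μ j (ρ j)) * μ i r =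
      (∏ j, μ j (Function.update ρ i r j)) * μ i (ρ i) := by
    intro ρ r
    rw [← Finset.mul_prod_erase Finset.univ (fun j => μ j (ρ j)) (Finset.mem_univ i),
      ← Finset.mul_prod_erase Finset.univ (fun j => μ j (Function.update ρ i r j))
        (Finset.mem_univ i)]
    have h2 : ∏ j ∈ Finset.univ.erase i, μ j (Function.update ρ i r j) =
        ∏ j ∈ Finset.univ.erase i, μ j (ρ j) := by
      apply Finset.prod_congr rfl
      intro j hj
      rw [Function.update_of_ne (Finset.ne_of_mem_erase hj)]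
    rw [h2]
    simp only [Function.update_self]
    ring
  have h1 : Ex μ (fun ρ => ∑ r, μ i r * f (Function.update ρ i r)) =
      ∑ z : (I → R) × R, (∏ j, μ j ((σ z).1 j)) * μ i (σ z).2 * f (σ z).1 := by
    unfold Ex
    rw [Fintype.sum_prod_type]
    apply Finset.sum_congr rfl
    intro ρ _
    rw [Finset.mul_sum]
    apply Finset.sum_congr rfl
    intro r _
    show _ = (∏ j, μ j (Function.update ρ i r j)) * μ i (ρ i) * f (Function.update ρ i r)
    rw [← key ρ r]
    ring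
  rw [h1, Equiv.sum_comp σ (fun z : (I → R) × R => (∏ j, μ j (z.1 j)) * μ i z.2 * f z.1),
    Fintype.sum_prod_type]
  unfold Ex
  apply Finset.sum_congr rfl
  intro ρ _
  have h3 : ∑ r, (∏ j, μ j (ρ j)) * μ i r * f ρ = (∏ j, μ j (ρ j)) * f ρ * ∑ r, μ i r := by
    rw [Finset.mul_sum]
    exact Finset.sum_congr rfl fun r _ => by ring
  rw [h3, h.sum, mul_one]

theorem pr_nonneg (h : IsPr μ) (E : (I → R) → Prop) : 0 ≤ Pr μ E :=
  ex_nonneg h fun _ => ind_nonneg _

theorem pr_mono (h : IsPr μ) {E E' : (I → R) → Prop} (hE : ∀ ρ, E ρ → E' ρ) :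
    Pr μ E ≤ Pr μ E' :=
  ex_mono h fun ρ => ind_mono (hE ρ)

theorem pr_le_one (h : IsPr μ) (E : (I → R) → Prop) : Pr μ E ≤ 1 := by
  refine (ex_mono h fun ρ => ind_le_one _).trans ?_
  rw [ex_one h]

theorem pr_true (h : IsPr μ) : Pr μ (fun _ => True) = 1 := by
  unfold Pr
  simp only [ind_true trivial]
  exact ex_one h

theorem pr_false (μ : I → R → ℝ) : Pr μ (fun _ => False) = 0 := by
  unfold Pr Ex
  apply Finset.sum_eq_zero
  intro ρ _
  show (∏ i, μ i (ρ i)) * ind False = 0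
  rw [ind_false not_false, mul_zero]

theorem pr_or (h : IsPr μ) (E E' : (I → R) → Prop) :
    Pr μ (fun ρ => E ρ ∨ E' ρ) ≤ Pr μ E + Pr μ E' := by
  unfold Pr
  rw [← ex_add]
  apply ex_mono h
  intro ρ
  by_cases h1 : E ρ
  · rw [ind_true (Or.inl h1), ind_true h1]
    linarith [ind_nonneg (E' ρ)]
  · by_cases h2 : E' ρ
    · rw [ind_true (Or.inr h2), ind_true h2]
      linarith [ind_nonneg (E ρ)]
    · rw [ind_false (by tauto)]
      linarith [ind_nonneg (E ρ), ind_nonneg (E' ρ)]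

theorem pr_exists {κ : Type*} (h : IsPr μ) (S : Finset κ) (E : κ → (I → R) → Prop) :
    Pr μ (fun ρ => ∃ a ∈ S, E a ρ) ≤ ∑ a ∈ S, Pr μ (E a) := by
  unfold Pr
  rw [← ex_sum]
  apply ex_mono h
  intro ρ
  by_cases h1 : ∃ a ∈ S, E a ρ
  · obtain ⟨a, ha, h2⟩ := h1
    rw [ind_true ⟨a, ha, h2⟩, ← ind_true h2]
    exact Finset.single_le_sum (f := fun a => ind (E a ρ)) (fun b _ => ind_nonneg _) ha
  · rw [ind_false h1]
    exact Finset.sum_nonneg fun _ _ => ind_nonneg _

theorem pr_exists_le {κ : Type*} (h : IsPr μ) (S : Finset κ) (E : κ → (I → R) → Prop) (ε : ℝ)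
    (hE : ∀ a ∈ S, Pr μ (E a) ≤ ε) : Pr μ (fun ρ => ∃ a ∈ S, E a ρ) ≤ S.card * ε := by
  refine (pr_exists h S E).trans ?_
  refine (Finset.sum_le_sum hE).trans ?_
  rw [Finset.sum_const, nsmul_eq_mul]

/-- disjoint events -/
theorem pr_add_le (h : IsPr μ) {E E' G : (I → R) → Prop} (h1 : ∀ ρ, E ρ → G ρ)
    (h2 : ∀ ρ, E' ρ → G ρ) (h3 : ∀ ρ, E ρ → ¬ E' ρ) : Pr μ E + Pr μ E' ≤ Pr μ G := by
  unfold Pr
  rw [← ex_add]
  apply ex_mono h
  intro ρ
  by_cases hE : E ρ
  · rw [ind_true hE, ind_false (h3 ρ hE), ind_true (h1 ρ hE)]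
    norm_num
  · rw [ind_false hE, zero_add]
    exact ind_mono (h2 ρ)

/-- Averaging: some outcome is at most the expectation. -/
theorem exists_le_ex (h : IsPr μ) (f : (I → R) → ℝ) (c : ℝ) (hf : Ex μ f ≤ c) :
    ∃ ρ, f ρ ≤ c ∧ 0 < ∏ i, μ i (ρ i) := by
  by_contra hcon
  push Not at hcon
  have h1 : ∀ ρ : I → R, (∏ i, μ i (ρ i)) * c ≤ (∏ i, μ i (ρ i)) * f ρ := by
    intro ρ
    by_cases h2 : 0 < ∏ i, μ i (ρ i)
    · have : c < f ρ := by
        by_contra h3
        exact absurd (hcon ρ (not_lt.1 h3)) (not_le.2 h2)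
      exact mul_le_mul_of_nonneg_left this.le h2.le
    · have h3 : ∏ i, μ i (ρ i) = 0 := le_antisymm (not_lt.1 h2) (h.prod_nonneg ρ)
      rw [h3, zero_mul, zero_mul]
  have h5 : Ex μ (fun _ => c) = c := ex_const h c
  -- some outcome has positive weight
  have h6 : ∃ ρ : I → R, 0 < ∏ i, μ i (ρ i) := by
    by_contra h7
    push Not at h7
    have h8 : Ex μ (fun _ => (1 : ℝ)) ≤ 0 := by
      unfold Ex
      apply Finset.sum_nonpos
      intro ρ _
      rw [mul_one]
      exact h7 ρ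
    rw [ex_one h] at h8
    linarith
  obtain ⟨ρ0, h0⟩ := h6
  have h7 : c < f ρ0 := by
    by_contra h3
    exact absurd (hcon ρ0 (not_lt.1 h3)) (not_le.2 h0)
  have h8 : Ex μ (fun _ => c) < Ex μ f := by
    unfold Ex
    apply Finset.sum_lt_sum (fun ρ _ => h1 ρ)
    exact ⟨ρ0, Finset.mem_univ _, mul_lt_mul_of_pos_left h7 h0⟩
  rw [h5] at h8
  linarith

end

end Pool.Agent.H59.Er
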