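import Pool.Agent.H59.Er.Prob
import Pool.Agent.H59.Er.DT

set_option autoImplicit false
set_option linter.unusedSectionVars false

/-!
# The abstract switching lemma for product restrictions

Every block `i` receives independently a local restriction `r` (weight `μ i r`), which allows the
local values in `A i r`; the reduced allowed set `As i r ⊆ A i r` has at most `K i` elements.
If for every local property `P` of the terms and every down-closed set `Γ` of local restrictions
`K i * μ(Γ, P possible but not forced) ≤ γ * μ(Γ, P forced)`, then a disjunction of terms of width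
`w` has a decision tree of depth `< s` on the reduced worlds except with probability `α ^ s`,
where `(1 + γ / α) ^ w ≤ 2`.
-/

namespace Pool.Agent.H59.Er

open Finset Classical

noncomputable section

variable {I R X : Type} [Fintype I] [Fintype R]

/-- the worlds of the reduced allowed sets -/
def Wld (As : I → R → Finset X) (ρ : I → R) : Set (I → X) := {x | ∀ i, x i ∈ As i (ρ i)}

/-- on the reduced worlds of `ρ` the predicate `f` has a decision tree of depth less than `s` -/
def Good (As : I → R → Finset X) (f : (I → X) → Prop) (s : ℕ) (ρ : I → R) : Prop :=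
  ∃ n < s, ∃ g : (I → X) → Prop, DT n g ∧ ∀ x ∈ Wld As ρ, f x ↔ g x

/-- the condition on a local property -/
def LocalCond (μ : I → R → ℝ) (A : I → R → Set X) (K : I → ℝ) (γ : ℝ) (i : I) (P : Set X) : Prop :=
  ∀ Γ : Set R, (∀ r ∈ Γ, ∀ r', A i r' ⊆ A i r → r' ∈ Γ) →
    K i * ∑ r, μ i r * ind (r ∈ Γ ∧ ¬ A i r ⊆ P ∧ (A i r ∩ P).Nonempty) ≤
      γ * ∑ r, μ i r * ind (r ∈ Γ ∧ A i r ⊆ P)

/-- closed under more restrictive values of the block `i` -/
def DownAt (A : I → R → Set X) (i : I) (Γ : (I → R) → Prop) : Prop :=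
  ∀ ρ, Γ ρ → ∀ r, A i r ⊆ A i (ρ i) → Γ (Function.update ρ i r)

/-- the blocks in `Y` are possible but not forced, the blocks in `Z` are forced -/
def Ev (A : I → R → Set X) (P : I → Set X) (Y Z : Finset I) (ρ : I → R) : Prop :=
  (∀ i ∈ Y, ¬ A i (ρ i) ⊆ P i ∧ (A i (ρ i) ∩ P i).Nonempty) ∧ ∀ i ∈ Z, A i (ρ i) ⊆ P i

variable {μ : I → R → ℝ} {A : I → R → Set X} {As : I → R → Finset X} {K : I → ℝ} {γ : ℝ}

/-- Moving one block from the unforced to the forced blocks. -/
theorem ev_step (hμ : IsPr μ) {P : I → Set X} {Y Z : Finset I} {i : I} (hiY : i ∉ Y) (hiZ : i ∉ Z)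
    (hloc : LocalCond μ A K γ i (P i)) {Γ : (I → R) → Prop} (hΓ : DownAt A i Γ) :
    K i * Pr μ (fun ρ => Ev A P (insert i Y) Z ρ ∧ Γ ρ) ≤
      γ * Pr μ (fun ρ => Ev A P Y (insert i Z) ρ ∧ Γ ρ) := by
  unfold Pr
  rw [ex_resample hμ i (fun ρ => ind (Ev A P (insert i Y) Z ρ ∧ Γ ρ)),
    ex_resample hμ i (fun ρ => ind (Ev A P Y (insert i Z) ρ ∧ Γ ρ)), ← ex_mul, ← ex_mul]
  apply ex_mono hμ
  intro ρ
  -- the section of `Γ`
  have hsec : ∀ r ∈ {r | Γ (Function.update ρ i r)}, ∀ r', A i r' ⊆ A i r →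
      r' ∈ {r | Γ (Function.update ρ i r)} := by
    intro r hr r' hr'
    have h1 := hΓ (Function.update ρ i r) hr r' (by rwa [Function.update_self])
    rw [Function.update_idem] at h1
    exact h1
  have h2 := hloc _ hsec
  have hE1 : ∀ r, Ev A P (insert i Y) Z (Function.update ρ i r) ∧ Γ (Function.update ρ i r) ↔
      Ev A P Y Z ρ ∧ (r ∈ {r | Γ (Function.update ρ i r)} ∧ ¬ A i r ⊆ P i ∧
        (A i r ∩ P i).Nonempty) := by
    intro r
    unfold Ev
    constructor
    · rintro ⟨⟨h3, h4⟩, h5⟩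
      have h6 := h3 i (Finset.mem_insert_self _ _)
      rw [Function.update_self] at h6
      refine ⟨⟨?_, ?_⟩, h5, h6⟩
      · intro j hj
        have h7 := h3 j (Finset.mem_insert_of_mem hj)
        rwa [Function.update_of_ne (by rintro rfl; exact hiY hj)] at h7
      · intro j hj
        have h7 := h4 j hj
        rwa [Function.update_of_ne (by rintro rfl; exact hiZ hj)] at h7
    · rintro ⟨⟨h3, h4⟩, h5, h6⟩
      refine ⟨⟨?_, ?_⟩, h5⟩
      · intro j hj
        rcases Finset.mem_insert.1 hj with h7 | h7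
        · subst h7; rw [Function.update_self]; exact h6
        · rw [Function.update_of_ne (fun h8 : j = i => hiY (by rw [← h8]; exact h7))]
          exact h3 j h7
      · intro j hj
        rw [Function.update_of_ne (by rintro rfl; exact hiZ hj)]
        exact h4 j hj
  have hE2 : ∀ r, Ev A P Y (insert i Z) (Function.update ρ i r) ∧ Γ (Function.update ρ i r) ↔
      Ev A P Y Z ρ ∧ (r ∈ {r | Γ (Function.update ρ i r)} ∧ A i r ⊆ P i) := by
    intro r
    unfold Ev
    constructor
    · rintro ⟨⟨h3, h4⟩, h5⟩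
      have h6 := h4 i (Finset.mem_insert_self _ _)
      rw [Function.update_self] at h6
      refine ⟨⟨?_, ?_⟩, h5, h6⟩
      · intro j hj
        have h7 := h3 j hj
        rwa [Function.update_of_ne (by rintro rfl; exact hiY hj)] at h7
      · intro j hj
        have h7 := h4 j (Finset.mem_insert_of_mem hj)
        rwa [Function.update_of_ne (by rintro rfl; exact hiZ hj)] at h7
    · rintro ⟨⟨h3, h4⟩, h5, h6⟩
      refine ⟨⟨?_, ?_⟩, h5⟩
      · intro j hj
        rw [Function.update_of_ne (by rintro rfl; exact hiY hj)]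
        exact h3 j hj
      · intro j hj
        rcases Finset.mem_insert.1 hj with h7 | h7
        · subst h7; rw [Function.update_self]; exact h6
        · rw [Function.update_of_ne (fun h8 : j = i => hiZ (by rw [← h8]; exact h7))]
          exact h4 j h7
  have e1 : ∑ r, μ i r * ind (Ev A P (insert i Y) Z (Function.update ρ i r) ∧
      Γ (Function.update ρ i r)) = ind (Ev A P Y Z ρ) * ∑ r, μ i r *
        ind (r ∈ {r | Γ (Function.update ρ i r)} ∧ ¬ A i r ⊆ P i ∧ (A i r ∩ P i).Nonempty) := by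
    rw [Finset.mul_sum]
    apply Finset.sum_congr rfl
    intro r _
    rw [ind_congr (hE1 r), ind_and]
    ring
  have e2 : ∑ r, μ i r * ind (Ev A P Y (insert i Z) (Function.update ρ i r) ∧
      Γ (Function.update ρ i r)) = ind (Ev A P Y Z ρ) * ∑ r, μ i r *
        ind (r ∈ {r | Γ (Function.update ρ i r)} ∧ A i r ⊆ P i) := by
    rw [Finset.mul_sum]
    apply Finset.sum_congr rfl
    intro r _
    rw [ind_congr (hE2 r), ind_and]
    ring
  show K i * ∑ r, _ ≤ γ * ∑ r, _
  rw [e1, e2]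
  have h3 := mul_le_mul_of_nonneg_left h2 (ind_nonneg (Ev A P Y Z ρ))
  linarith

theorem ev_all (hμ : IsPr μ) (hK : ∀ i, 0 ≤ K i) (hγ : 0 ≤ γ) {P : I → Set X}
    {Γ : (I → R) → Prop} : ∀ (Y Z : Finset I), Disjoint Y Z →
    (∀ i ∈ Y, LocalCond μ A K γ i (P i)) → (∀ i ∈ Y, DownAt A i Γ) →
    (∏ i ∈ Y, K i) * Pr μ (fun ρ => Ev A P Y Z ρ ∧ Γ ρ) ≤
      γ ^ Y.card * Pr μ (fun ρ => Ev A P ∅ (Y ∪ Z) ρ ∧ Γ ρ) := by
  intro Y
  induction Y using Finset.induction_on with
  | empty =>
    intro Z _ _ _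
    simp
  | insert i Y hi ih =>
    intro Z hdis hloc hΓ
    have hiZ : i ∉ Z := by
      intro h
      exact (Finset.disjoint_left.1 hdis (Finset.mem_insert_self _ _)) h
    have h1 := ev_step hμ hi hiZ (hloc i (Finset.mem_insert_self _ _))
      (hΓ i (Finset.mem_insert_self _ _))
    have hdis2 : Disjoint Y (insert i Z) := by
      rw [Finset.disjoint_left]
      intro j hj hj2
      rcases Finset.mem_insert.1 hj2 with rfl | hj2
      · exact hi hj
      · exact (Finset.disjoint_left.1 hdis (Finset.mem_insert_of_mem hj)) hj2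
    have h2 := ih (insert i Z) hdis2 (fun j hj => hloc j (Finset.mem_insert_of_mem hj))
      (fun j hj => hΓ j (Finset.mem_insert_of_mem hj))
    have h3 : Y ∪ insert i Z = insert i Y ∪ Z := by
      ext j
      simp only [Finset.mem_union, Finset.mem_insert]
      tauto
    rw [h3] at h2
    rw [Finset.prod_insert hi, Finset.card_insert_of_notMem hi]
    have h4 : 0 ≤ ∏ j ∈ Y, K j := Finset.prod_nonneg fun j _ => hK j
    calc K i * (∏ j ∈ Y, K j) * Pr μ (fun ρ => Ev A P (insert i Y) Z ρ ∧ Γ ρ)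
        = (∏ j ∈ Y, K j) * (K i * Pr μ (fun ρ => Ev A P (insert i Y) Z ρ ∧ Γ ρ)) := by ring
      _ ≤ (∏ j ∈ Y, K j) * (γ * Pr μ (fun ρ => Ev A P Y (insert i Z) ρ ∧ Γ ρ)) :=
          mul_le_mul_of_nonneg_left h1 h4
      _ = γ * ((∏ j ∈ Y, K j) * Pr μ (fun ρ => Ev A P Y (insert i Z) ρ ∧ Γ ρ)) := by ring
      _ ≤ γ * (γ ^ Y.card * Pr μ (fun ρ => Ev A P ∅ (insert i Y ∪ Z) ρ ∧ Γ ρ)) :=
          mul_le_mul_of_nonneg_left h2 hγ
      _ = _ := by ring

/-- The combinatorial alternative for the first term. -/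
theorem good_cons [Nonempty X] {T : Term I X} {F : List (Term I X)} {s : ℕ} (hs : 1 ≤ s) {ρ : I → R}
    (hsub : ∀ i r, (As i r : Set X) ⊆ A i r) (hbad : ¬ Good As (Dnf (T :: F)) s ρ) :
    ((∃ i ∈ T.S, ¬ (A i (ρ i) ∩ T.P i).Nonempty) ∧ ¬ Good As (Dnf F) s ρ) ∨
    ∃ Y ∈ T.S.powerset, Y ≠ ∅ ∧ Ev A T.P Y (T.S \ Y) ρ ∧
      ∃ π : I → X, (∀ i ∈ Y, π i ∈ As i (ρ i)) ∧
        ¬ Good As (Dnf (restr Y π F)) (s - Y.card) ρ := by
  by_cases himp : ∃ i ∈ T.S, ¬ (A i (ρ i) ∩ T.P i).Nonempty
  · left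
    refine ⟨himp, ?_⟩
    rintro ⟨n, hn, g, hg, hfg⟩
    apply hbad
    refine ⟨n, hn, g, hg, ?_⟩
    intro x hx
    rw [← hfg x hx, dnf_cons]
    constructor
    · rintro (h | h)
      · exfalso
        obtain ⟨i, hi, h2⟩ := himp
        exact h2 ⟨x i, hsub i (ρ i) (hx i), h i hi⟩
      · exact h
    · exact Or.inr
  · right
    push Not at himp
    set Y := T.S.filter (fun i => ¬ A i (ρ i) ⊆ T.P i) with hY
    have hYS : Y ⊆ T.S := Finset.filter_subset _ _
    have hforced : ∀ i ∈ T.S \ Y, A i (ρ i) ⊆ T.P i := by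
      intro i hi
      rw [Finset.mem_sdiff] at hi
      by_contra hcon
      exact hi.2 (Finset.mem_filter.2 ⟨hi.1, hcon⟩)
    refine ⟨Y, Finset.mem_powerset.2 hYS, ?_, ⟨?_, hforced⟩, ?_⟩
    · intro hempty
      apply hbad
      refine ⟨0, hs, fun _ => True, DT.const 0 True, ?_⟩
      intro x hx
      simp only [iff_true]
      rw [dnf_cons]
      left
      intro i hi
      have h1 : i ∈ T.S \ Y := by rw [hempty]; simpa using hi
      exact hforced i h1 (hsub i (ρ i) (hx i))
    · intro i hi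
      exact ⟨(Finset.mem_filter.1 hi).2, himp i (hYS hi)⟩
    · by_contra hcon
      push Not at hcon
      apply hbad
      -- choose the trees of the branches
      obtain ⟨x0⟩ : Nonempty (I → X) := inferInstance
      by_cases hex : ∃ π : I → X, ∀ i ∈ Y, π i ∈ As i (ρ i)
      swap
      · -- no world at all
        push Not at hex
        refine ⟨0, hs, fun _ => True, DT.const 0 True, ?_⟩
        intro x hx
        obtain ⟨i, hi, h⟩ := hex x
        exact absurd (hx i) h
      obtain ⟨π0, hπ0⟩ := hex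
      have hlt : Y.card < s := by
        obtain ⟨n, hn, _⟩ := hcon π0 hπ0
        omega
      have hch : ∀ π : I → X, ∃ g : (I → X) → Prop, DT (s - Y.card - 1) g ∧
          ((∀ i ∈ Y, π i ∈ As i (ρ i)) → ∀ x ∈ Wld As ρ, (Dnf (restr Y π F)) x ↔ g x) := by
        intro π
        by_cases hπ : ∀ i ∈ Y, π i ∈ As i (ρ i)
        · obtain ⟨n, hn, g, hg, hfg⟩ := hcon π hπ
          exact ⟨g, hg.mono (by omega), fun _ => hfg⟩
        · exact ⟨fun _ => True, DT.const _ True, fun h => absurd h hπ⟩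
      choose G hG1 hG2 using hch
      let G' : (I → X) → (I → X) → Prop := fun π x => (∀ i ∈ Y, π i ∈ T.P i) ∨ G π x
      have hG' : ∀ π, DT (s - Y.card - 1) (G' π) := by
        intro π
        exact (hG1 π).map (fun b => (∀ i ∈ Y, π i ∈ T.P i) ∨ b)
      have htree := DT.ofFinset Y x0 G' hG'
      refine ⟨Y.card + (s - Y.card - 1), by omega, _, htree, ?_⟩
      intro x hx
      set π : I → X := fun i => if i ∈ Y then x i else x0 i with hπ
      have hπx : ∀ i ∈ Y, x i = π i := by
        intro i hi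
        rw [hπ]
        simp [hi]
      have hπA : ∀ i ∈ Y, π i ∈ As i (ρ i) := by
        intro i hi
        rw [← hπx i hi]
        exact hx i
      have hgoal : Dnf (T :: F) x ↔ (∀ i ∈ Y, π i ∈ T.P i) ∨ G π x := by
        rw [dnf_cons, ← hG2 π hπA x hx, dnf_restr Y π F x hπx]
        apply or_congr_left
        constructor
        · intro h i hi
          rw [← hπx i hi]
          exact h i (hYS hi)
        · intro h i hi
          by_cases hiY : i ∈ Y
          · rw [hπx i hiY]; exact h i hiY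
          · exact hforced i (Finset.mem_sdiff.2 ⟨hi, hiY⟩) (hsub i (ρ i) (hx i))
      exact hgoal

/-- The abstract switching lemma. -/
theorem switching [Fintype X] [Nonempty X] (hμ : IsPr μ) (hsub : ∀ i r, (As i r : Set X) ⊆ A i r)
    (hA : ∀ i r, (A i r).Nonempty) (hK0 : ∀ i, 0 ≤ K i) (hK : ∀ i r, ((As i r).card : ℝ) ≤ K i)
    (hγ : 0 ≤ γ) {α : ℝ} (hα : 0 < α) (hα1 : α ≤ 1) {w : ℕ} (hw : (1 + γ / α) ^ w ≤ 2) :
    ∀ (N : ℕ) (F : List (Term I X)), F.length ≤ N →
      (∀ T ∈ F, T.S.card ≤ w ∧ ∀ i ∈ T.S, LocalCond μ A K γ i (T.P i)) →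
      ∀ (s : ℕ) (Γ : (I → R) → Prop), (∀ T ∈ F, ∀ i ∈ T.S, DownAt A i Γ) →
      Pr μ (fun ρ => ¬ Good As (Dnf F) s ρ ∧ Γ ρ) ≤ α ^ s * Pr μ Γ := by
  intro N
  induction N with
  | zero =>
    intro F hF _ s Γ _
    have hF0 : F = [] := List.length_eq_zero_iff.1 (by omega)
    subst hF0
    rcases Nat.eq_zero_or_pos s with rfl | hs
    · rw [pow_zero, one_mul]
      exact pr_mono hμ fun ρ h => h.2
    · have h1 : Pr μ (fun ρ => ¬ Good As (Dnf ([] : List (Term I X))) s ρ ∧ Γ ρ) ≤ 0 := by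
        rw [← pr_false μ]
        apply pr_mono hμ
        rintro ρ ⟨h, _⟩
        apply h
        exact ⟨0, hs, fun _ => False, DT.const 0 False, fun x _ => by simp [Dnf]⟩
      exact h1.trans (mul_nonneg (pow_nonneg hα.le s) (pr_nonneg hμ Γ))
  | succ N ih =>
    intro F hF hloc s Γ hΓ
    match F, hF, hloc, hΓ with
    | [], _, _, _ =>
      exact ih [] (by simp) (by simp) s Γ (by simp)
    | T :: F, hF, hloc, hΓ =>
    have hFlen : F.length ≤ N := by simpa using hF
    rcases Nat.eq_zero_or_pos s with rfl | hs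
    · rw [pow_zero, one_mul]
      exact pr_mono hμ fun ρ h => h.2
    -- the event that the first term is impossible
    let Γa : (I → R) → Prop := fun ρ => (∃ i ∈ T.S, ¬ (A i (ρ i) ∩ T.P i).Nonempty) ∧ Γ ρ
    have hΓa : ∀ T' ∈ F, ∀ i ∈ T'.S, DownAt A i Γa := by
      intro T' hT' i hi ρ hρ r hr
      refine ⟨?_, hΓ T' (List.mem_cons_of_mem _ hT') i hi ρ hρ.2 r hr⟩
      obtain ⟨j, hj, h⟩ := hρ.1
      refine ⟨j, hj, ?_⟩
      rintro ⟨a, ha, hb⟩
      apply h
      by_cases hji : j = i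
      · subst hji
        rw [Function.update_self] at ha
        exact ⟨a, hr ha, hb⟩
      · rw [Function.update_of_ne hji] at ha
        exact ⟨a, ha, hb⟩
    have ha := ih F hFlen (fun T' hT' => hloc T' (List.mem_cons_of_mem _ hT')) s Γa hΓa
    -- the events for the sets `Y`
    let Γb : (I → R) → Prop := fun ρ => Ev A T.P ∅ T.S ρ ∧ Γ ρ
    have hb : ∀ Y ∈ T.S.powerset.erase ∅,
        Pr μ (fun ρ => (Ev A T.P Y (T.S \ Y) ρ ∧ ∃ π : I → X, (∀ i ∈ Y, π i ∈ As i (ρ i)) ∧
          ¬ Good As (Dnf (restr Y π F)) (s - Y.card) ρ) ∧ Γ ρ) ≤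
        α ^ s * (γ / α) ^ Y.card * Pr μ Γb := by
      intro Y hY
      have hYS : Y ⊆ T.S := Finset.mem_powerset.1 (Finset.mem_erase.1 hY).2
      -- union over the answers
      obtain ⟨x0⟩ : Nonempty X := inferInstance
      let Ans : Finset (I → X) := Fintype.piFinset fun i => if i ∈ Y then Finset.univ else {x0}
      have h1 : Pr μ (fun ρ => (Ev A T.P Y (T.S \ Y) ρ ∧ ∃ π : I → X,
          (∀ i ∈ Y, π i ∈ As i (ρ i)) ∧
          ¬ Good As (Dnf (restr Y π F)) (s - Y.card) ρ) ∧ Γ ρ) ≤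
          Pr μ (fun ρ => ∃ π ∈ Ans, ¬ Good As (Dnf (restr Y π F)) (s - Y.card) ρ ∧
            ((∀ i ∈ Y, π i ∈ As i (ρ i)) ∧ Ev A T.P Y (T.S \ Y) ρ ∧ Γ ρ)) := by
        apply pr_mono hμ
        rintro ρ ⟨⟨h2, π, h3, h4⟩, h5⟩
        refine ⟨fun i => if i ∈ Y then π i else x0, ?_, ?_, ?_, h2, h5⟩
        · rw [Fintype.mem_piFinset]
          intro i
          by_cases hi : i ∈ Y <;> simp [hi]
        · have h6 : restr Y (fun i => if i ∈ Y then π i else x0) F = restr Y π F := by
            unfold restr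
            congr 1
            apply List.filter_congr
            intro T' _
            apply decide_eq_decide.2
            constructor
            · intro h i hi hiY
              have h8 : (if i ∈ Y then π i else x0) ∈ T'.P i := h i hi hiY
              rwa [if_pos hiY] at h8
            · intro h i hi hiY
              show (if i ∈ Y then π i else x0) ∈ T'.P i
              rw [if_pos hiY]
              exact h i hi hiY
          rw [h6]
          exact h4
        · intro i hi
          show (if i ∈ Y then π i else x0) ∈ As i (ρ i)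
          rw [if_pos hi]
          exact h3 i hi
      -- the induction hypothesis for every answer
      have h2 : ∀ π ∈ Ans, Pr μ (fun ρ => ¬ Good As (Dnf (restr Y π F)) (s - Y.card) ρ ∧
            ((∀ i ∈ Y, π i ∈ As i (ρ i)) ∧ Ev A T.P Y (T.S \ Y) ρ ∧ Γ ρ)) ≤
          α ^ (s - Y.card) * Pr μ (fun ρ => (∀ i ∈ Y, π i ∈ As i (ρ i)) ∧
            Ev A T.P Y (T.S \ Y) ρ ∧ Γ ρ) := by
        intro π _
        apply ih (restr Y π F) ((restr_length Y π F).trans hFlen)
        · intro T' hT'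
          obtain ⟨T2, h3, h4, h5⟩ := mem_restr hT'
          obtain ⟨h6, h7⟩ := hloc T2 (List.mem_cons_of_mem _ h3)
          constructor
          · rw [h4]
            exact (Finset.card_le_card Finset.sdiff_subset).trans h6
          · intro i hi
            rw [h4] at hi
            rw [h5]
            exact h7 i (Finset.mem_sdiff.1 hi).1
        · intro T' hT' i hi ρ hρ r hr
          obtain ⟨T2, h3, h4, h5⟩ := mem_restr hT'
          rw [h4, Finset.mem_sdiff] at hi
          obtain ⟨g1, ⟨g2, g3⟩, g4⟩ := hρ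
          refine ⟨?_, ⟨?_, ?_⟩, hΓ T2 (List.mem_cons_of_mem _ h3) i hi.1 ρ g4 r hr⟩
          · intro j hj
            rw [Function.update_of_ne (by rintro rfl; exact hi.2 hj)]
            exact g1 j hj
          · intro j hj
            rw [Function.update_of_ne (by rintro rfl; exact hi.2 hj)]
            exact g2 j hj
          · intro j hj
            by_cases hji : j = i
            · subst hji
              rw [Function.update_self]
              exact hr.trans (g3 j hj)
            · rw [Function.update_of_ne hji]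
              exact g3 j hj
      -- the number of answers
      have h3 : ∑ π ∈ Ans, Pr μ (fun ρ => (∀ i ∈ Y, π i ∈ As i (ρ i)) ∧
            Ev A T.P Y (T.S \ Y) ρ ∧ Γ ρ) ≤
          (∏ i ∈ Y, K i) * Pr μ (fun ρ => Ev A T.P Y (T.S \ Y) ρ ∧ Γ ρ) := by
        unfold Pr
        rw [← ex_sum, ← ex_mul]
        apply ex_mono hμ
        intro ρ
        have h4 : ∀ π : I → X, ind ((∀ i ∈ Y, π i ∈ As i (ρ i)) ∧ Ev A T.P Y (T.S \ Y) ρ ∧ Γ ρ) =
            ind (Ev A T.P Y (T.S \ Y) ρ ∧ Γ ρ) * ind (∀ i ∈ Y, π i ∈ As i (ρ i)) := by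
          intro π
          rw [ind_and, mul_comm]
        simp only [h4]
        rw [← Finset.mul_sum, mul_comm]
        apply mul_le_mul_of_nonneg_right _ (ind_nonneg _)
        have h5 : ∑ π ∈ Ans, ind (∀ i ∈ Y, π i ∈ As i (ρ i)) =
            ((Fintype.piFinset fun i => if i ∈ Y then As i (ρ i) else {x0}).card : ℝ) := by
          have h6 : (Fintype.piFinset fun i => if i ∈ Y then As i (ρ i) else {x0}) =
              Ans.filter (fun π => ∀ i ∈ Y, π i ∈ As i (ρ i)) := by
            ext π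
            rw [Finset.mem_filter, Fintype.mem_piFinset, Fintype.mem_piFinset]
            constructor
            · intro h
              constructor
              · intro i
                have := h i
                by_cases hi : i ∈ Y
                · simp [hi]
                · simpa [hi] using this
              · intro i hi
                have := h i
                simpa [hi] using this
            · rintro ⟨h, h'⟩ i
              by_cases hi : i ∈ Y
              · simpa [hi] using h' i hi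
              · simpa [hi] using h i
          rw [h6, Finset.card_filter]
          push_cast
          apply Finset.sum_congr rfl
          intro π _
          unfold ind
          congr
        rw [h5, Fintype.card_piFinset]
        push_cast
        have h7 : ∏ i : I, ((if i ∈ Y then As i (ρ i) else {x0}).card : ℝ) =
            ∏ i ∈ Y, ((As i (ρ i)).card : ℝ) := by
          rw [← Finset.prod_subset (Finset.subset_univ Y)]
          · apply Finset.prod_congr rfl
            intro i hi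
            rw [if_pos hi]
          · intro i _ hi
            rw [if_neg hi]
            simp
        rw [h7]
        exact Finset.prod_le_prod (fun i _ => by positivity) fun i _ => hK i (ρ i)
      have h4 := ev_all (A := A) hμ hK0 hγ (P := T.P) (Γ := Γ) Y (T.S \ Y) Finset.disjoint_sdiff
        (fun i hi => (hloc T (by simp)).2 i (hYS hi))
        (fun i hi => hΓ T (by simp) i (hYS hi))
      rw [Finset.union_sdiff_of_subset hYS] at h4
      have h5 : α ^ (s - Y.card) ≤ α ^ s / α ^ Y.card := by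
        rw [le_div_iff₀ (pow_pos hα _), ← pow_add]
        apply pow_le_pow_of_le_one hα.le hα1
        omega
      have h6 : 0 ≤ Pr μ Γb := pr_nonneg hμ Γb
      calc _ ≤ _ := h1
        _ ≤ ∑ π ∈ Ans, Pr μ (fun ρ => ¬ Good As (Dnf (restr Y π F)) (s - Y.card) ρ ∧
            ((∀ i ∈ Y, π i ∈ As i (ρ i)) ∧ Ev A T.P Y (T.S \ Y) ρ ∧ Γ ρ)) :=
            pr_exists hμ Ans _
        _ ≤ ∑ π ∈ Ans, α ^ (s - Y.card) * Pr μ (fun ρ => (∀ i ∈ Y, π i ∈ As i (ρ i)) ∧
            Ev A T.P Y (T.S \ Y) ρ ∧ Γ ρ) := Finset.sum_le_sum h2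
        _ = α ^ (s - Y.card) * ∑ π ∈ Ans, Pr μ (fun ρ => (∀ i ∈ Y, π i ∈ As i (ρ i)) ∧
            Ev A T.P Y (T.S \ Y) ρ ∧ Γ ρ) := by rw [Finset.mul_sum]
        _ ≤ α ^ (s - Y.card) * ((∏ i ∈ Y, K i) *
            Pr μ (fun ρ => Ev A T.P Y (T.S \ Y) ρ ∧ Γ ρ)) :=
            mul_le_mul_of_nonneg_left h3 (pow_nonneg hα.le _)
        _ ≤ α ^ (s - Y.card) * (γ ^ Y.card * Pr μ Γb) :=
            mul_le_mul_of_nonneg_left h4 (pow_nonneg hα.le _)
        _ ≤ α ^ s / α ^ Y.card * (γ ^ Y.card * Pr μ Γb) := by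
            apply mul_le_mul_of_nonneg_right h5
            positivity
        _ = α ^ s * (γ / α) ^ Y.card * Pr μ Γb := by
            rw [div_pow]
            ring
    -- sum over all `Y`
    have hsum : ∑ Y ∈ T.S.powerset.erase ∅, (γ / α) ^ Y.card ≤ 1 := by
      have h1 : ∑ Y ∈ T.S.powerset, (γ / α) ^ Y.card = (1 + γ / α) ^ T.S.card := by
        rw [add_comm (1 : ℝ) (γ / α), ← Finset.sum_pow_mul_eq_add_pow]
        apply Finset.sum_congr rfl
        intro Y _
        rw [one_pow, mul_one]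
      have h2 : (1 + γ / α) ^ T.S.card ≤ (1 + γ / α) ^ w := by
        apply pow_le_pow_right₀ _ (hloc T (by simp)).1
        have : 0 ≤ γ / α := div_nonneg hγ hα.le
        linarith
      have h3 := Finset.add_sum_erase T.S.powerset (fun Y => (γ / α) ^ Y.card)
        (Finset.empty_mem_powerset T.S)
      simp only [Finset.card_empty, pow_zero] at h3
      linarith
    -- conclusion
    have hcover : ∀ ρ, (¬ Good As (Dnf (T :: F)) s ρ ∧ Γ ρ) →
        ((¬ Good As (Dnf F) s ρ ∧ Γa ρ) ∨ ∃ Y ∈ T.S.powerset.erase ∅,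
          (Ev A T.P Y (T.S \ Y) ρ ∧ ∃ π : I → X, (∀ i ∈ Y, π i ∈ As i (ρ i)) ∧
          ¬ Good As (Dnf (restr Y π F)) (s - Y.card) ρ) ∧ Γ ρ) := by
      rintro ρ ⟨h1, h2⟩
      rcases good_cons hs hsub h1 with ⟨h3, h4⟩ | ⟨Y, h3, h4, h5, π, h6, h7⟩
      · exact Or.inl ⟨h4, h3, h2⟩
      · exact Or.inr ⟨Y, Finset.mem_erase.2 ⟨h4, h3⟩, ⟨h5, π, h6, h7⟩, h2⟩
    have hdisj : Pr μ Γa + Pr μ Γb ≤ Pr μ Γ := by
      apply pr_add_le hμ (fun ρ h => h.2) (fun ρ h => h.2)
      rintro ρ ⟨⟨i, hi, h1⟩, _⟩ ⟨⟨_, h2⟩, _⟩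
      obtain ⟨a, ha⟩ := hA i (ρ i)
      exact h1 ⟨a, ha, h2 i hi ha⟩
    calc Pr μ (fun ρ => ¬ Good As (Dnf (T :: F)) s ρ ∧ Γ ρ)
        ≤ Pr μ (fun ρ => ¬ Good As (Dnf F) s ρ ∧ Γa ρ) +
          Pr μ (fun ρ => ∃ Y ∈ T.S.powerset.erase ∅,
          (Ev A T.P Y (T.S \ Y) ρ ∧ ∃ π : I → X, (∀ i ∈ Y, π i ∈ As i (ρ i)) ∧
          ¬ Good As (Dnf (restr Y π F)) (s - Y.card) ρ) ∧ Γ ρ) :=
          (pr_mono hμ hcover).trans (pr_or hμ _ _)
      _ ≤ α ^ s * Pr μ Γa + ∑ Y ∈ T.S.powerset.erase ∅, α ^ s * (γ / α) ^ Y.card * Pr μ Γb :=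
          add_le_add ha ((pr_exists hμ _ _).trans (Finset.sum_le_sum hb))
      _ = α ^ s * Pr μ Γa + α ^ s * Pr μ Γb * ∑ Y ∈ T.S.powerset.erase ∅, (γ / α) ^ Y.card := by
          rw [Finset.mul_sum]
          congr 1
          exact Finset.sum_congr rfl fun Y _ => by ring
      _ ≤ α ^ s * Pr μ Γa + α ^ s * Pr μ Γb * 1 := by
          apply add_le_add le_rfl
          apply mul_le_mul_of_nonneg_left hsum
          exact mul_nonneg (pow_nonneg hα.le s) (pr_nonneg hμ Γb)
      _ = α ^ s * (Pr μ Γa + Pr μ Γb) := by ring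
      _ ≤ α ^ s * Pr μ Γ := mul_le_mul_of_nonneg_left hdisj (pow_nonneg hα.le s)

end

end Pool.Agent.H59.Er
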