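import Mathlib
import Pool.Agent.H59.Er.Stage

set_option autoImplicit false
set_option linter.unusedSectionVars false

/-!
# One step of the diagonal construction
-/

namespace Pool.Agent.H59.Er

open Pool.Agent.H9 Classical

/-- **One step of the construction.** -/
theorem step_exists (FT : ℕ → ℕ → ℕ)
    (hFT : ∀ i r, ∃ n1, ∀ n ≥ n1, FT i n ≤ 2 ^ (n / Nat.log 2 n ^ r))
    (g : ℕ → Qn) (hs : ℕ → Hr) (r : Mr) (s : ℕ) (st : Stt) :
    ∃ st' : Stt, (∀ v : Nd, v.2.1.length < st.n → st'.T.W v = st.T.W v ∧ st'.T.A v = st.T.A v) ∧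
      st.n < st'.n ∧ st.m < st'.m ∧
      ∀ T : Tbl, (∀ v : Nd, v.2.1.length < st'.n → T.W v = st'.T.W v ∧ T.A v = st'.T.A v) →
        FailsE FT g r T ∧ GoodE g hs s st.m st'.m (orc g T) := by
  sorry

end Pool.Agent.H59.Er
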